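import Pool.Agent.Work.MP_84e666_co.N.ChainMu
import Pool.Agent.Work.MP_84e666_co.H45Gap

/-! An instance whose Möbius value tells whether two packing problems are both solvable. -/

namespace Pool.Agent.Work.MP_84e666_co.NP

open Finset Sum Pack

/-- The sizes of the chain items. -/
def chainL (B : ℕ) (H : List (ℕ × ℕ)) : List ℕ :=
  ((List.range H.length).flatMap fun j =>
    [(H.getD j (0, 0)).2 + hi B 1 j 0 1 0 0, (H.getD j (0, 0)).1 + hi B 0 j 0 1 0 0,
      hi B 0 0 j 0 1 0, hi B 1 0 j 0 1 0]) ++ [hi B H.length 0 0 0 0 1, hi B 0 0 0 0 0 1]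

/-- The bins that hold chain items. -/
def homeL (B : ℕ) (H : List (ℕ × ℕ)) : List ℕ :=
  ((List.range H.length).map fun j =>
    (H.getD j (0, 0)).1 + (H.getD j (0, 0)).2 + hi B 1 j j 1 1 0) ++
    [(H.map fun x => x.1).sum + hi B H.length (List.range H.length).sum 0 H.length 0 1,
      hi B H.length 0 (List.range H.length).sum 0 H.length 1]

/-- The free room of a bin in each mode. -/
def hf (H : List (ℕ × ℕ)) (t : Bool) (j : Fin H.length) : ℕ :=
  if t = true then (H.getD j (0, 0)).1 else (H.getD j (0, 0)).2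

theorem map_hf (H : List (ℕ × ℕ)) (t : Bool) : univ.val.map (hf H t) =
    ((H.map fun x => if t = true then x.1 else x.2 : List ℕ) : Multiset ℕ) := by
  rw [Fin.univ_val_map]
  congr 1
  refine List.ext_getElem (by simp) fun i h1 h2 => ?_
  simp at h1
  simp [hf, h1]

theorem chainL_eq (B : ℕ) (H : List (ℕ × ℕ)) :
    (chainL B H : Multiset ℕ) = univ.val.map (csz B (hf H)) := by
  simp only [chainL, ← Multiset.coe_add, coe_flatMap, map_univ, Fintype.sum_sum_type,
    Fintype.sum_prod_type, Fintype.sum_bool, pair_coe, quad_coe, sum_add_distrib, add_assoc]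
  simp [csz, tri, hor, cdigs, dA, hi, hf]

theorem homeL_eq (B : ℕ) (H : List (ℕ × ℕ)) :
    (homeL B H : Multiset ℕ) = univ.val.map (ctg B (hf H)) := by
  have e1 : ∑ j, hf H true j = (H.map fun x => x.1).sum := by
    rw [Finset.sum_eq_multiset_sum, map_hf]
    simp
  have e2 : ∑ j : Fin H.length, j.val = (List.range H.length).sum := by
    rw [← List.map_id (List.range _), sum_range_map]
    rfl
  simp only [homeL, ← Multiset.coe_add, Pack.coe_map, map_univ, Fintype.sum_sum_type,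
    Fintype.sum_bool, pair_coe, ctg, e1, e2]
  simp [hf]

/-- The small items. -/
def GS : List ℕ := [3, 3, 3, 19, 19, 19, 2, 7, 55]

/-- The free rooms. -/
def HL (R₁ R₂ : List ℕ) : List (ℕ × ℕ) := (R₁.map fun x => (x, 0)) ++ ((R₂.map fun x => (0, x)) ++
  [(7, 0), (19, 0), (19, 0), (19, 0), (0, 55), (0, 3), (0, 3), (0, 3)])

/-- The base for the chain items. -/
def bB (S N : ℕ) : ℕ := 3 * (130 + S) + (4 * N + 2) * (2 * N) + 1

/-- The items that do not depend on the packing problems. -/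
def fixL (S : ℕ) (R₁ R₂ : List ℕ) : List ℕ :=
  GS ++ chainL (bB S (HL R₁ R₂).length) (HL R₁ R₂)

/-- The bins. -/
def topL (S : ℕ) (R₁ R₂ : List ℕ) : List ℕ :=
  [9, 57] ++ homeL (bB S (HL R₁ R₂).length) (HL R₁ R₂)

/-- The small rooms. -/
def sm (t : Bool) : Multiset ℕ := if t = true then {7, 19, 19, 19} else {55, 3, 3, 3}

/-- The other small items. -/
def sr (t : Bool) : Multiset ℕ := if t = true then {3, 3, 3, 2, 55} else {19, 19, 19, 2, 7}

variable {R₁ R₂ : List ℕ} {X : Multiset ℕ} {S : ℕ}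

theorem map_HL (t : Bool) : ∃ k, univ.val.map (hf (HL R₁ R₂) t) =
    sm t + (Multiset.replicate k 0 + ((if t = true then R₁ else R₂ : List ℕ) : Multiset ℕ)) := by
  rw [map_hf]
  cases t
  · refine ⟨R₁.length + 4, ?_⟩
    simp only [HL, List.map_append, List.map_map, ← Multiset.coe_add, Function.comp_def,
      Bool.false_eq_true, if_false, List.map_const', List.map_id', Multiset.replicate_add,
      Multiset.coe_replicate]
    rw [show (List.map _ _ : List ℕ) = [0, 0, 0, 0] ++ [55, 3, 3, 3] from rfl,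
      ← Multiset.coe_add, show sm false = ([55, 3, 3, 3] : List ℕ) from rfl,
      show Multiset.replicate 4 0 = ([0, 0, 0, 0] : List ℕ) from rfl]
    abel
  · refine ⟨R₂.length + 4, ?_⟩
    simp only [HL, List.map_append, List.map_map, ← Multiset.coe_add, Function.comp_def,
      if_true, List.map_const', List.map_id', Multiset.replicate_add, Multiset.coe_replicate]
    rw [show (List.map _ _ : List ℕ) = [7, 19, 19, 19] ++ [0, 0, 0, 0] from rfl,
      ← Multiset.coe_add, show sm true = ([7, 19, 19, 19] : List ℕ) from rfl,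
      show Multiset.replicate 4 0 = ([0, 0, 0, 0] : List ℕ) from rfl]
    abel

theorem GS_eq (t : Bool) : (GS : Multiset ℕ) = sr t + sm t := by cases t <;> decide

theorem GS_pos : ∀ x ∈ (GS : Multiset ℕ), 0 < x ∧ x < 131 := by decide

theorem big_of (hX : ∀ x ∈ X, 0 < x ∧ 131 ∣ x) : ∀ x ∈ X, 131 ≤ x :=
  fun x hx => Nat.le_of_dvd (hX x hx).1 (hX x hx).2

theorem le_GS (hX : ∀ x ∈ X, 0 < x ∧ 131 ∣ x) {F : Multiset ℕ} (hF : F ≤ GS + X)
    (h : F.sum < 131) : F ≤ GS :=
  le_of_small hF (big_of hX) fun _ hx => (Multiset.le_sum_of_mem hx).trans_lt h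

theorem le_X (hX : ∀ x ∈ X, 131 ∣ x) {F : Multiset ℕ} (hF : F ≤ GS + X) (h : 131 ∣ F.sum) :
    F ≤ X := by
  obtain ⟨A, h1, C, h2, rfl⟩ := le_split hF
  have h3 : 131 ∣ C.sum := Multiset.dvd_sum fun x hx => hX x (Multiset.mem_of_le h2 hx)
  have h4 : A.sum ≤ 130 := sum_le_of_le h1
  rw [Multiset.sum_add] at h
  rwa [zero_of_sum (fun x hx => (GS_pos x (Multiset.mem_of_le h1 hx)).1) (by omega : A.sum = 0),
    zero_add]

theorem single_small : ∀ A ∈ (GS : Multiset ℕ).powerset, ∀ x ∈ [3, 19, 7, 55],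
    A.sum = x → A = {x} := by
  decide +kernel

theorem sm_mem (t : Bool) : ∀ x ∈ sm t, x ∈ [3, 19, 7, 55] := by cases t <;> decide

theorem single_sm (hX : ∀ x ∈ X, 0 < x ∧ 131 ∣ x) {F : Multiset ℕ} (hF : F ≤ GS + X)
    (h : F.sum ∈ [3, 19, 7, 55]) : F = {F.sum} :=
  single_small F (Multiset.mem_powerset.2 (le_GS hX hF (by
    simp only [List.mem_cons, List.not_mem_nil, or_false] at h
    omega))) _ h rfl

theorem pure_le (hX : ∀ x ∈ X, 0 < x ∧ 131 ∣ x) {t : Bool} {Q : Multiset (Multiset ℕ)}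
    {V : Fin (HL R₁ R₂).length → Multiset ℕ}
    (a : NPk (GS + X) {9, 57} (hf (HL R₁ R₂) t) Q V) :
    ∀ F ∈ Q, F ∈ (sr t).powerset ∧ F.sum ∈ [9, 57] := by
  intro F hF
  have h1 : F.sum ∈ ({9, 57} : Multiset ℕ) := a.2.1 ▸ Multiset.mem_map_of_mem _ hF
  refine ⟨Multiset.mem_powerset.2 ?_, h1⟩
  obtain ⟨k, e⟩ := map_HL (R₁ := R₁) (R₂ := R₂) t
  have h2 : (univ.val.map V).map Multiset.sum = _ := (Multiset.map_map _ _ _).trans
    ((Multiset.map_congr rfl fun j _ => a.2.2 j).trans e)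
  obtain ⟨P₁, P₂, e1, e2, -⟩ := split_map _ h2
  have h3 : P₁.sum = sm t := by
    rw [← e2, ← Multiset.sum_map_singleton (P₁.map _), Multiset.map_map]
    refine congrArg _ ((Multiset.map_id _).symm.trans (Multiset.map_congr rfl fun A hA => ?_))
    obtain ⟨j, -, rfl⟩ := Multiset.mem_map.1 (e1 ▸ Multiset.mem_add.2 (Or.inl hA))
    exact single_sm hX (a.le.2 j) (sm_mem t _ (e2 ▸ Multiset.mem_map_of_mem _ hA))
  have h4 : F + sm t ≤ sr t + X + sm t := by
    rw [add_right_comm, ← GS_eq, ← a.1, Finset.sum_eq_multiset_sum, e1, Multiset.sum_add, h3]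
    exact add_le_add (le_sum_of_mem' hF) (Multiset.le_add_right _ _)
  refine le_of_small (le_of_add_le_add_right h4) (big_of hX) fun x hx => ?_
  have := Multiset.le_sum_of_mem hx
  simp only [Multiset.insert_eq_cons, Multiset.mem_cons, Multiset.mem_singleton] at h1
  omega

theorem home_le (hX : ∀ x ∈ X, 0 < x ∧ 131 ∣ x) (hR : ∀ x ∈ R₁ ++ R₂, 131 ∣ x) {t : Bool}
    {Q : Multiset (Multiset ℕ)} {V : Fin (HL R₁ R₂).length → Multiset ℕ}
    (a : NPk (GS + X) {9, 57} (hf (HL R₁ R₂) t) Q V) (j : Fin (HL R₁ R₂).length) :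
    (V j ≤ X ∧ (V j).sum ∈ (if t = true then R₁ else R₂)) ∨ V j = 0 ∨
      ∃ x ∈ sm t, V j = {x} := by
  obtain ⟨k, e⟩ := map_HL (R₁ := R₁) (R₂ := R₂) t
  have h1 := e ▸ Multiset.mem_map_of_mem (hf (HL R₁ R₂) t) (mem_univ j)
  rw [← a.2.2 j, Multiset.mem_add, Multiset.mem_add] at h1
  rcases h1 with c | c | c
  · exact Or.inr (Or.inr ⟨_, c, single_sm hX (a.le.2 j) (sm_mem t _ c)⟩)
  · refine Or.inr (Or.inl (zero_of_sum (fun x hx => ?_) (Multiset.eq_of_mem_replicate c)))
    rcases Multiset.mem_add.1 (Multiset.mem_of_le (a.le.2 j) hx) with d | d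
    exacts [(GS_pos x d).1, (hX x d).1]
  · refine Or.inl ⟨le_X (fun x hx => (hX x hx).2) (a.le.2 j) (hR _ ?_), c⟩
    cases t
    exacts [List.mem_append_right _ c, List.mem_append_left _ c]

theorem refines_zeros (k : ℕ) : Refines 0 (Multiset.replicate k 0) :=
  ⟨Multiset.replicate k 0, by simp, by simp⟩

theorem main_iff (hX : ∀ x ∈ X, 0 < x ∧ 131 ∣ x) (t : Bool) :
    Refines (GS + X) ({9, 57} + univ.val.map (hf (HL R₁ R₂) t)) ↔
      Refines X (if t = true then R₁ else R₂ : List ℕ) := by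
  obtain ⟨k, e⟩ := map_HL (R₁ := R₁) (R₂ := R₂) t
  rw [e, ← add_assoc, ← add_assoc]
  constructor
  · intro a
    obtain ⟨a1, a2, e1, b1, b2⟩ := refines_add a
    have h1 : a1.sum = 130 := by
      rw [b1.sum_eq]
      cases t <;> simp [sm]
    obtain ⟨C, e2⟩ := Multiset.le_iff_exists_add.1
      (le_GS hX (e1 ▸ Multiset.le_add_right a1 a2) (by omega))
    have h2 := congrArg Multiset.sum e2
    rw [Multiset.sum_add, h1, show (GS : Multiset ℕ).sum = 130 from rfl] at h2
    rw [zero_of_sum (A := C) (fun x hx => (GS_pos x (e2 ▸ Multiset.mem_add.2 (Or.inr hx))).1)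
      (by omega), add_zero] at e2
    rw [e2, add_right_inj] at e1
    exact e1 ▸ b2
  · intro a
    refine Refines.add ?_ a
    rw [← add_zero (GS : Multiset ℕ), GS_eq t]
    refine Refines.add (Refines.add ?_ (Refines.refl _)) (refines_zeros k)
    cases t
    · exact ⟨{{2, 7}, {19, 19, 19}}, by decide, by decide⟩
    · exact ⟨{{3, 3, 3}, {2, 55}}, by decide, by decide⟩

theorem apex_fin1 : ∀ F ∈ (sr true).powerset, F.sum ∈ [9, 57] → ∀ F' ∈ (sr false).powerset,
    F.sum = F'.sum → ∀ A ∈ F.powerset, ∀ A' ∈ F'.powerset, A.sum = A'.sum →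
      A.sum = 0 ∨ A.sum = F.sum := by
  decide +kernel

theorem apex_fin2 (t : Bool) : ∀ F ∈ (sr t).powerset, F.sum ∈ [9, 57] →
    (if t = true then 3 else 19) ∈ F → F = Multiset.replicate 3 (if t = true then 3 else 19) := by
  cases t <;> decide +kernel

theorem sum_hf (t : Bool) :
    ∑ j, hf (HL R₁ R₂) t j = 64 + (if t = true then R₁ else R₂).sum := by
  obtain ⟨k, e⟩ := map_HL (R₁ := R₁) (R₂ := R₂) t
  rw [Finset.sum_eq_multiset_sum, e]
  cases t <;> simp [sm] <;> omega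

theorem apex_chH (hX : ∀ x ∈ X, 0 < x ∧ 131 ∣ x) (hR : ∀ x ∈ R₁ ++ R₂, 131 ∣ x)
    (s1 : R₁.sum = X.sum) (s2 : R₂.sum = X.sum) (hS : X.sum ≤ S)
    (hE : Refines X R₁ → ∀ F ≤ X, ∀ F' ≤ X, F.sum ∈ R₁ → F'.sum ∈ R₂ → ∀ A, A ≤ F → A ≤ F' →
      A.card ≤ 1) :
    ChH (GS + X) {9, 57} (hf (HL R₁ R₂)) (fun t => if t = true then 3 else 19)
      (bB S (HL R₁ R₂).length) := by
  have g : (GS + X : Multiset ℕ).sum = 130 + X.sum := Multiset.sum_add _ _
  have dis : ∀ {t} {A F : Multiset ℕ}, F ∈ (sr t).powerset → A ≤ F → A ≤ X → A.card ≤ 1 :=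
    fun {t A F} a b c => by
      rw [Multiset.eq_zero_of_forall_notMem (s := A) fun x hx => ?_]
      · simp
      · have := big_of hX x (Multiset.mem_of_le c hx)
        have := (GS_pos x (GS_eq t ▸ Multiset.mem_add.2 (Or.inl (Multiset.mem_of_le
          (b.trans (Multiset.mem_powerset.1 a)) hx)))).2
        omega
  refine ⟨by simp [HL], by unfold bB; omega, by unfold bB; omega, fun t => ?_, fun x hx => ?_,
    fun j => ?_, fun Q V Q' V' a a' F hF F' hF' A b b' => ?_,
    fun Q V Q' V' a a' F hF F' hF' e A b A' b' => ?_, fun t Q V a => ⟨fun F hF => ?_, fun j => ?_⟩,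
    fun t => ?_, fun t A hA e => ?_, fun t => by cases t <;> decide⟩
  · rw [sum_hf, g]
    cases t <;> simp [s1, s2] <;> omega
  · rcases Multiset.mem_add.1 hx with d | d
    exacts [(GS_pos x d).1, (hX x d).1]
  · have : ∀ x ∈ HL R₁ R₂, x.1 = 0 ∨ x.2 = 0 := by
      simp only [HL, List.mem_append, List.mem_map]
      rintro x (⟨y, -, rfl⟩ | ⟨y, -, rfl⟩ | c)
      · exact Or.inr rfl
      · exact Or.inl rfl
      · revert x
        decide
    simpa [hf] using this _ (List.getElem_mem j.2)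
  · rcases Multiset.mem_add.1 hF with c | c <;> rcases Multiset.mem_add.1 hF' with c' | c'
    · have := Multiset.le_inter (b.trans (Multiset.mem_powerset.1 (pure_le hX a F c).1))
        (b'.trans (Multiset.mem_powerset.1 (pure_le hX a' F' c').1))
      exact (Multiset.card_le_card this).trans (by decide)
    · obtain ⟨j, -, rfl⟩ := Multiset.mem_map.1 c'
      rcases home_le hX hR a' j with d | d | ⟨x, -, d⟩
      · exact dis (pure_le hX a F c).1 b (b'.trans d.1)
      · exact (Multiset.card_le_card (d ▸ b')).trans zero_le_one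
      · exact Multiset.card_le_card (d ▸ b')
    · obtain ⟨j, -, rfl⟩ := Multiset.mem_map.1 c
      rcases home_le hX hR a j with d | d | ⟨x, -, d⟩
      · exact dis (pure_le hX a' F' c').1 b' (b.trans d.1)
      · exact (Multiset.card_le_card (d ▸ b)).trans zero_le_one
      · exact Multiset.card_le_card (d ▸ b)
    · obtain ⟨j, -, rfl⟩ := Multiset.mem_map.1 c
      obtain ⟨j', -, rfl⟩ := Multiset.mem_map.1 c'
      rcases home_le hX hR a j with d | d | ⟨x, -, d⟩
      · rcases home_le hX hR a' j' with d' | d' | ⟨x, -, d'⟩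
        · exact hE ((main_iff hX true).1 (refines_iff.2 ⟨Q, V, a⟩)) _ d.1 _ d'.1 d.2 d'.2 A b b'
        · exact (Multiset.card_le_card (d' ▸ b')).trans zero_le_one
        · exact Multiset.card_le_card (d' ▸ b')
      · exact (Multiset.card_le_card (d ▸ b)).trans zero_le_one
      · exact Multiset.card_le_card (d ▸ b)
  · exact apex_fin1 F (pure_le hX a F hF).1 (pure_le hX a F hF).2 F' (pure_le hX a' F' hF').1 e A
      (Multiset.mem_powerset.2 b) A' (Multiset.mem_powerset.2 b')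
  · exact apex_fin2 t F (pure_le hX a F hF).1 (pure_le hX a F hF).2
  · intro c
    rcases home_le hX hR a j with d | d | ⟨x, d, d'⟩
    · have := big_of hX _ (Multiset.mem_of_le d.1 c)
      split_ifs at this <;> omega
    · exact Multiset.notMem_zero _ (d ▸ c)
    · rw [d', Multiset.mem_singleton] at c
      subst c
      revert d
      cases t <;> decide
  · rw [Multiset.count_add, (Multiset.count_eq_zero (s := X)).2 fun c => by
      have := big_of hX _ c
      split_ifs at this <;> omega]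
    cases t <;> decide
  · have := single_sm hX hA (by rw [e]; cases t <;> decide)
    rwa [e] at this

theorem fix_eq : (fixL S R₁ R₂ : Multiset ℕ) + X =
    GS + X + univ.val.map (csz (bB S (HL R₁ R₂).length) (hf (HL R₁ R₂))) := by
  rw [fixL, ← Multiset.coe_add, chainL_eq, add_right_comm]

theorem top_eq : (topL S R₁ R₂ : Multiset ℕ) =
    {9, 57} + univ.val.map (ctg (bB S (HL R₁ R₂).length) (hf (HL R₁ R₂))) := by
  rw [topL, ← Multiset.coe_add, homeL_eq]
  rfl

theorem top_sum (s : R₁.sum = R₂.sum) :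
    (topL S R₁ R₂).sum = (fixL S R₁ R₂).sum + R₁.sum := by
  have h1 := congrArg Multiset.sum (top_eq (S := S) (R₁ := R₁) (R₂ := R₂))
  have h2 := congrArg Multiset.sum (fix_eq (S := S) (R₁ := R₁) (R₂ := R₂) (X := 0))
  have h3 := sum_hf (R₁ := R₁) (R₂ := R₂) true
  rw [Multiset.sum_add, ← Finset.sum_eq_multiset_sum, sum_congr rfl fun b _ =>
    ctg_eq (by rw [sum_hf, sum_hf]; simp [s]) true b, sum_add_distrib, Multiset.sum_coe] at h1
  rw [add_zero, add_zero, Multiset.sum_add, ← sum_all true, map_sum', Multiset.sum_sum,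
    Multiset.sum_coe, show (GS : Multiset ℕ).sum = 130 from rfl] at h2
  simp [Fintype.sum_sum_type] at h1 h2 h3
  omega

open Classical in
theorem apex_mu (hX : ∀ x ∈ X, 0 < x ∧ 131 ∣ x) (hR : ∀ x ∈ R₁ ++ R₂, 131 ∣ x)
    (s : R₁.sum = R₂.sum) (hS : X.sum ≤ S)
    (hE : Refines X R₁ → ∀ F ≤ X, ∀ F' ≤ X, F.sum ∈ R₁ → F'.sum ∈ R₂ → ∀ A, A ≤ F → A ≤ F' →
      A.card ≤ 1)
    {n : ℕ} {μ : n.Partition → n.Partition → ℤ} (hμ : IsMobius μ) {y r : n.Partition}
    (hy : y.parts = fixL S R₁ R₂ + X) (hr : r.parts = topL S R₁ R₂)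
    (hyr : Refines y.parts r.parts) :
    μ y r = if Refines X R₁ ∧ Refines X R₂ then 1 else 0 := by
  have s1 : R₁.sum = X.sum := by
    have := hyr.sum_eq
    rw [hy, hr, Multiset.sum_add, Multiset.sum_coe, Multiset.sum_coe, top_sum s] at this
    omega
  rw [chain_mu (apex_chH hX hR s1 (s ▸ s1) hS hE) hμ (hy.trans fix_eq) (hr.trans top_eq) hyr]
  refine if_congr ?_ rfl rfl
  simp only [main_iff hX, Bool.forall_bool, and_comm]
  rfl

theorem apex_ref (hX : ∀ x ∈ X, 0 < x ∧ 131 ∣ x) (hR : ∀ x ∈ R₁ ++ R₂, 131 ∣ x)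
    (s : R₁.sum = R₂.sum) (hS : X.sum ≤ S)
    (hE : ∀ F ≤ X, ∀ F' ≤ X, F.sum ∈ R₁ → F'.sum ∈ R₂ → ∀ A, A ≤ F → A ≤ F' → A.card ≤ 1)
    (a : Refines X R₂) : Refines (fixL S R₁ R₂ + X) (topL S R₁ R₂) := by
  have s2 : R₂.sum = X.sum := a.sum_eq.symm
  rw [fix_eq, top_eq]
  exact (apex_chH hX hR (s.trans s2) s2 hS fun _ => hE).refines ((main_iff hX false).2 a)

theorem apex_abs (hX : ∀ x ∈ X, 131 ∣ x) {W : Multiset ℕ} (hW : W ≤ fixL S R₁ R₂ + X)
    (h1 : 131 ∣ W.sum) (h2 : W.sum ≤ S) : W ≤ X := by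
  rw [fix_eq] at hW
  refine le_X hX (le_of_small hW (B := bB S (HL R₁ R₂).length) (fun x hx => ?_) fun x hx => ?_) h1
  · obtain ⟨τ, -, rfl⟩ := Multiset.mem_map.1 hx
    exact le_csz τ (Nat.succ_pos _)
  · have := Multiset.le_sum_of_mem hx
    unfold bB
    omega

theorem fix_pos : ∀ x ∈ fixL S R₁ R₂, 0 < x := by
  intro x hx
  have h : x ∈ (fixL S R₁ R₂ : Multiset ℕ) + 0 := by simpa using hx
  rw [fix_eq, add_zero] at h
  rcases Multiset.mem_add.1 h with c | c
  · exact (GS_pos x c).1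
  · obtain ⟨τ, -, rfl⟩ := Multiset.mem_map.1 c
    exact (Nat.succ_pos _).trans_le (le_csz τ (Nat.succ_pos _))

theorem top_pos : ∀ x ∈ topL S R₁ R₂, 0 < x := by
  have h : 0 < bB S (HL R₁ R₂).length := Nat.succ_pos _
  simp only [topL, homeL, hi, List.mem_append, List.mem_map, List.mem_cons, List.not_mem_nil,
    or_false]
  rintro x ((rfl | rfl) | ⟨j, -, rfl⟩ | rfl | rfl) <;> positivity

end Pool.Agent.Work.MP_84e666_co.NP
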