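import Pool.Agent.Work.MP_84e666_co.H45Marked
import Pool.Agent.Work.MP_84e666_co.H45Words

-- merged part: Pool.Agent.Work.MP_84e666_co.N.Two
section
/-! An interval that is the union of two transversal contractible families of packings. -/

namespace Pool.Agent.Work.MP_84e666_co.NP

open Multiset

/-- `P` is a packing of `Y` into `R`. -/
def Pk (Y R : Multiset ℕ) (P : Multiset (Multiset ℕ)) : Prop := P.sum = Y ∧ P.map sum = R

/-- Two transversal types of packings, each with a block of three equal parts. -/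
structure TwoT (Y R : Multiset ℕ) (Ty : Bool → Multiset (Multiset ℕ) → Prop) (p : Bool → ℕ) :
    Prop where
  cover : ∀ P, Pk Y R P → Ty true P ∨ Ty false P
  pair : ∀ P P', Pk Y R P → Pk Y R P' → Ty true P → Ty false P' → ∀ F ∈ P, ∀ F' ∈ P',
    ∀ A, A ≤ F → A ≤ F' → card A ≤ 1
  part : ∀ P P', Pk Y R P → Pk Y R P' → Ty true P → Ty false P' → ∀ F ∈ P, ∀ F' ∈ P',
    F.sum = F'.sum → ∀ A ≤ F, ∀ A' ≤ F', A.sum = A'.sum → A.sum = 0 ∨ A.sum = F.sum
  apex : ∀ t P, Pk Y R P → Ty t P → ∀ F ∈ P, p t ∈ F → F = replicate 3 (p t)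
  cnt : ∀ t, count (p t) Y = 3
  small : ∀ t, ∀ A ≤ Y, A.sum = p t → A = {p t}
  top : ∀ t, count (3 * p t) R ≤ 1

theorem lift_le {α β : Type} (f : α → β) {s : Multiset α} {a : Multiset β} (h : a ≤ s.map f) :
    ∃ a' ≤ s, a'.map f = a := by
  classical
  induction a using Multiset.induction_on generalizing s with
  | empty => exact ⟨0, Multiset.zero_le _, rfl⟩
  | cons x a ih =>
    obtain ⟨y, hy, rfl⟩ := mem_map.1 (mem_of_le h (mem_cons_self x a))
    obtain ⟨s, rfl⟩ := exists_cons_of_mem hy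
    rw [map_cons, cons_le_cons_iff] at h
    obtain ⟨a', h1, rfl⟩ := ih h
    exact ⟨y ::ₘ a', cons_le_cons _ h1, map_cons _ _ _⟩

theorem lift_sum {α β : Type} (f : α → β) {s : Multiset α} {P : Multiset (Multiset β)}
    (h : P.sum = s.map f) : ∃ G : Multiset (Multiset α), G.sum = s ∧ G.map (map f) = P := by
  induction P using Multiset.induction_on generalizing s with
  | empty => exact ⟨0, (map_eq_zero.1 h.symm).symm, rfl⟩
  | cons F P ih =>
    rw [sum_cons] at h
    obtain ⟨a, h1, rfl⟩ := lift_le f (h ▸ le_add_right F P.sum)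
    obtain ⟨s, rfl⟩ := Multiset.le_iff_exists_add.1 h1
    rw [Multiset.map_add, add_right_inj] at h
    obtain ⟨G, rfl, rfl⟩ := ih h
    exact ⟨a ::ₘ G, sum_cons _ _, map_cons _ _ _⟩

theorem sum_sum (G : Multiset (Multiset ℕ)) : G.sum.sum = (G.map sum).sum := by
  induction G using Multiset.induction_on with
  | empty => rfl
  | cons a G ih => simp [ih]

theorem le_sum_of_mem' {α : Type} {F : Multiset α} {P : Multiset (Multiset α)} (h : F ∈ P) :
    F ≤ P.sum := by
  obtain ⟨P, rfl⟩ := exists_cons_of_mem h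
  rw [sum_cons]
  exact le_add_right _ _

theorem sum_le_sum' {α : Type} {P Q : Multiset (Multiset α)} (h : P ≤ Q) : P.sum ≤ Q.sum := by
  obtain ⟨R, rfl⟩ := Multiset.le_iff_exists_add.1 h
  rw [sum_add]
  exact le_add_right _ _

/-- Every block of `σ` lies in a block of `P`. -/
def Sub (σ P : Multiset (Multiset ℕ)) : Prop := ∀ A ∈ σ, ∃ F ∈ P, A ≤ F

/-- The blocks of `ρ` and their subsums come from blocks of `P`. -/
def Over (ρ P : Multiset (Multiset ℕ)) : Prop :=
  ∀ G ∈ ρ, ∃ F ∈ P, F.sum = G.sum ∧ ∀ A ≤ G, ∃ A' ≤ F, A'.sum = A.sum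

theorem Over.trans {ρ P Q : Multiset (Multiset ℕ)} (h : Over ρ P) (h' : Over P Q) : Over ρ Q := by
  intro G hG
  obtain ⟨F, hF, e, h1⟩ := h G hG
  obtain ⟨F', hF', e', h2⟩ := h' F hF
  refine ⟨F', hF', e'.trans e, fun A hA => ?_⟩
  obtain ⟨A', a1, a2⟩ := h1 A hA
  obtain ⟨A'', a3, a4⟩ := h2 A' a1
  exact ⟨A'', a3, a4.trans a2⟩

theorem comp {Y Z R : Multiset ℕ} {σ ρ : Multiset (Multiset ℕ)} (h : Pk Y Z σ) (h' : Pk Z R ρ) :
    ∃ P, Pk Y R P ∧ Sub σ P ∧ Over ρ P ∧ ∀ H ∈ ρ, ∃ L ≤ σ, L.map sum = H ∧ L.sum ∈ P := by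
  obtain ⟨rfl, rfl⟩ := h
  obtain ⟨h1, rfl⟩ := h'
  obtain ⟨G, rfl, rfl⟩ := lift_sum sum h1
  refine ⟨G.map sum, ⟨?_, ?_⟩, fun A hA => ?_, fun H hH => ?_, fun H hH => ?_⟩
  · clear h1
    induction G using Multiset.induction_on with
    | empty => rfl
    | cons a G ih => simp [ih]
  · rw [map_map, map_map]
    exact map_congr rfl fun L _ => sum_sum L
  · obtain ⟨L, hL, hA⟩ := mem_join.1 hA
    exact ⟨L.sum, mem_map_of_mem _ hL, le_sum_of_mem' hA⟩
  · obtain ⟨L, hL, rfl⟩ := mem_map.1 hH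
    refine ⟨L.sum, mem_map_of_mem _ hL, sum_sum L, fun A hA => ?_⟩
    obtain ⟨L', h2, rfl⟩ := lift_le sum hA
    exact ⟨L'.sum, sum_le_sum' h2, sum_sum L'⟩
  · obtain ⟨L, hL, rfl⟩ := mem_map.1 hH
    exact ⟨L, le_sum_of_mem' hL, rfl, mem_map_of_mem _ hL⟩

theorem exists_big {Y Z : Multiset ℕ} {σ : Multiset (Multiset ℕ)} (h : Pk Y Z σ)
    (hZ : ∀ x ∈ Z, 0 < x) (hne : Y ≠ Z) : ∃ A ∈ σ, 2 ≤ card A := by
  by_contra! h0
  obtain ⟨rfl, rfl⟩ := h
  refine hne ?_
  rw [← sum_map_singleton (σ.map sum), map_map]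
  refine congrArg _ ((map_id σ).symm.trans (map_congr rfl fun A hA => ?_))
  have h1 := hZ _ (mem_map_of_mem _ hA)
  have h2 := h0 A hA
  have h3 : card A ≠ 0 := fun e => by simp [card_eq_zero.1 e] at h1
  obtain ⟨x, rfl⟩ := card_eq_one.1 (by omega : card A = 1)
  simp

theorem weisner {n : ℕ} {μ : n.Partition → n.Partition → ℤ} (hμ : IsMobius μ) (y : n.Partition)
    (J : Finset n.Partition) (C : n.Partition → Prop) (cl : n.Partition → n.Partition)
    (h0 : ∀ z ∈ J, Refines y.parts z.parts)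
    (h1 : ∀ z ∈ J, ∀ w : n.Partition, Refines y.parts w.parts → Refines w.parts z.parts → w ∈ J)
    (h2 : ¬ C y) (h3 : ∀ z ∈ J, cl z ∈ J ∧ C (cl z) ∧ Refines z.parts (cl z).parts)
    (h4 : ∀ z ∈ J, ∀ w ∈ J, C w → Refines z.parts w.parts → Refines (cl z).parts w.parts) :
    ∑ z ∈ J, μ y z = 0 := by
  classical
  have anti : ∀ a b : n.Partition, Refines a.parts b.parts → Refines b.parts a.parts → a = b :=
    fun a b h h' => parts_inj ((h.card_le fun x hx => b.parts_pos hx).2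
      (h'.card_le fun x hx => a.parts_pos hx).1)
  have key : ∀ k, ∀ w ∈ J, C w → n - card w.parts = k →
      ∑ z ∈ J.filter (cl · = w), μ y z = 0 := by
    intro k
    induction k using Nat.strong_induction_on with
    | _ k ih =>
    intro w hw hC hk
    have hne : y ≠ w := fun e => h2 (e ▸ hC)
    have e1 : ∑ z ∈ J.filter (fun z => Refines z.parts w.parts), μ y z = 0 := by
      rw [← Finset.add_sum_erase _ _ (Finset.mem_filter.2 ⟨hw, Refines.refl _⟩),
        hμ.2 y w (h0 w hw) hne, neg_add_eq_zero]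
      refine Finset.sum_congr ?_ fun _ _ => rfl
      ext z
      simp only [Finset.mem_filter, Finset.mem_univ, true_and, Finset.mem_erase]
      exact ⟨fun ⟨a, b, c⟩ => ⟨c, h1 w hw z a b, b⟩, fun ⟨a, b, c⟩ => ⟨h0 z b, c, a⟩⟩
    rw [← Finset.sum_fiberwise_of_maps_to (g := cl)
      (t := J.filter fun v => C v ∧ Refines v.parts w.parts) (fun z hz => by
        rw [Finset.mem_filter] at hz ⊢
        exact ⟨(h3 z hz.1).1, (h3 z hz.1).2.1, h4 z hz.1 w hw hC hz.2⟩),
      Finset.sum_eq_single_of_mem w (Finset.mem_filter.2 ⟨hw, hC, Refines.refl _⟩)] at e1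
    · rw [← e1]
      refine Finset.sum_congr ?_ fun _ _ => rfl
      ext z
      simp only [Finset.mem_filter]
      exact ⟨fun ⟨a, b⟩ => ⟨⟨a, b ▸ (h3 z a).2.2⟩, b⟩, fun ⟨a, b⟩ => ⟨a.1, b⟩⟩
    · intro v hv hvw
      obtain ⟨a1, a2, a3⟩ := Finset.mem_filter.1 hv
      have c1 := a3.card_le fun x hx => w.parts_pos hx
      have c2 : card w.parts < card v.parts :=
        lt_of_not_ge fun c => hvw (parts_inj (c1.2 c))
      have c3 : card v.parts ≤ n := by
        have := card_nsmul_le_sum (s := v.parts) (a := 1) fun x hx => v.parts_pos hx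
        simpa [v.parts_sum] using this
      rw [← ih _ (by omega) v a1 a2 rfl]
      refine Finset.sum_congr ?_ fun _ _ => rfl
      ext z
      simp only [Finset.mem_filter]
      exact ⟨fun ⟨a, b⟩ => ⟨a.1, b⟩, fun ⟨a, b⟩ => ⟨⟨a, (b ▸ (h3 z a).2.2).trans a3⟩, b⟩⟩
  rw [← Finset.sum_fiberwise_of_maps_to (g := cl) (t := J.filter C) fun z hz =>
    Finset.mem_filter.2 ⟨(h3 z hz).1, (h3 z hz).2.1⟩]
  exact Finset.sum_eq_zero fun w hw =>
    key _ w (Finset.mem_filter.1 hw).1 (Finset.mem_filter.1 hw).2 rfl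

section main

variable {Y R Z : Multiset ℕ} {Ty : Bool → Multiset (Multiset ℕ) → Prop} {p : Bool → ℕ}
  {σ ρ P P' : Multiset (Multiset ℕ)} {t t' : Bool}

theorem TwoT.any (h : TwoT Y R Ty p) (hP : Pk Y R P) : ∃ t, Ty t P :=
  (h.cover P hP).elim (fun a => ⟨_, a⟩) fun a => ⟨_, a⟩

theorem TwoT.excl_over (h : TwoT Y R Ty p) (hZ : ∀ x ∈ Z, 0 < x) (hR : ∀ x ∈ R, 0 < x)
    (hne : Z ≠ R) (hρ : Pk Z R ρ) (hP : Pk Y R P) (hP' : Pk Y R P') (a : Ty t P) (a' : Ty t' P')
    (o : Over ρ P) (o' : Over ρ P') : t = t' := by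
  obtain ⟨G, hG, hc⟩ := exists_big hρ hR hne
  obtain ⟨x, hx⟩ := card_pos_iff_exists_mem.1 (by omega : 0 < card G)
  obtain ⟨G', rfl⟩ := exists_cons_of_mem hx
  obtain ⟨x', hx'⟩ := card_pos_iff_exists_mem.1 (by rw [card_cons] at hc; omega : 0 < card G')
  have hm : ∀ u ∈ x ::ₘ G', 0 < u := fun u hu => hZ u (hρ.1 ▸ mem_of_le (le_sum_of_mem' hG) hu)
  have p1 := hm x hx
  have p2 := (hm x' (mem_cons_of_mem hx')).trans_le (single_le_sum (fun _ _ => Nat.zero_le _) _ hx')
  obtain ⟨F, hF, e, b⟩ := o _ hG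
  obtain ⟨F', hF', e', b'⟩ := o' _ hG
  obtain ⟨A, c1, c2⟩ := b {x} (singleton_le.2 hx)
  obtain ⟨A', c3, c4⟩ := b' {x} (singleton_le.2 hx)
  rw [sum_singleton] at c2 c4
  rw [sum_cons] at e e'
  cases t <;> cases t'
  · rfl
  · have := h.part P' P hP' hP a' a F' hF' F hF (e'.trans e.symm) A' c3 A c1 (c4.trans c2.symm)
    omega
  · have := h.part P P' hP hP' a a' F hF F' hF' (e.trans e'.symm) A c1 A' c3 (c2.trans c4.symm)
    omega
  · rfl

theorem TwoT.excl_sub (h : TwoT Y R Ty p) (hZ : ∀ x ∈ Z, 0 < x) (hne : Y ≠ Z) (hσ : Pk Y Z σ)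
    (hP : Pk Y R P) (hP' : Pk Y R P') (a : Ty t P) (a' : Ty t' P') (o : Sub σ P) (o' : Sub σ P') :
    t = t' := by
  obtain ⟨A, hA, hc⟩ := exists_big hσ hZ hne
  obtain ⟨F, hF, b⟩ := o _ hA
  obtain ⟨F', hF', b'⟩ := o' _ hA
  cases t <;> cases t'
  · rfl
  · have := h.pair P' P hP' hP a' a F' hF' F hF A b' b
    omega
  · have := h.pair P P' hP hP' a a' F hF F' hF' A b b'
    omega
  · rfl

/-- `Z` lies on a packing of type `t`. -/
def Wit (Y R : Multiset ℕ) (Ty : Bool → Multiset (Multiset ℕ) → Prop) (t : Bool) (Z : Multiset ℕ) :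
    Prop :=
  ∃ σ ρ P, Pk Y Z σ ∧ Pk Z R ρ ∧ Pk Y R P ∧ Ty t P ∧ Sub σ P ∧ Over ρ P

theorem TwoT.wit_eq (h : TwoT Y R Ty p) (hZ : ∀ x ∈ Z, 0 < x) (hR : ∀ x ∈ R, 0 < x) (h1 : Y ≠ Z)
    (h2 : Z ≠ R) (a : Wit Y R Ty t Z) (a' : Wit Y R Ty t' Z) : t = t' := by
  obtain ⟨σ, ρ, P, b1, -, b3, b4, b5, -⟩ := a
  obtain ⟨σ', ρ', P', -, c2, c3, c4, -, c6⟩ := a'
  obtain ⟨Q, d1, d2, d3, -⟩ := comp b1 c2
  obtain ⟨u, hu⟩ := h.any d1
  exact (h.excl_sub hZ h1 b1 b3 d1 b4 hu b5 d2).trans (h.excl_over hZ hR h2 c2 d1 c3 hu c4 d3 c6)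

theorem TwoT.wit_down (h : TwoT Y R Ty p) (hZ : ∀ x ∈ Z, 0 < x) (hR : ∀ x ∈ R, 0 < x)
    (h2 : Z ≠ R) (a : Wit Y R Ty t Z) {W : Multiset ℕ} (h3 : Refines Y W) (h4 : Refines W Z) :
    Wit Y R Ty t W := by
  obtain ⟨σ, ρ, P, -, b2, b3, b4, -, b6⟩ := a
  obtain ⟨σ', hσ'⟩ := h3
  obtain ⟨κ, hκ⟩ := h4
  obtain ⟨ρ', d1, -, d3, -⟩ := comp hκ b2
  obtain ⟨Q, e1, e2, e3, -⟩ := comp hσ' d1
  obtain ⟨u, hu⟩ := h.any e1
  obtain rfl := h.excl_over hZ hR h2 b2 e1 b3 hu b4 (d3.trans e3) b6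
  exact ⟨σ', ρ', Q, hσ', d1, e1, hu, e2, e3⟩

theorem TwoT.not_mem (h : TwoT Y R Ty p) (hP : Pk Y R P) (a : Ty t P) : p t ∉ R := by
  intro hp
  obtain ⟨F, hF, e⟩ := mem_map.1 (hP.2 ▸ hp)
  have h1 := h.small t F (hP.1 ▸ le_sum_of_mem' hF) e
  have h2 := congrArg card (h.apex t P hP a F hF (h1 ▸ mem_singleton_self _))
  simp [h1] at h2

theorem two_le {a : ℕ} {H : Multiset ℕ} (h : 2 ≤ count a H) : ∃ H', H = a ::ₘ a ::ₘ H' := by
  obtain ⟨H', e⟩ := Multiset.le_iff_exists_add.1 (le_count_iff_replicate_le.1 h)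
  exact ⟨H', by rw [e]; simp⟩

theorem merge_two {a : ℕ} {Z W H : Multiset ℕ} {κ : Multiset (Multiset ℕ)}
    (hκ : Pk (a ::ₘ a ::ₘ Z) W κ) (hH : H ∈ κ) (h : 2 ≤ count a H) :
    ∃ H' κ', H = a ::ₘ a ::ₘ H' ∧ Pk ((2 * a) ::ₘ Z) W (((2 * a) ::ₘ H') ::ₘ κ') := by
  obtain ⟨H', rfl⟩ := two_le h
  obtain ⟨κ', rfl⟩ := exists_cons_of_mem hH
  obtain ⟨h1, rfl⟩ := hκ
  rw [sum_cons, cons_add, cons_add, cons_inj_right, cons_inj_right] at h1
  refine ⟨H', κ', rfl, by rw [sum_cons, cons_add, h1], ?_⟩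
  simp only [map_cons, sum_cons, two_mul, add_assoc]

theorem TwoT.wit_up (h : TwoT Y R Ty p) (hZ : ∀ x ∈ p t ::ₘ p t ::ₘ Z, 0 < x)
    (a : Wit Y R Ty t (p t ::ₘ p t ::ₘ Z)) (hp : p t ∈ Z) :
    (2 * p t) ::ₘ Z ≠ R ∧ Wit Y R Ty t ((2 * p t) ::ₘ Z) := by
  obtain ⟨σ, ρ, P, b1, b2, b3, b4, -, b6⟩ := a
  refine ⟨fun e => h.not_mem b3 b4 (e ▸ mem_cons_of_mem hp), ?_⟩
  have p0 := hZ _ (mem_cons_self _ _)
  have k1 : ∀ G ∈ ρ, p t ∈ G → G.sum = 3 * p t := fun G hG hp => by
    obtain ⟨F, hF, e, b⟩ := b6 G hG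
    obtain ⟨A, c1, c2⟩ := b {p t} (singleton_le.2 hp)
    have c3 := h.small t A (c1.trans (b3.1 ▸ le_sum_of_mem' hF)) (c2.trans (sum_singleton _))
    rw [← e, h.apex t P b3 b4 F hF (mem_of_le c1 (c3 ▸ mem_singleton_self _))]
    exact sum_replicate _ _
  obtain ⟨G, hG, hpG⟩ := mem_join.1 (show p t ∈ ρ.sum from b2.1 ▸ mem_cons_self _ _)
  have k2 : 3 ≤ count (p t) G := by
    obtain ⟨ρ', rfl⟩ := exists_cons_of_mem hG
    have c1 : p t ∉ ρ'.sum := fun c => by
      obtain ⟨G', hG', c⟩ := mem_join.1 c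
      have c2 := h.top t
      rw [← b2.2, map_cons, k1 G hG hpG, count_cons_self] at c2
      have c3 := count_pos.2 (k1 G' (mem_cons_of_mem hG') c ▸ mem_map_of_mem sum hG')
      omega
    have c2 := congrArg (count (p t)) b2.1
    rw [sum_cons, count_add, count_eq_zero.2 c1, count_cons_self, count_cons_self] at c2
    have := count_pos.2 hp
    omega
  obtain ⟨G', ρ', e, c1⟩ := merge_two b2 hG (by omega)
  have c2 : Refines Y ((2 * p t) ::ₘ Z) := Refines.trans ⟨σ, b1⟩
    (refines_cons.2 ⟨{p t, p t}, Z, by simp, by simp [two_mul], Refines.refl _⟩)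
  obtain ⟨σ', c2⟩ := c2
  obtain ⟨Q, d1, d2, d3, -⟩ := comp c2 c1
  obtain ⟨u, hu⟩ := h.any d1
  have k3 : p t ∈ G' := by
    rw [e, count_cons_self, count_cons_self] at k2
    exact count_pos.1 (by omega)
  obtain ⟨F', hF', f1, f2⟩ := d3 _ (mem_cons_self _ _)
  obtain ⟨A', f3, f4⟩ := f2 {p t} (singleton_le.2 (mem_cons_of_mem k3))
  have f5 : F'.sum = 3 * p t := by
    rw [f1, ← k1 G hG hpG, e]
    simp only [sum_cons, two_mul, add_assoc]
  obtain ⟨F, hF, hpF⟩ := mem_join.1 (show p t ∈ P.sum from b3.1 ▸ count_pos.1 (by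
    rw [h.cnt]
    omega))
  have f6 : F.sum = 3 * p t := by
    rw [h.apex t P b3 b4 F hF hpF]
    exact sum_replicate _ _
  rw [sum_singleton] at f4
  obtain rfl : u = t := by
    cases t <;> cases u
    · rfl
    · have := h.part Q P d1 b3 hu b4 F' hF' F hF (f5.trans f6.symm) A' f3 _ (singleton_le.2 hpF)
        (f4.trans (sum_singleton _).symm)
      omega
    · have := h.part P Q b3 d1 b4 hu F hF F' hF' (f6.trans f5.symm) _ (singleton_le.2 hpF) A' f3
        ((sum_singleton _).trans f4.symm)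
      rw [sum_singleton] at this
      omega
    · rfl
  exact ⟨σ', _, Q, c2, c1, d1, hu, d2, d3⟩

theorem count_blocks (a : ℕ) (κ : Multiset (Multiset ℕ)) :
    count {a} κ ≤ count a κ.sum ∧ count {a} κ ≤ count a (κ.map sum) ∧
      ((∀ H ∈ κ, a ∈ H → H = {a}) → count a κ.sum ≤ count {a} κ) ∧
      ((∀ H ∈ κ, H.sum = a → H = {a}) → count a (κ.map sum) ≤ count {a} κ) ∧
      (count a κ.sum ≤ count {a} κ → ∀ H ∈ κ, a ∈ H → H = {a}) := by
  induction κ using Multiset.induction_on with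
  | empty => simp
  | cons H κ ih =>
    obtain ⟨i1, i2, i3, i4, i5⟩ := ih
    simp only [sum_cons, map_cons, count_add, forall_mem_cons]
    by_cases e : H = {a}
    · subst e
      simp only [count_cons_self, sum_singleton, count_singleton_self]
      exact ⟨by omega, by omega, fun c => by have := i3 c.2; omega,
        fun c => by have := i4 c.2; omega, fun c => ⟨fun _ => trivial, i5 (by omega)⟩⟩
    · rw [count_cons_of_ne (Ne.symm e)]
      refine ⟨by omega, i2.trans (count_le_count_cons _ _ _), fun c => ?_, fun c => ?_,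
        fun c => ⟨fun d => ?_, i5 (by omega)⟩⟩
      · rw [count_eq_zero.2 fun d => e (c.1 d), zero_add]
        exact i3 c.2
      · rw [count_cons_of_ne fun d => e (c.1 d.symm)]
        exact i4 c.2
      · have := count_pos.2 d
        omega

theorem TwoT.wit_cl (h : TwoT Y R Ty p) (hZ : ∀ x ∈ p t ::ₘ p t ::ₘ Z, 0 < x)
    (hR : ∀ x ∈ R, 0 < x) (h1 : Refines Y (p t ::ₘ p t ::ₘ Z)) (hp : p t ∈ Z) {W : Multiset ℕ}
    (hW : ∀ x ∈ W, 0 < x) (hWR : W ≠ R) (a : Wit Y R Ty t W) (hc : count (p t) W < 3)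
    (h2 : Refines (p t ::ₘ p t ::ₘ Z) W) : Refines ((2 * p t) ::ₘ Z) W := by
  obtain ⟨σ, hσ⟩ := h1
  obtain ⟨κ, hκ⟩ := h2
  replace hσ : Pk _ _ σ := hσ
  replace hκ : Pk _ _ κ := hκ
  have c0 : 3 ≤ count (p t) (p t ::ₘ p t ::ₘ Z) := by
    have := count_pos.2 hp
    rw [count_cons_self, count_cons_self]
    omega
  obtain ⟨H, hH, hpH, hne⟩ : ∃ H ∈ κ, p t ∈ H ∧ H ≠ {p t} := by
    by_contra! c
    obtain ⟨-, i2, i3, -⟩ := count_blocks (p t) κ
    have := i3 c
    rw [hκ.1] at this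
    rw [hκ.2] at i2
    omega
  have k1 : ∀ A ∈ σ, p t ∈ A → A = {p t} := by
    obtain ⟨-, -, -, i4, i5⟩ := count_blocks (p t) σ
    have := i4 fun A hA => h.small t A (hσ.1 ▸ le_sum_of_mem' hA)
    rw [hσ.2] at this
    exact i5 (by rw [hσ.1, h.cnt]; omega)
  obtain ⟨σ', d1, -, -, d4⟩ := comp hσ hκ
  obtain ⟨L, l1, l2, l3⟩ := d4 H hH
  obtain ⟨σ₀, ρ, P, -, b2, b3, b4, -, b6⟩ := a
  obtain ⟨Q, e1, e2, e3, -⟩ := comp d1 b2
  obtain ⟨u, hu⟩ := h.any e1
  obtain rfl := h.excl_over hW hR hWR b2 e1 b3 hu b4 e3 b6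
  obtain ⟨F, hF, f1⟩ := e2 _ l3
  obtain ⟨A, hA, f2⟩ := mem_map.1 (l2 ▸ hpH)
  have f3 := h.small u A (hσ.1 ▸ le_sum_of_mem' (mem_of_le l1 hA)) f2
  have f4 := h.apex u Q e1 hu F hF
    (mem_of_le ((le_sum_of_mem' hA).trans f1) (f3 ▸ mem_singleton_self _))
  have k2 : ∀ x ∈ H, x = p u := fun x hx => by
    obtain ⟨A', hA', rfl⟩ := mem_map.1 (l2 ▸ hx)
    have g1 := hZ _ (hκ.1 ▸ mem_of_le (le_sum_of_mem' hH) hx)
    obtain ⟨v, hv⟩ := exists_mem_of_ne_zero (show A' ≠ 0 from fun e => by simp [e] at g1)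
    have g2 := eq_of_mem_replicate (f4 ▸ mem_of_le ((le_sum_of_mem' hA').trans f1) hv)
    rw [k1 A' (mem_of_le l1 hA') (g2 ▸ hv), sum_singleton]
  obtain ⟨H', κ', -, c⟩ := merge_two hκ hH (by
    rw [count_eq_card.2 fun x hx => (k2 x hx).symm]
    by_contra c
    obtain ⟨x, rfl⟩ := card_eq_one.1 (by have := card_pos_iff_exists_mem.2 ⟨_, hpH⟩; omega :
      card H = 1)
    exact hne (by rw [k2 x (mem_singleton_self x)]))
  exact ⟨_, c⟩

end main

open Classical in
theorem two_type {n : ℕ} {μ : n.Partition → n.Partition → ℤ} (hμ : IsMobius μ)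
    {y r : n.Partition} {Ty : Bool → Multiset (Multiset ℕ) → Prop} {p : Bool → ℕ}
    (h : TwoT y.parts r.parts Ty p) (hyr : Refines y.parts r.parts) :
    μ y r = if ∀ t, ∃ P, Pk y.parts r.parts P ∧ Ty t P then 1 else 0 := by
  have hne : y ≠ r := fun e => by
    obtain ⟨P, hP⟩ := hyr
    obtain ⟨t, ht⟩ := h.any hP
    exact h.not_mem hP ht (e ▸ count_pos.1 (by rw [h.cnt]; omega))
  let J : Bool → Finset n.Partition := fun t => Finset.univ.filter fun z =>
    z ≠ r ∧ Wit y.parts r.parts Ty t z.parts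
  have hJ : ∀ t z, z ∈ J t ↔ z ≠ r ∧ Wit y.parts r.parts Ty t z.parts := fun t z => by
    simp only [J, Finset.mem_filter, Finset.mem_univ, true_and]
  have ne' : ∀ {a b : n.Partition}, a ≠ b → a.parts ≠ b.parts := fun c e => c (parts_inj e)
  have h0 : ∀ t, ∑ z ∈ J t, μ y z = 0 := fun t => by
    have ex : ∀ z : n.Partition, ∃ w : n.Partition, (count (p t) z.parts < 3 → w = z) ∧
        (3 ≤ count (p t) z.parts → ∃ Z, p t ∈ Z ∧ z.parts = p t ::ₘ p t ::ₘ Z ∧
          w.parts = (2 * p t) ::ₘ Z) := fun z => by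
      by_cases c : count (p t) z.parts < 3
      · exact ⟨z, fun _ => rfl, fun d => by omega⟩
      · obtain ⟨Z, e⟩ := two_le (a := p t) (H := z.parts) (by omega)
        refine ⟨⟨(2 * p t) ::ₘ Z, fun {x} hx => ?_, ?_⟩, fun d => absurd d c,
          fun _ => ⟨Z, ?_, e, rfl⟩⟩
        · rcases mem_cons.1 hx with rfl | hx
          · exact Nat.mul_pos two_pos (z.parts_pos (e ▸ mem_cons_self _ _))
          · exact z.parts_pos (e ▸ mem_cons_of_mem (mem_cons_of_mem hx))
        · rw [← z.parts_sum, e]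
          simp only [sum_cons, two_mul, add_assoc]
        · rw [e, count_cons_self, count_cons_self] at c
          exact count_pos.1 (by omega)
    choose cl c1 c2 using ex
    refine weisner hμ y (J t) (fun z => count (p t) z.parts < 3) cl (fun z hz => ?_)
      (fun z hz w a b => ?_) (by simp [h.cnt]) (fun z hz => ?_) fun z hz w hw hC hzw => ?_
    · obtain ⟨σ, -, -, a, -⟩ := ((hJ t z).1 hz).2
      exact ⟨σ, a⟩
    · obtain ⟨d1, d2⟩ := (hJ t z).1 hz
      refine (hJ t w).2 ⟨fun e => d1 ?_, h.wit_down (fun _ => z.parts_pos) (fun _ => r.parts_pos)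
        (ne' d1) d2 a b⟩
      obtain ⟨-, ρ, -, -, d3, -⟩ := d2
      subst e
      exact parts_inj ((Refines.card_le ⟨ρ, d3⟩ fun _ => w.parts_pos).2
        (b.card_le fun _ => z.parts_pos).1)
    · rcases lt_or_ge (count (p t) z.parts) 3 with c | c
      · rw [c1 z c]
        exact ⟨hz, c, Refines.refl _⟩
      · obtain ⟨Z, e1, e2, e3⟩ := c2 z c
        obtain ⟨d1, d2⟩ := (hJ t z).1 hz
        obtain ⟨d3, d4⟩ := h.wit_up (e2 ▸ fun _ => z.parts_pos) (e2 ▸ d2) e1
        refine ⟨(hJ t _).2 ⟨fun e => d3 (e3 ▸ e ▸ rfl), e3 ▸ d4⟩, ?_, ?_⟩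
        · obtain ⟨σ, -, -, a, -⟩ := d2
          obtain ⟨i1, -, -, i4, -⟩ := count_blocks (p t) σ
          have := i4 fun A hA => h.small t A (a.1 ▸ le_sum_of_mem' hA)
          have p0 := z.parts_pos (e2 ▸ mem_cons_self (p t) _)
          rw [a.1, h.cnt] at i1
          rw [a.2, e2, count_cons_self, count_cons_self] at this
          show count _ _ < 3
          rw [e3, count_cons_of_ne (by omega)]
          omega
        · rw [e2, e3]
          exact refines_cons.2 ⟨{p t, p t}, Z, by simp, by simp [two_mul], Refines.refl _⟩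
    · rcases lt_or_ge (count (p t) z.parts) 3 with c | c
      · rwa [c1 z c]
      · obtain ⟨Z, e1, e2, e3⟩ := c2 z c
        obtain ⟨σ, -, -, a, -⟩ := ((hJ t z).1 hz).2
        obtain ⟨d1, d2⟩ := (hJ t w).1 hw
        rw [e3]
        exact h.wit_cl (e2 ▸ fun _ => z.parts_pos) (fun _ => r.parts_pos) ⟨σ, e2 ▸ a⟩ e1
          (fun _ => w.parts_pos) (ne' d1) d2 hC (e2 ▸ hzw)
  have h1 : Finset.univ.filter (fun z : n.Partition => Refines y.parts z.parts ∧
      Refines z.parts r.parts ∧ z ≠ r) = J true ∪ J false := by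
    ext z
    simp only [Finset.mem_filter, Finset.mem_univ, true_and, Finset.mem_union, hJ]
    constructor
    · rintro ⟨⟨σ, a⟩, ⟨ρ, b⟩, c⟩
      obtain ⟨P, d1, d2, d3, -⟩ := comp a b
      exact (h.cover P d1).imp (fun e => ⟨c, σ, ρ, P, a, b, d1, e, d2, d3⟩)
        fun e => ⟨c, σ, ρ, P, a, b, d1, e, d2, d3⟩
    · rintro (⟨c, σ, ρ, -, a, b, -⟩ | ⟨c, σ, ρ, -, a, b, -⟩) <;> exact ⟨⟨σ, a⟩, ⟨ρ, b⟩, c⟩
  have h2 : ∀ t, y ∈ J t ↔ ∃ P, Pk y.parts r.parts P ∧ Ty t P := fun t => by
    rw [hJ]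
    refine ⟨fun ⟨_, _, _, P, _, _, a, b, _⟩ => ⟨P, a, b⟩, fun ⟨P, a, b⟩ =>
      ⟨hne, y.parts.map singleton, P, P, ⟨sum_map_singleton _, by simp⟩, a, a, b, fun A hA => ?_,
        fun G hG => ⟨G, hG, rfl, fun A hA => ⟨A, hA, rfl⟩⟩⟩⟩
    obtain ⟨x, hx, rfl⟩ := mem_map.1 hA
    obtain ⟨F, hF, hx⟩ := mem_join.1 (show x ∈ P.sum from a.1 ▸ hx)
    exact ⟨F, hF, singleton_le.2 hx⟩
  have h3 : ∀ z ∈ J true ∩ J false, z = y := fun z hz => by
    obtain ⟨a, b⟩ := Finset.mem_inter.1 hz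
    by_contra c
    exact Bool.noConfusion (h.wit_eq (fun _ => z.parts_pos) (fun _ => r.parts_pos)
      (ne' (Ne.symm c)) (ne' ((hJ _ _).1 a).1) ((hJ _ _).1 a).2 ((hJ _ _).1 b).2)
  have h4 := Finset.sum_union_inter (s₁ := J true) (s₂ := J false) (f := μ y)
  rw [h0, h0, add_zero] at h4
  rw [hμ.2 y r hyr hne, h1, neg_eq_of_add_eq_zero_right h4]
  split_ifs with c
  · rw [Finset.eq_singleton_iff_unique_mem.2
      ⟨Finset.mem_inter.2 ⟨(h2 _).2 (c _), (h2 _).2 (c _)⟩, h3⟩, Finset.sum_singleton, hμ.1]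
  · refine Finset.sum_eq_zero fun z hz => absurd (fun t => ?_) c
    obtain rfl := h3 z hz
    cases t
    exacts [(h2 _).1 (Finset.mem_inter.1 hz).2, (h2 _).1 (Finset.mem_inter.1 hz).1]

end Pool.Agent.Work.MP_84e666_co.NP
end

-- merged part: Pool.Agent.Work.MP_84e666_co.H45Pack
section
/-! Packings that count the solutions of a system of linear equations in literals. -/

namespace Pool.Agent.Work.MP_84e666_co

namespace Pack

open Finset

section generic

variable {T : Type}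

/-- A number with digits `f τ`, `f ∈ L`, and top digit `top τ`. -/
def hor (B : ℕ) (top : T → ℕ) : List (T → ℕ) → T → ℕ
  | [], τ => top τ
  | f :: L, τ => f τ + B * hor B top L τ

theorem digits [Fintype T] (B : ℕ) (top : T → ℕ) (c c' : T → ℕ) (k : ℕ) : ∀ L : List (T → ℕ),
    (∀ f ∈ L, ∑ τ, c τ * f τ < B ∧ ∑ τ, c' τ * f τ < B) →
    ∑ τ, c τ * hor B top L τ = ∑ τ, c' τ * hor B top L τ + B ^ L.length * k →
    (∀ f ∈ L, ∑ τ, c τ * f τ = ∑ τ, c' τ * f τ) ∧ ∑ τ, c τ * top τ = ∑ τ, c' τ * top τ + k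
  | [], _, h => ⟨by simp, by simpa [hor] using h⟩
  | f :: L, hb, h => by
    have e : ∀ c : T → ℕ, ∑ τ, c τ * hor B top (f :: L) τ =
        ∑ τ, c τ * f τ + B * ∑ τ, c τ * hor B top L τ := fun c => by
      simp only [hor, mul_add, sum_add_distrib, mul_sum, mul_left_comm]
    obtain ⟨h1, h2⟩ := hb f List.mem_cons_self
    rw [e, e, List.length_cons, pow_succ', add_assoc, mul_assoc, ← mul_add] at h
    have h3 := congrArg (· % B) h
    simp only [Nat.add_mul_mod_self_left, Nat.mod_eq_of_lt h1, Nat.mod_eq_of_lt h2] at h3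
    rw [h3, add_right_inj, Nat.mul_right_inj (by omega)] at h
    obtain ⟨h4, h5⟩ := digits B top c c' k L (fun g hg => hb g (List.mem_cons_of_mem _ hg)) h
    exact ⟨List.forall_mem_cons.2 ⟨h3, h4⟩, h5⟩

theorem cauchy [Fintype T] (c f : T → ℕ) (k x : ℕ) (h0 : ∑ τ, c τ = k)
    (h1 : ∑ τ, c τ * f τ = k * x) (h2 : ∑ τ, c τ * f τ ^ 2 = k * x ^ 2) (τ : T) (h : f τ ≠ x) :
    c τ = 0 := by
  have e : ∑ τ, (c τ : ℤ) * ((f τ : ℤ) - x) ^ 2 = 0 := by
    have : ∀ τ, (c τ : ℤ) * ((f τ : ℤ) - x) ^ 2 =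
        c τ * f τ ^ 2 - 2 * x * (c τ * f τ) + x ^ 2 * c τ := fun τ => by ring
    simp only [this, sum_add_distrib, sum_sub_distrib, ← mul_sum]
    zify at h0 h1 h2
    rw [h0, h1, h2]
    ring
  have := (sum_eq_zero_iff_of_nonneg fun τ _ => by positivity).1 e τ (mem_univ τ)
  rw [mul_eq_zero, pow_eq_zero_iff two_ne_zero, sub_eq_zero] at this
  exact_mod_cast this.resolve_right (by exact_mod_cast h)

theorem ncard_lists [DecidableEq T] (s : Multiset T) (hs : s.Nodup) :
    ∃ F : Finset (List T), (∀ l, l ∈ F ↔ (l : Multiset T) = s) ∧ F.card = s.card.factorial := by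
  induction s using Quotient.inductionOn with
  | _ l₀ =>
    refine ⟨l₀.permutations.toFinset, fun l => ?_, ?_⟩
    · simp [List.mem_permutations]
    · rw [List.toFinset_card_of_nodup (List.nodup_permutations l₀ hs), List.length_permutations]
      rfl

theorem sum_map_count [Fintype T] [DecidableEq T] (s : Multiset T) (f : T → ℕ) :
    (s.map f).sum = ∑ τ, s.count τ * f τ := by
  rw [Finset.sum_multiset_map_count]
  exact sum_subset (subset_univ _) fun τ _ h => by
    simp [Multiset.count_eq_zero.2 fun h' => h (Multiset.mem_toFinset.2 h')]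

theorem map_sum' {ι U : Type} (S : Finset ι) (W : ι → Multiset T) (f : T → U) :
    (∑ j ∈ S, W j).map f = ∑ j ∈ S, (W j).map f :=
  map_sum (Multiset.mapAddMonoidHom f) W S

theorem digits' [Fintype T] [DecidableEq T] (B K : ℕ) (top : T → ℕ) (L : List (T → ℕ))
    (hK : ∀ f ∈ L, ∀ τ, f τ ≤ K) (hB : Fintype.card T * (2 * K) < B) (s s' : Multiset T)
    (hs : ∀ τ, s.count τ ≤ 2) (hs' : ∀ τ, s'.count τ ≤ 2) (k : ℕ)
    (h : (s.map (hor B top L)).sum = (s'.map (hor B top L)).sum + B ^ L.length * k) :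
    (∀ f ∈ L, ∑ τ, s.count τ * f τ = (s'.map f).sum) ∧
      ∑ τ, s.count τ * top τ = (s'.map top).sum + k := by
  have e : ∀ s : Multiset T, (∀ τ, s.count τ ≤ 2) → ∀ f ∈ L, ∑ τ, s.count τ * f τ < B :=
    fun s hs f hf => lt_of_le_of_lt (sum_le_card_nsmul _ _ _ fun τ _ =>
      Nat.mul_le_mul (hs τ) (hK f hf τ)) hB
  simp only [sum_map_count] at h ⊢
  exact digits B top _ _ k L (fun f hf => ⟨e s hs f hf, e s' hs' f hf⟩) h

theorem single_of_sum [Fintype T] [DecidableEq T] (c : T → ℕ) (h : ∑ τ, c τ = 1) :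
    ∃ x, ∀ τ, c τ = if τ = x then 1 else 0 := by
  obtain ⟨x, -, hx⟩ := exists_ne_zero_of_sum_ne_zero (h ▸ one_ne_zero : ∑ τ, c τ ≠ 0)
  refine ⟨x, fun τ => ?_⟩
  rw [← add_sum_erase _ _ (mem_univ x)] at h
  split_ifs with e
  · subst e
    omega
  · have := single_le_sum (f := c) (fun _ _ => Nat.zero_le _)
      (mem_erase.2 ⟨e, mem_univ τ⟩ : τ ∈ univ.erase x)
    omega

theorem all_one [Fintype T] (c w : T → ℕ) (hc : ∀ τ, c τ ≤ 1) (hw : ∀ τ, 0 < w τ)
    (h : ∑ τ, c τ * w τ = ∑ τ, w τ) (τ : T) : c τ = 1 := by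
  have := (sum_eq_sum_iff_of_le fun τ _ => (Nat.mul_le_mul_right _ (hc τ)).trans_eq
    (one_mul (w τ))).1 h τ (mem_univ τ)
  exact Nat.eq_of_mul_eq_mul_right (hw τ) (by rw [this, one_mul])

/-- The count of words when the packings are parametrised by a finite set. -/
theorem words_eq_mul [Fintype T] [DecidableEq T] [Nonempty T] {ι Z : Type} [Fintype ι]
    (size : T → ℕ) (hinj : Function.Injective size) (M : Multiset T) (t k : ι → ℕ)
    (S : Finset Z) (cont : Z → ι → Multiset T) (hc : Function.Injective cont)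
    (h1 : ∀ z j, (cont z j).Nodup ∧ (cont z j).card = k j)
    (h2 : ∀ z ∈ S, ∑ j, cont z j = M ∧ ∀ j, ((cont z j).map size).sum = t j)
    (h3 : ∀ W : ι → Multiset T, ∑ j, W j = M → (∀ j, ((W j).map size).sum = t j) →
      ∃ z ∈ S, W = cont z) :
    words (M.map size) t = (∏ j, (k j).factorial) * S.card := by
  classical
  choose F hF hF' using fun z j => ncard_lists ((cont z j).map size) ((h1 z j).1.map hinj)
  have e : {w : ι → List ℕ | ∑ j, (w j : Multiset ℕ) = M.map size ∧ ∀ j, (w j).sum = t j} =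
      (S.biUnion fun z => Fintype.piFinset (F z) : Finset (ι → List ℕ)) := by
    ext w
    simp only [Set.mem_ofPred_eq, coe_biUnion, Set.mem_iUnion, mem_coe, Fintype.mem_piFinset, hF,
      exists_prop]
    constructor
    · rintro ⟨e1, e2⟩
      have hl := Function.leftInverse_invFun hinj
      have e3 : ∀ j, ((w j : Multiset ℕ).map (Function.invFun size)).map size = w j := fun j => by
        rw [Multiset.map_map]
        refine (Multiset.map_congr rfl fun x hx => ?_).trans (Multiset.map_id _)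
        have : x ∈ M.map size := e1 ▸ Multiset.mem_sum.2 ⟨j, mem_univ j, hx⟩
        obtain ⟨τ, -, rfl⟩ := Multiset.mem_map.1 this
        exact congrArg size (hl τ)
      obtain ⟨z, hz, e4⟩ := h3 (fun j => (w j : Multiset ℕ).map (Function.invFun size))
        (Multiset.map_injective hinj (by
          rw [← e1, map_sum']
          exact sum_congr rfl fun j _ => e3 j))
        (fun j => by rw [e3, ← e2 j]; rfl)
      exact ⟨z, hz, fun j => by rw [← e4, e3]⟩
    · rintro ⟨z, hz, e⟩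
      refine ⟨?_, fun j => ?_⟩
      · rw [← (h2 z hz).1, map_sum']
        exact sum_congr rfl fun j _ => e j
      · rw [← (h2 z hz).2 j, ← e j]
        rfl
  rw [words, e, Set.ncard_coe_finset, card_biUnion, sum_congr rfl (g := fun _ =>
    ∏ j, (k j).factorial), sum_const, smul_eq_mul, mul_comm]
  · intro z _
    rw [Fintype.card_piFinset]
    exact prod_congr rfl fun j _ => by rw [hF', Multiset.card_map, (h1 z j).2]
  · intro z _ z' _ hne
    refine disjoint_left.2 fun w hw hw' => hne (hc (funext fun j => ?_))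
    rw [Fintype.mem_piFinset] at hw hw'
    exact Multiset.map_injective hinj (((hF _ _ _).1 (hw j)).symm.trans ((hF _ _ _).1 (hw' j)))

end generic

end Pack

end Pool.Agent.Work.MP_84e666_co
end

-- merged part: Pool.Agent.Work.MP_84e666_co.H45Tok
section
/-! The packing instance attached to a system of linear equations in literals. -/

namespace Pool.Agent.Work.MP_84e666_co

namespace Pack

open Finset Sum

/-- Size of a link with equation `e`, literal code `l` and value `x`. -/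
def szL (B e l x : ℕ) : ℕ :=
  B * (1 + B * (B * (B * (l + B * (l ^ 2 + B * (e + B * (e ^ 2 + B * x)))))))

/-- Size of a switch with variable `v`, low digit `δ` and value `x`. -/
def szS (B v δ x : ℕ) : ℕ := δ + B * (B * (1 + B * (v + B * (B * (B * (B * (B * x)))))))

theorem szL_eq (B e l x : ℕ) : szL B e l x = szL B e l 0 + B ^ 8 * x := by
  simp only [szL]; ring

theorem szS_eq (B v δ x : ℕ) : szS B v δ x = δ + szS B v 0 0 + B ^ 8 * x := by
  simp only [szS]; ring

/-- Links, switches and three small items. -/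
abbrev Tok (n m : ℕ) := (Fin m × (Fin n × Bool) × Bool) ⊕ (Fin n × Bool) ⊕ Fin 3

/-- Literal bins and equation bins. -/
abbrev Box (n m : ℕ) := (Fin n × Bool) ⊕ Fin m

variable {n m : ℕ}

/-- The number of a literal. -/
def code (l : Fin n × Bool) : ℕ := 2 * l.1.val + l.2.toNat

theorem code_inj {l l' : Fin n × Bool} (h : code l = code l') : l = l' := by
  obtain ⟨v, β⟩ := l
  obtain ⟨v', β'⟩ := l'
  cases β <;> cases β' <;> simp [code, Fin.ext_iff] at h ⊢ <;> omega

theorem code_le (l : Fin n × Bool) : code l ≤ 2 * n := by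
  have := l.1.2
  have := Bool.toNat_le l.2
  unfold code
  omega

/-- A function on items, by kind. -/
def tri3 (f : Fin m × (Fin n × Bool) × Bool → ℕ) (g : Fin n × Bool → ℕ) (h : Fin 3 → ℕ) :
    Tok n m → ℕ
  | inl x => f x
  | inr (inl y) => g y
  | inr (inr k) => h k

/-- The low digit of a switch. -/
def low (y : Fin n × Bool) : ℕ := if y.1.val = 0 ∧ y.2 = false then 1 else 0

/-- The digits. -/
def digs : List (Tok n m → ℕ) :=
  [tri3 0 low fun k => 10 + k.val, tri3 1 0 0, tri3 0 1 0, tri3 0 (fun y => y.1.val) 0,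
    tri3 (fun x => code x.2.1) 0 0, tri3 (fun x => code x.2.1 ^ 2) 0 0,
    tri3 (fun x => x.1.val) 0 0, tri3 (fun x => x.1.val ^ 2) 0 0]

variable (a : ℕ → ℕ → Bool → ℕ) (b : ℕ → ℕ) (M B : ℕ)

/-- The top digit. -/
def topd : Tok n m → ℕ :=
  tri3 (fun x => if x.2.2 = true then a x.1 x.2.1.1 x.2.1.2 + 1 else 0)
    (fun y => if y.2 = true then M else 0) 0

/-- The size of an item. -/
def size : Tok n m → ℕ := hor B (topd a M) digs

theorem size_link (x : Fin m × (Fin n × Bool) × Bool) : size a M B (inl x) =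
    szL B x.1 (code x.2.1) (if x.2.2 = true then a x.1 x.2.1.1 x.2.1.2 + 1 else 0) := by
  simp [size, digs, hor, tri3, topd, szL]

theorem size_sw (y : Fin n × Bool) : size (m := m) a M B (inr (inl y)) =
    szS B y.1 (low y) (if y.2 = true then M else 0) := by
  simp [size, digs, hor, tri3, topd, szS]

theorem size_gad (k : Fin 3) : size (n := n) (m := m) a M B (inr (inr k)) = 10 + k.val := by
  simp [size, digs, hor, tri3, topd]

theorem digs_le : ∀ f ∈ digs (n := n) (m := m), ∀ τ, f τ ≤ (2 * n + m + 12) ^ 2 := by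
  have h : ∀ x, x ≤ 2 * n + m + 12 → x ≤ (2 * n + m + 12) ^ 2 := fun x hx =>
    hx.trans (Nat.le_self_pow two_ne_zero _)
  have h2 : ∀ x, x ≤ 2 * n + m + 12 → x ^ 2 ≤ (2 * n + m + 12) ^ 2 := fun x hx =>
    Nat.pow_le_pow_left hx _
  simp only [digs, List.forall_mem_cons, List.not_mem_nil, false_imp_iff, implies_true, and_true]
  refine ⟨?_, ?_, ?_, ?_, ?_, ?_, ?_, ?_⟩ <;> rintro (x | y | k) <;>
    simp only [tri3, Pi.zero_apply, Pi.one_apply, Nat.zero_le]
  · exact h _ (by unfold low; split_ifs <;> omega)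
  · exact h _ (by omega)
  · exact h _ (by omega)
  · exact h _ (by omega)
  · exact h _ (by omega)
  · exact h _ (by have := code_le x.2.1; omega)
  · exact h2 _ (by have := code_le x.2.1; omega)
  · exact h _ (by omega)
  · exact h2 _ (by omega)

/-- The small item of a literal bin of the first variable. -/
def gk (s β : Bool) : Fin 3 := if s = true then (if β = true then 2 else 0) else 1

/-- The truth value of a literal. -/
def tv (z : Fin n → Bool) (l : Fin n × Bool) : Bool := z l.1 == l.2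

/-- Which items lie in which bin. -/
def ct (z : Fin n → Bool) : Box n m → Tok n m → ℕ
  | inl l, inl x => if x.2 = (l, !tv z l) then 1 else 0
  | inl l, inr (inl y) => if y = (l.1, tv z l) then 1 else 0
  | inl l, inr (inr k) => if l.1.val = 0 then (if k = gk (z l.1) l.2 then 1 else 0) else 0
  | inr e, inl x => if x.1 = e then (if x.2.2 = tv z x.2.1 then 1 else 0) else 0
  | inr _, inr _ => 0

theorem ct_le (z : Fin n → Bool) (j : Box n m) (τ : Tok n m) : ct z j τ ≤ 1 := by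
  rcases j with l | e <;> rcases τ with x | y | k <;> simp only [ct] <;> (try split_ifs) <;> omega

/-- The content of a bin. -/
def cont (z : Fin n → Bool) (j : Box n m) : Multiset (Tok n m) :=
  (univ.filter fun τ => ct z j τ = 1).val

theorem count_cont (z : Fin n → Bool) (j : Box n m) (τ : Tok n m) :
    (cont z j).count τ = ct z j τ := by
  rw [cont, Multiset.count_eq_of_nodup (Finset.nodup _)]
  have := ct_le z j τ
  split_ifs with h <;> simp at h <;> omega

theorem sum_lit (z : Fin n → Bool) (l : Fin n × Bool) (f : Tok n m → ℕ) :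
    ((cont z (inl l)).map f).sum = ∑ e, f (inl (e, l, !tv z l)) + (f (inr (inl (l.1, tv z l))) +
        if l.1.val = 0 then f (inr (inr (gk (z l.1) l.2))) else 0) := by
  rw [sum_map_count]
  simp only [count_cont, Fintype.sum_sum_type, ct, ite_mul, one_mul, zero_mul,
    Fintype.sum_prod_type (α₁ := Fin m), sum_ite_eq', mem_univ, if_true, sum_ite_irrel,
    sum_const_zero]

theorem sum_eqn (z : Fin n → Bool) (e : Fin m) (f : Tok n m → ℕ) :
    ((cont z (inr e)).map f).sum = ∑ l : Fin n × Bool, f (inl (e, l, tv z l)) := by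
  rw [sum_map_count]
  simp only [count_cont, Fintype.sum_sum_type, ct, ite_mul, one_mul, zero_mul,
    Fintype.sum_prod_type (α₁ := Fin m), Fintype.sum_prod_type (α₁ := Fin n × Bool), sum_ite_eq',
    mem_univ, if_true, sum_ite_irrel, sum_const_zero, add_zero]

/-- The targets. -/
def tgt : Box n m → ℕ
  | inl l => ∑ e : Fin m, szL B e (code l) 0 + (szS B l.1 0 M +
      if l.1.val = 0 then 11 + l.2.toNat else 0)
  | inr e => ∑ l : Fin n × Bool, szL B e (code l) 0 + B ^ 8 * (b e + n)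

/-- The number of items in a bin. -/
def num : Box n m → ℕ
  | inl l => m + (1 + if l.1.val = 0 then 1 else 0)
  | inr _ => n * 2

/-- All links and switches. -/
def base (n m : ℕ) : Multiset (Tok n m) :=
  univ.val.map inl + univ.val.map fun y => inr (inl y)

/-- The two small items. -/
def gads (s : Bool) : Multiset (Tok n m) := {inr (inr (gk s true)), inr (inr (gk s false))}

theorem count_all (s : Bool) (τ : Tok n m) : (base n m + gads s).count τ =
    tri3 1 1 (fun k => (if k = gk s true then 1 else 0) + if k = gk s false then 1 else 0) τ := by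
  rcases τ with x | y | k
  · simp [base, gads, tri3, Multiset.count_map_eq_count' _ _ inl_injective]
  · simp [base, gads, tri3, Multiset.count_map_eq_count' (fun y : Fin n × Bool =>
      (inr (inl y) : Tok n m)) _ (inr_injective.comp inl_injective)]
  · simp [base, gads, tri3, Multiset.count_cons, add_comm]

/-- The solutions with given first coordinate. -/
def sols (n m : ℕ) [NeZero n] (s : Bool) : Finset (Fin n → Bool) :=
  univ.filter fun z => z 0 = s ∧ ∀ e : Fin m, ∑ v : Fin n, a e v (z v) = b e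

theorem sum_true (z : Fin n → Bool) (g : Fin n × Bool → ℕ) :
    ∑ l : Fin n × Bool, (if tv z l = true then g l else 0) = ∑ v, g (v, z v) := by
  rw [Fintype.sum_prod_type]
  refine sum_congr rfl fun v _ => ?_
  cases h : z v <;> simp [tv, h]

variable {a b M B}

theorem complete [NeZero n] (hM : ∀ l : Fin n × Bool, ∑ e : Fin m, (a e l.1 l.2 + 1) = M)
    {s : Bool} {z : Fin n → Bool} (hz : z ∈ sols a b n m s) :
    ∑ j, cont z j = base n m + gads s ∧
      ∀ j : Box n m, ((cont z j).map (size a M B)).sum = tgt b M B j := by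
  obtain ⟨h0, hs⟩ := (mem_filter.1 hz).2
  refine ⟨Multiset.ext.2 fun τ => ?_, ?_⟩
  · rw [count_all, Multiset.count_sum']
    simp only [count_cont, Fintype.sum_sum_type]
    rcases τ with ⟨e, l, σ⟩ | ⟨v, σ⟩ | k
    · cases h : tv z l <;> cases σ <;> simp [ct, tri3, ite_and, h]
    · simp only [ct, tri3, Fintype.sum_prod_type, Prod.mk.injEq, ite_and, sum_const_zero]
      cases h : z v <;> cases σ <;> simp [tv, h]
    · simp only [ct, tri3, Fintype.sum_prod_type, sum_ite_irrel, sum_const_zero,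
        Fin.val_eq_zero_iff, sum_ite_eq', mem_univ, if_true, Fintype.sum_bool, h0, add_zero]
  · rintro (⟨v, β⟩ | e)
    · rw [sum_lit, tgt]
      simp only [size_link, size_sw, size_gad]
      have := hM (v, β)
      cases h : tv z (v, β)
      · simp only [Bool.not_false, if_true, Bool.false_eq_true, if_false]
        rw [sum_congr rfl fun e _ => szL_eq _ _ _ _, szS_eq B v 0 M, szS_eq, sum_add_distrib,
          ← mul_sum, this]
        cases β <;> simp [tv] at h <;> simp [low, gk, h] <;> split_ifs <;> omega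
      · cases β <;> simp [tv] at h <;> simp [low, gk, h]
    · rw [sum_eqn, tgt]
      simp only [size_link]
      rw [sum_congr rfl fun e _ => szL_eq _ _ _ _, sum_add_distrib, ← mul_sum,
        sum_true z fun l => a e l.1 l.2 + 1, sum_add_distrib, hs e]
      simp

theorem card_tok : Fintype.card (Tok n m) = m * (n * 2 * 2) + (n * 2 + 3) := by simp

theorem lit_box (hB : Fintype.card (Tok n m) * (2 * (2 * n + m + 12) ^ 2) < B)
    (hM : ∀ l : Fin n × Bool, ∑ e : Fin m, (a e l.1 l.2 + 1) = M)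
    (l : Fin n × Bool) (W : Multiset (Tok n m)) (h1 : ∀ x, W.count (inl x) ≤ 1)
    (h2 : ∀ τ, W.count τ ≤ 2) (h : (W.map (size a M B)).sum = tgt b M B (inl l : Box n m)) :
    ∃ σ, (∀ x, W.count (inl x) = if x.2 = (l, !σ) then 1 else 0) ∧
      (∀ y, W.count (inr (inl y)) = if y = (l.1, σ) then 1 else 0) ∧
      low (l.1, σ) + ∑ k : Fin 3, W.count (inr (inr k)) * (10 + k.val) =
        if l.1.val = 0 then 11 + l.2.toNat else 0 := by
  have e0 : tv (fun _ => l.2) l = true := by simp [tv]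
  have e1 : tgt b M B (inl l : Box n m) = ((cont (m := m) (fun _ => l.2) (inl l)).map
      (size a M B)).sum + B ^ (digs (n := n) (m := m)).length * 0 := by
    rw [sum_lit, tgt, e0]
    simp only [size_link, size_sw, size_gad]
    cases l.2 <;> simp [low, gk]
  obtain ⟨hd, ht⟩ := digits' B _ (topd a M) digs digs_le hB W _ h2
    (fun τ => by rw [count_cont]; exact (ct_le _ _ _).trans one_le_two) 0 (h.trans e1)
  simp only [digs, List.forall_mem_cons, sum_lit, e0, Fintype.sum_sum_type, tri3, topd,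
    Pi.zero_apply, Pi.one_apply, mul_zero, mul_one, sum_const_zero, add_zero, zero_add, ite_self,
    sum_const, card_univ, Fintype.card_fin, smul_eq_mul, Bool.not_true, Bool.false_eq_true,
    if_false, if_true] at hd ht
  obtain ⟨d0, d1, d2, d3, d4, d5, -⟩ := hd
  obtain ⟨y, hy⟩ := single_of_sum _ d2
  simp only [hy, ite_mul, one_mul, zero_mul, sum_ite_eq', mem_univ, if_true] at d0 d3 ht
  obtain ⟨v, σ⟩ := y
  obtain rfl : v = l.1 := Fin.ext d3
  have hc : ∀ (e : Fin m) l' s, l' ≠ l → W.count (inl (e, l', s)) = 0 := fun e l' s hne =>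
    cauchy (fun x => W.count (inl x)) (fun x => code x.2.1) m (code l) d1 d4 d5 (e, l', s)
      fun h => hne (code_inj h)
  have hs : ∀ g : Fin m × (Fin n × Bool) × Bool → ℕ, ∑ x, W.count (inl x) * g x =
      ∑ e, W.count (inl (e, l, true)) * g (e, l, true) +
        ∑ e, W.count (inl (e, l, false)) * g (e, l, false) := fun g => by
    rw [Fintype.sum_prod_type, ← sum_add_distrib]
    refine sum_congr rfl fun e _ => ?_
    rw [Fintype.sum_prod_type, sum_eq_single l (fun l' _ hne => by simp [hc e l' _ hne]) (by simp),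
      Fintype.sum_bool]
  have d1' := hs fun _ => 1
  rw [hs] at ht
  simp only [mul_one, d1, if_true, Bool.false_eq_true, if_false, mul_zero, sum_const_zero,
    add_zero] at d1' ht
  have key : ∀ e, W.count (inl (e, l, σ)) = 0 ∧ W.count (inl (e, l, !σ)) = 1 := by
    cases σ
    · have k1 := all_one _ (fun e : Fin m => a e l.1 l.2 + 1) (fun e => h1 (e, l, true))
        (fun _ => Nat.succ_pos _) (by simpa [hM] using ht)
      simp only [k1, sum_const, card_univ, Fintype.card_fin, smul_eq_mul, mul_one, left_eq_add,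
        sum_eq_zero_iff, mem_univ, true_imp_iff] at d1'
      exact fun e => ⟨d1' e, k1 e⟩
    · have k1 : ∀ e, W.count (inl (e, l, true)) = 0 := by simpa using ht
      simp only [k1, sum_const_zero, zero_add] at d1'
      exact fun e => ⟨k1 e, all_one _ (fun _ : Fin m => 1) (fun e => h1 (e, l, false))
        (fun _ => one_pos) (by simpa using d1'.symm) e⟩
  refine ⟨σ, fun ⟨e, l', s⟩ => ?_, hy, ?_⟩
  · by_cases hl : l' = l
    · subst hl
      have := key e
      revert this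
      cases s <;> cases σ <;> simp +contextual
    · simp [hc e l' s hl, hl]
  · rw [d0]
    cases l.2 <;> simp [low, gk]

theorem eqn_box (hB : Fintype.card (Tok n m) * (2 * (2 * n + m + 12) ^ 2) < B) [NeZero n]
    (e : Fin m) (W : Multiset (Tok n m))
    (h2 : ∀ τ, W.count τ ≤ 2) (h : (W.map (size a M B)).sum = tgt b M B (inr e : Box n m)) :
    (∀ x, x.1 ≠ e → W.count (inl x) = 0) ∧ (∀ y, W.count (inr y) = 0) ∧
      ∑ x, W.count (inl x) * (if x.2.2 = true then a x.1 x.2.1.1 x.2.1.2 + 1 else 0) = b e + n := by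
  let s' : Multiset (Tok n m) := univ.val.map fun l => inl (e, l, false)
  have e0 : ∀ f : Tok n m → ℕ, (s'.map f).sum = ∑ l, f (inl (e, l, false)) := fun f => by
    simp only [s', Multiset.map_map]
    rfl
  have e1 : tgt b M B (inr e : Box n m) = (s'.map (size a M B)).sum +
      B ^ (digs (n := n) (m := m)).length * (b e + n) := by
    rw [e0, tgt]
    simp [size_link, digs]
  obtain ⟨hd, ht⟩ := digits' B _ (topd a M) digs digs_le hB W s' h2
    (fun τ => (Multiset.nodup_iff_count_le_one.1 (Multiset.Nodup.map (fun l l' h => by simpa using h)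
      (Finset.nodup _)) τ).trans one_le_two) _ (h.trans e1)
  simp only [digs, List.forall_mem_cons, e0, Fintype.sum_sum_type, tri3, topd,
    Pi.zero_apply, Pi.one_apply, mul_zero, mul_one, sum_const_zero, add_zero, zero_add,
    sum_const, smul_eq_mul, Bool.false_eq_true, if_false] at hd ht
  obtain ⟨d0, d1, d2, -, -, -, d6, d7, -⟩ := hd
  have k2 : ∀ y, W.count (inr (inl y)) = 0 := by simpa using d2
  refine ⟨fun x hx => cauchy (fun x => W.count (inl x)) (fun x => x.1.val) _ e d1 d6 d7 x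
    fun h => hx (Fin.ext h), ?_, by simpa [k2] using ht⟩
  rintro (y | k)
  · exact k2 y
  · simpa using sum_eq_zero_iff.1 (Nat.eq_zero_of_add_eq_zero_left d0) k (mem_univ k)

theorem gad3 (c : Fin 3 → ℕ) (j : Fin 3) (h : ∑ k, c k * (10 + k.val) = 10 + j.val) (k : Fin 3) :
    c k = if k = j then 1 else 0 := by
  rw [Fin.sum_univ_three, Fin.val_zero, Fin.val_one, Fin.val_two] at h
  have h0 : c 0 = 0 ∨ c 0 = 1 := by omega
  have h1 : c 1 = 0 ∨ c 1 = 1 := by omega
  have h2 : c 2 = 0 ∨ c 2 = 1 := by omega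
  have hk : k = 0 ∨ k = 1 ∨ k = 2 := by omega
  have hj : j = 0 ∨ j = 1 ∨ j = 2 := by omega
  rcases hk with rfl | rfl | rfl <;> rcases hj with rfl | rfl | rfl <;> simp at h ⊢ <;> omega

theorem sound [NeZero n] (hB : Fintype.card (Tok n m) * (2 * (2 * n + m + 12) ^ 2) < B)
    (hM : ∀ l : Fin n × Bool, ∑ e : Fin m, (a e l.1 l.2 + 1) = M) (s : Bool)
    (W : Box n m → Multiset (Tok n m)) (hW : ∑ j, W j = base n m + gads s)
    (h : ∀ j, ((W j).map (size a M B)).sum = tgt b M B j) : ∃ z ∈ sols a b n m s, W = cont z := by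
  have tot : ∀ τ, ∑ l, (W (inl l)).count τ + ∑ e, (W (inr e)).count τ =
      (base n m + gads s).count τ := fun τ => by
    rw [← hW, Multiset.count_sum', Fintype.sum_sum_type]
  have le : ∀ j τ, (W j).count τ ≤ (base n m + gads s).count τ := fun j τ =>
    Multiset.count_le_of_le τ (hW ▸ single_le_sum (fun _ _ => Multiset.zero_le _) (mem_univ j))
  simp only [count_all] at tot le
  have h2 : ∀ j τ, (W j).count τ ≤ 2 := fun j τ => (le j τ).trans (by
    rcases τ with x | y | k <;> simp only [tri3, Pi.one_apply] <;> (try split_ifs) <;> omega)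
  choose σ s1 s2 s3 using fun l => lit_box hB hM l (W (inl l)) (fun x => le _ (inl x)) (h2 _)
    (h _)
  have q := fun e => eqn_box hB e (W (inr e)) (h2 _) (h _)
  let z : Fin n → Bool := fun v => σ (v, true)
  have hσ : ∀ l, σ l = tv z l := fun ⟨v, β⟩ => by
    have := tot (inr (inl (v, true)))
    simp only [s2, (q _).2.1, tri3, Fintype.sum_prod_type, Prod.mk.injEq, ite_and,
      Fintype.sum_bool, sum_add_distrib, sum_ite_eq, mem_univ, if_true] at this
    revert this
    cases β <;> cases h1 : σ (v, true) <;> cases h2 : σ (v, false) <;> simp [tv, z, h1]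
  simp only [hσ] at s1 s2 s3
  have q1 : ∀ e x, (W (inr e)).count (inl x) = ct z (inr e) (inl x) := fun e ⟨e', l, t⟩ => by
    by_cases he : e' = e
    · subst he
      have := tot (inl (e', l, t))
      rw [sum_eq_single e' (fun e _ hne => (q e).1 _ hne.symm) (by simp)] at this
      simp only [s1, tri3, Prod.mk.injEq, ite_and, sum_ite_eq, mem_univ, if_true] at this
      revert this
      cases t <;> cases h : tv z l <;> simp [ct, h]
    · simp [ct, he, (q e).1 (e', l, t) he]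
  have g : ∀ l k, (W (inl l)).count (inr (inr k)) = ct z (inl l : Box n m) (inr (inr k)) := by
    intro ⟨v, β⟩ k
    have := s3 (v, β)
    by_cases hv : v.val = 0
    · simp only [ct, hv, if_true, low, true_and] at this ⊢
      refine gad3 (fun k => (W (inl (v, β))).count (inr (inr k))) _ ?_ k
      cases β <;> cases hz : z v <;> simp only [tv, hz, gk] at this ⊢ <;> simp at this ⊢ <;> omega
    · simp only [ct, hv, if_false] at this ⊢
      simpa using sum_eq_zero_iff.1 (Nat.eq_zero_of_add_eq_zero_left this) k (mem_univ k)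
  refine ⟨z, mem_filter.2 ⟨mem_univ _, ?_, fun e => ?_⟩, funext fun j => Multiset.ext.2 fun τ => ?_⟩
  · have := le (inl (0, true)) (inr (inr (gk (z 0) true)))
    rw [g] at this
    cases s <;> cases hz : z 0 <;> simp [ct, gk, tri3, hz] at this ⊢
  · have := (q e).2.2
    simp only [q1, ct, ite_mul, one_mul, zero_mul, Fintype.sum_prod_type (α₁ := Fin m),
      Fintype.sum_prod_type (α₁ := Fin n × Bool), sum_ite_eq', mem_univ, if_true,
      sum_ite_irrel, sum_const_zero] at this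
    rw [sum_true z fun l => a e l.1 l.2 + 1, sum_add_distrib] at this
    simpa using this
  · rw [count_cont]
    rcases j with l | e <;> rcases τ with x | y | k
    · exact s1 l x
    · exact s2 l y
    · exact g l k
    · exact q1 e x
    · exact (q e).2.1 _
    · exact (q e).2.1 _

theorem size_inj (hB : Fintype.card (Tok n m) * (2 * (2 * n + m + 12) ^ 2) < B) (hM0 : 0 < M) :
    Function.Injective (size (n := n) (m := m) a M B) := by
  intro τ τ' h
  have c : ∀ τ τ' : Tok n m, ({τ} : Multiset (Tok n m)).count τ' ≤ 2 := fun τ τ' =>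
    (Multiset.count_le_card _ _).trans (by simp)
  obtain ⟨hd, ht⟩ := digits' B _ (topd a M) digs digs_le hB {τ} {τ'} (c τ) (c τ') 0
    (by simpa [size] using h)
  simp only [← sum_map_count, Multiset.map_singleton, Multiset.sum_singleton, digs,
    List.forall_mem_cons, add_zero] at hd ht
  obtain ⟨d0, d1, d2, d3, d4, -, d6, -⟩ := hd
  rcases τ with ⟨e, l, s⟩ | ⟨v, s⟩ | k <;> rcases τ' with ⟨e', l', s'⟩ | ⟨v', s'⟩ | k' <;>
    simp only [tri3, topd, Pi.zero_apply, Pi.one_apply, one_ne_zero, zero_ne_one] at d0 d1 d2 d3 d4 d6 ht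
  · obtain rfl := code_inj d4
    obtain rfl := Fin.ext d6
    cases s <;> cases s' <;> simp at ht ⊢
  · obtain rfl := Fin.ext d3
    cases s <;> cases s' <;> simp at ht ⊢ <;> omega
  · rw [Fin.ext (by omega : k.val = k'.val)]

theorem words_pack [NeZero n] (hB : Fintype.card (Tok n m) * (2 * (2 * n + m + 12) ^ 2) < B)
    (hM : ∀ l : Fin n × Bool, ∑ e : Fin m, (a e l.1 l.2 + 1) = M) (hM0 : 0 < M) (s : Bool) :
    words ((base n m + gads s).map (size a M B)) (tgt (n := n) (m := m) b M B) =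
      (∏ j : Box n m, (num j).factorial) * (sols a b n m s).card := by
  refine words_eq_mul _ (size_inj hB hM0) _ _ num _ cont (fun z z' h => funext fun v => ?_)
    (fun z j => ⟨Finset.nodup _, ?_⟩) (fun z hz => complete hM hz) (sound hB hM s)
  · have := congrArg (Multiset.count (inr (inl (v, true)))) (congrFun h (inl (v, true)))
    rw [count_cont, count_cont] at this
    cases h1 : z v <;> cases h2 : z' v <;> simp_all [ct, tv]
  · have : (cont z j).card = ((cont z j).map fun _ => 1).sum := by simp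
    rw [this]
    rcases j with l | e
    · rw [sum_lit]
      simp [num]
    · rw [sum_eqn]
      simp [num]

end Pack

end Pool.Agent.Work.MP_84e666_co
end

-- merged part: Pool.Agent.Work.MP_84e666_co.N.Chain
section
/-! Extra items that force all bins to be filled in one of two modes. -/

namespace Pool.Agent.Work.MP_84e666_co.NP

open Finset Sum Pack

theorem split_map {α β : Type} (f : α → β) {P : Multiset α} {a b : Multiset β}
    (h : P.map f = a + b) : ∃ P₁ P₂, P = P₁ + P₂ ∧ P₁.map f = a ∧ P₂.map f = b := by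
  obtain ⟨P₁, h1, rfl⟩ := lift_le f (h ▸ Multiset.le_add_right a b)
  obtain ⟨P₂, rfl⟩ := Multiset.le_iff_exists_add.1 h1
  rw [Multiset.map_add, add_right_inj] at h
  exact ⟨P₁, P₂, rfl, rfl, h⟩

theorem exists_fun {α β ι : Type} [Nonempty α] (f : α → β) (t : ι → β) (s : Finset ι)
    {P : Multiset α} (h : P.map f = s.val.map t) :
    ∃ W : ι → α, P = s.val.map W ∧ ∀ j ∈ s, f (W j) = t j := by
  classical
  induction s using Finset.induction_on generalizing P with
  | empty => exact ⟨fun _ => Classical.arbitrary α, Multiset.map_eq_zero.1 h, by simp⟩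
  | insert j s hj ih =>
    rw [insert_val_of_notMem hj, Multiset.map_cons] at h
    obtain ⟨x, hx, e⟩ := Multiset.mem_map.1 (h ▸ Multiset.mem_cons_self _ _)
    obtain ⟨P, rfl⟩ := Multiset.exists_cons_of_mem hx
    rw [Multiset.map_cons, e, Multiset.cons_inj_right] at h
    obtain ⟨W, rfl, hW⟩ := ih h
    refine ⟨Function.update W j x, ?_, fun i hi => ?_⟩
    · rw [insert_val_of_notMem hj, Multiset.map_cons, Function.update_self]
      exact congrArg _ (Multiset.map_congr rfl fun i hi =>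
        (Function.update_of_ne (ne_of_mem_of_not_mem hi hj) _ _).symm)
    · rcases mem_insert.1 hi with rfl | hi
      · rw [Function.update_self, e]
      · rw [Function.update_of_ne (ne_of_mem_of_not_mem hi hj), hW i hi]

theorem lift_fun {α β ι : Type} [Fintype ι] (f : α → β) {s : Multiset α} {V : ι → Multiset β}
    (h : ∑ j, V j = s.map f) : ∃ W : ι → Multiset α, ∑ j, W j = s ∧ ∀ j, (W j).map f = V j := by
  obtain ⟨G, rfl, h2⟩ := lift_sum f (P := univ.val.map V) h
  obtain ⟨W, rfl, h3⟩ := exists_fun _ V univ h2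
  exact ⟨W, rfl, fun j => h3 j (mem_univ j)⟩

theorem le_split {α : Type} {A X Y : Multiset α} (h : A ≤ X + Y) :
    ∃ A₁ ≤ X, ∃ A₂ ≤ Y, A = A₁ + A₂ := by
  classical
  refine ⟨A ∩ X, Multiset.inter_le_right, A - X, Multiset.sub_le_iff_le_add'.2 h, ?_⟩
  ext x
  simp only [Multiset.count_add, Multiset.count_inter, Multiset.count_sub]
  omega

theorem sum_le_of_le {A X : Multiset ℕ} (h : A ≤ X) : A.sum ≤ X.sum := by
  obtain ⟨C, rfl⟩ := Multiset.le_iff_exists_add.1 h
  simp

theorem le_of_small {A X Y : Multiset ℕ} {B : ℕ} (h : A ≤ X + Y) (hY : ∀ x ∈ Y, B ≤ x)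
    (hA : ∀ x ∈ A, x < B) : A ≤ X := by
  obtain ⟨A₁, h1, A₂, h2, rfl⟩ := le_split h
  rw [Multiset.eq_zero_of_forall_notMem fun x hx => (hY x (Multiset.mem_of_le h2 hx)).not_gt
    (hA x (Multiset.mem_add.2 (Or.inr hx))), add_zero]
  exact h1

theorem zero_of_sum {A : Multiset ℕ} (h : ∀ x ∈ A, 0 < x) (h0 : A.sum = 0) : A = 0 :=
  Multiset.eq_zero_of_forall_notMem fun x hx =>
    (h x hx).not_ge (h0 ▸ Multiset.le_sum_of_mem hx)

/-- The chain items. -/
abbrev Ch (N : ℕ) := (Fin N × Bool) ⊕ (Fin N × Bool) ⊕ Bool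

variable {N : ℕ}

/-- A function on chain items, by kind. -/
def tri (f g : Fin N × Bool → ℕ) (k : Bool → ℕ) : Ch N → ℕ
  | inl x => f x
  | inr (inl y) => g y
  | inr (inr s) => k s

/-- The mode digit. -/
def dA : Ch N → ℕ :=
  tri (fun x => x.2.toNat) (fun y => (!y.2).toNat) fun s => if s = true then N else 0

/-- The digits of chain items. -/
def cdigs : List (Ch N → ℕ) :=
  [dA, tri (fun x => x.1) 0 0, tri 0 (fun y => y.1) 0, tri 1 0 0, tri 0 1 0]

/-- A number with six digits above the lowest one. -/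
def hi (B a i j c d e : ℕ) : ℕ := B * (a + B * (i + B * (j + B * (c + B * (d + B * e)))))

variable (B : ℕ) (h : Bool → Fin N → ℕ)

/-- The size of a chain item. -/
def csz (τ : Ch N) : ℕ := tri (fun x => h (!x.2) x.1) 0 0 τ + B * hor B (tri 0 0 1) cdigs τ

/-- The bin of a chain item in mode `t`. -/
def cbox (t : Bool) : Ch N → Fin N ⊕ Bool
  | inl x => if x.2 = t then inl x.1 else inr true
  | inr (inl y) => if y.2 = t then inl y.1 else inr false
  | inr (inr s) => if s = t then inr true else inr false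

/-- The chain items of a bin. -/
def ccont (t : Bool) (b : Fin N ⊕ Bool) : Multiset (Ch N) := (univ.filter (cbox t · = b)).val

/-- The targets. -/
def ctg : Fin N ⊕ Bool → ℕ
  | inl j => h true j + h false j + hi B 1 j j 1 1 0
  | inr true => ∑ j, h true j + hi B N (∑ j : Fin N, j.val) 0 N 0 1
  | inr false => hi B N 0 (∑ j : Fin N, j.val) 0 N 1

theorem sum_ccont (t : Bool) (b : Fin N ⊕ Bool) (f : Ch N → ℕ) : ((ccont t b).map f).sum =
    match b with
    | inl j => f (inl (j, t)) + f (inr (inl (j, t)))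
    | inr true => ∑ j, f (inl (j, !t)) + f (inr (inr t))
    | inr false => ∑ j, f (inr (inl (j, !t))) + f (inr (inr (!t))) := by
  rw [ccont, ← Finset.sum_eq_multiset_sum, sum_filter]
  rcases b with j | _ | _ <;> cases t <;>
    simp [Fintype.sum_sum_type, Fintype.sum_prod_type, cbox]

theorem count_ccont (t : Bool) (b : Fin N ⊕ Bool) (τ : Ch N) :
    (ccont t b).count τ = if cbox t τ = b then 1 else 0 := by
  rw [ccont, Multiset.count_eq_of_nodup (Finset.nodup _)]
  simp

theorem sum_all (t : Bool) : ∑ b, ccont t b = (univ : Finset (Ch N)).val := by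
  ext τ
  rw [Multiset.count_sum', Multiset.count_eq_of_nodup (Finset.nodup _)]
  simp [count_ccont]

variable {B h}

theorem ctg_eq (hs : ∑ j, h true j = ∑ j, h false j) (t : Bool) (b : Fin N ⊕ Bool) :
    ctg B h b = Sum.elim (h t) 0 b + ((ccont t b).map (csz B h)).sum := by
  rw [sum_ccont]
  rcases b with j | _ | _ <;> cases t <;>
    simp [ctg, csz, tri, hor, cdigs, dA, hi, sum_add_distrib, ← mul_sum, hs] <;> ring

theorem le_csz (τ : Ch N) (hB : 0 < B) : B ≤ csz B h τ := by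
  refine le_add_left (Nat.le_mul_of_pos_right _ ?_)
  rcases τ with x | y | s <;> simp only [hor, cdigs, tri, Pi.one_apply, Pi.zero_apply] <;>
    positivity

theorem cdigs_le (hN : 0 < N) : ∀ f ∈ cdigs (N := N), ∀ τ, f τ ≤ N := by
  simp only [cdigs, List.forall_mem_cons]
  refine ⟨?_, ?_, ?_, ?_, ?_, by simp⟩ <;> rintro (x | y | s) <;> simp [dA, tri] <;>
    first | omega | exact (Bool.toNat_le _).trans hN | (split_ifs <;> omega)

theorem cdig (hN : 0 < N) (hB : (4 * N + 2) * (2 * N) < B) {S S' : Multiset (Ch N)} {x x' L : ℕ}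
    (hL : L + (∑ j, h true j + ∑ j, h false j) < B) (hS : S ≤ univ.val) (hS' : S' ≤ univ.val)
    (hx : x ≤ L) (hx' : x' ≤ L)
    (e : x + (S.map (csz B h)).sum = x' + (S'.map (csz B h)).sum) :
    (∀ f ∈ cdigs, (S.map f).sum = (S'.map f).sum) ∧
      (S.map (tri 0 0 1)).sum = (S'.map (tri 0 0 1)).sum := by
  have k : ∀ S : Multiset (Ch N), S ≤ univ.val →
      (S.map (tri (fun x => h (!x.2) x.1) 0 0)).sum ≤ ∑ j, h true j + ∑ j, h false j := by
    intro S hS
    refine (sum_le_of_le (Multiset.map_le_map hS)).trans_eq ?_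
    rw [← Finset.sum_eq_multiset_sum]
    simp [Fintype.sum_sum_type, Fintype.sum_prod_type, tri, sum_add_distrib, add_comm]
  have k1 := k S hS
  have k2 := k S' hS'
  unfold csz at e
  simp only [Multiset.sum_map_add, Multiset.sum_map_mul_left, ← add_assoc] at e
  have e1 := congrArg (· / B) e
  simp only [Nat.add_mul_div_left _ _ (by omega : 0 < B)] at e1
  rw [Nat.div_eq_of_lt (by omega), Nat.div_eq_of_lt (by omega), zero_add, zero_add] at e1
  have c : ∀ S : Multiset (Ch N), S ≤ univ.val → ∀ τ, S.count τ ≤ 2 := fun S hS τ =>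
    (Multiset.count_le_of_le τ hS).trans
      ((Multiset.nodup_iff_count_le_one.1 (Finset.nodup _) τ).trans one_le_two)
  have := digits' B N (tri 0 0 1) cdigs (cdigs_le hN)
    (by simpa [show N * 2 + (N * 2 + 2) = 4 * N + 2 by ring] using hB) S S' (c S hS) (c S' hS') 0
    (by simpa using e1)
  simpa only [← sum_map_count, add_zero] using this

theorem csz_inj (hN : 0 < N) (hB : (4 * N + 2) * (2 * N) < B)
    (hL : ∑ j, h true j + ∑ j, h false j < B) : Function.Injective (csz B h) := by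
  intro τ τ' e
  have := cdig (h := h) hN hB (S := {τ}) (S' := {τ'}) (x := 0) (x' := 0) (L := 0) (by omega)
    (Multiset.singleton_le.2 (mem_univ _)) (Multiset.singleton_le.2 (mem_univ _)) le_rfl le_rfl
    (by simpa using e)
  simp only [cdigs, List.forall_mem_cons, Multiset.map_singleton, Multiset.sum_singleton] at this
  obtain ⟨⟨h1, h2, h3, h4, h5, -⟩, h6⟩ := this
  rcases τ with ⟨j, s⟩ | ⟨j, s⟩ | s <;> rcases τ' with ⟨j', s'⟩ | ⟨j', s'⟩ | s' <;>
    cases s <;> cases s' <;> simp_all [dA, tri, Fin.ext_iff] <;> omega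

theorem ccont_le (t : Bool) (b : Fin N ⊕ Bool) : ccont t b ≤ univ.val :=
  val_le_iff.2 (subset_univ _)

theorem cbox_inj {τ τ' : Ch N} (h1 : cbox true τ = cbox true τ')
    (h2 : cbox false τ = cbox false τ') : τ = τ' := by
  rcases τ with ⟨j, s⟩ | ⟨j, s⟩ | s <;> rcases τ' with ⟨j', s'⟩ | ⟨j', s'⟩ | s' <;>
    cases s <;> cases s' <;> simp_all [cbox]

theorem cbox_hub (τ : Ch N) : (∃ s, cbox true τ = inr s) ∨ ∃ s, cbox false τ = inr s := by
  rcases τ with ⟨j, s⟩ | ⟨j, s⟩ | s <;> cases s <;> simp [cbox]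

theorem ctg_inj (hN : 0 < N) (hB : (4 * N + 2) * (2 * N) < B)
    (hs : ∑ j, h true j = ∑ j, h false j) (hL : 3 * ∑ j, h true j < B) :
    Function.Injective (ctg B h) := by
  intro b b' e
  have k : ∀ b : Fin N ⊕ Bool, Sum.elim (h true) 0 b ≤ ∑ j, h true j := by
    rintro (j | s)
    · exact single_le_sum (fun _ _ => Nat.zero_le _) (mem_univ j)
    · exact Nat.zero_le _
  rw [ctg_eq hs true, ctg_eq hs true] at e
  have := cdig hN hB (by omega) (ccont_le _ _) (ccont_le _ _) (k b) (k b') e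
  simp only [cdigs, List.forall_mem_cons, sum_ccont] at this
  obtain ⟨⟨-, h2, -, h4, -, -⟩, h6⟩ := this
  rcases b with j | _ | _ <;> rcases b' with j' | _ | _ <;>
    simp [tri, Fin.ext_iff] at h2 h4 h6 ⊢ <;> omega

theorem part_aux (hN : 0 < N) (b : Fin N ⊕ Bool) {S S' : Multiset (Ch N)}
    (hS : S ≤ ccont true b) (hS' : S' ≤ ccont false b)
    (e : (∀ f ∈ cdigs, (S.map f).sum = (S'.map f).sum) ∧
      (S.map (tri 0 0 1)).sum = (S'.map (tri 0 0 1)).sum) :
    (S = 0 ∧ S' = 0) ∨ (S = ccont true b ∧ S' = ccont false b) := by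
  simp only [cdigs, List.forall_mem_cons] at e
  obtain ⟨⟨h1, -, -, h4, h5, -⟩, h6⟩ := e
  have cd : ∀ S : Multiset (Ch N), S.card = (S.map (tri 1 0 0)).sum +
      (S.map (tri 0 1 0)).sum + (S.map (tri 0 0 1)).sum := fun S => by
    rw [← Multiset.sum_map_add, ← Multiset.sum_map_add, Multiset.map_congr rfl
      (g := fun _ => 1) (by rintro (x | y | s) - <;> rfl)]
    simp
  have k : ∀ {t} {S : Multiset (Ch N)}, S ≤ ccont t b → ∀ f g : Ch N → ℕ,
      (∀ τ, cbox t τ = b → f τ = g τ) → (S.map f).sum = (S.map g).sum :=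
    fun hS f g c => congrArg _ (Multiset.map_congr rfl fun τ hτ =>
      c τ (mem_filter.1 (Multiset.mem_of_le hS hτ)).2)
  have c1 := cd S
  have c2 := cd S'
  have c3 := cd (ccont true b)
  have c4 := cd (ccont false b)
  have c5 := Multiset.card_le_card hS
  suffices S.card = 0 ∨ S.card = (ccont true b).card ∧ (ccont true b).card = (ccont false b).card by
    rcases this with c | c
    · exact Or.inl ⟨Multiset.card_eq_zero.1 c, Multiset.card_eq_zero.1 (by omega)⟩
    · exact Or.inr ⟨Multiset.eq_of_le_of_card_le hS c.1.ge,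
        Multiset.eq_of_le_of_card_le hS' (by omega)⟩
  simp only [sum_ccont] at c3 c4
  rcases b with j | _ | _
  · have d1 := k hS dA (tri 1 0 0) (by
      rintro (⟨i, s⟩ | ⟨i, s⟩ | s) <;> cases s <;> simp [cbox, dA, tri])
    have d2 := k hS' dA (tri 0 1 0) (by
      rintro (⟨i, s⟩ | ⟨i, s⟩ | s) <;> cases s <;> simp [cbox, dA, tri])
    have d3 := k hS (tri 0 0 1) (fun _ => 0) (by
      rintro (⟨i, s⟩ | ⟨i, s⟩ | s) <;> cases s <;> simp [cbox, tri])
    simp [tri] at c3 c4
    rw [Multiset.sum_map_zero] at d3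
    omega
  · have d1 := k hS dA (tri 0 1 0) (by
      rintro (⟨i, s⟩ | ⟨i, s⟩ | s) <;> cases s <;> simp [cbox, dA, tri])
    have d2 := k hS' dA (fun τ => N * tri 0 0 1 τ) (by
      rintro (⟨i, s⟩ | ⟨i, s⟩ | s) <;> cases s <;> simp [cbox, dA, tri])
    have d3 := k hS (tri 1 0 0) (fun _ => 0) (by
      rintro (⟨i, s⟩ | ⟨i, s⟩ | s) <;> cases s <;> simp [cbox, tri])
    rw [Multiset.sum_map_mul_left, ← h6] at d2
    simp [tri] at c3 c4
    rw [Multiset.sum_map_zero] at d3
    generalize (S.map (tri 0 0 1)).sum = u at *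
    rcases u with _ | _ | u
    · omega
    · omega
    · nlinarith
  · have d1 := k hS dA (fun τ => N * tri 0 0 1 τ) (by
      rintro (⟨i, s⟩ | ⟨i, s⟩ | s) <;> cases s <;> simp [cbox, dA, tri])
    have d2 := k hS' dA (tri 1 0 0) (by
      rintro (⟨i, s⟩ | ⟨i, s⟩ | s) <;> cases s <;> simp [cbox, dA, tri])
    have d3 := k hS (tri 0 1 0) (fun _ => 0) (by
      rintro (⟨i, s⟩ | ⟨i, s⟩ | s) <;> cases s <;> simp [cbox, tri])
    rw [Multiset.sum_map_mul_left] at d1
    simp [tri] at c3 c4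
    rw [Multiset.sum_map_zero] at d3
    generalize (S.map (tri 0 0 1)).sum = u at *
    rcases u with _ | _ | u
    · omega
    · omega
    · nlinarith

theorem forced (S : Fin N ⊕ Bool → Multiset (Ch N)) (hS : ∑ b, S b = univ.val)
    (e : ∀ b, (∀ f ∈ cdigs, ((S b).map f).sum = ((ccont true b).map f).sum) ∧
      ((S b).map (tri 0 0 1)).sum = ((ccont true b).map (tri 0 0 1)).sum) :
    ∃ t, S = ccont t := by
  have c0 : ∀ τ, ∑ b, (S b).count τ = 1 := fun τ => by
    rw [← Multiset.count_sum', hS, Multiset.count_eq_one_of_mem (Finset.nodup _) (mem_univ τ)]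
  simp only [cdigs, List.forall_mem_cons, sum_ccont] at e
  simp only [sum_map_count, Fintype.sum_sum_type] at e c0
  have home : ∀ j, ∃ s, (∀ x, (S (inl j)).count (inl x) = if x = (j, s) then 1 else 0) ∧
      (∀ y, (S (inl j)).count (inr (inl y)) = if y = (j, s) then 1 else 0) ∧
      ∀ u, (S (inl j)).count (inr (inr u)) = 0 := fun j => by
    obtain ⟨⟨h1, h2, h3, h4, h5, -⟩, h6⟩ := e (inl j)
    simp [tri, dA] at h1 h2 h3 h4 h5 h6
    obtain ⟨⟨i, s⟩, hx⟩ := single_of_sum _ h4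
    obtain ⟨⟨i', s'⟩, hy⟩ := single_of_sum _ h5
    simp [hx, hy, Multiset.count_eq_zero.2 h6.1] at h1 h2 h3
    obtain rfl := Fin.ext h2
    obtain rfl := Fin.ext h3
    obtain rfl : s = s' := by cases s <;> cases s' <;> simp at h1 ⊢
    exact ⟨s, hx, hy, fun u => by cases u <;> simp [h6.1, h6.2]⟩
  choose s s1 s2 s3 using home
  obtain ⟨⟨a1, -, -, -, a5, -⟩, a6⟩ := e (inr true)
  obtain ⟨⟨-, -, -, b4, -, -⟩, -⟩ := e (inr false)
  simp only [tri, dA, Pi.one_apply, Pi.zero_apply, mul_one, mul_zero, sum_const_zero, add_zero,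
    zero_add, sum_eq_zero_iff, mem_univ, true_imp_iff] at a1 a5 a6 b4
  obtain ⟨t, ht⟩ := single_of_sum _ a6
  have c1 : ∀ x, (S (inr true)).count (inl x) = if x.2 = s x.1 then 0 else 1 := fun x => by
    have := c0 (inl x)
    simp only [s1, Fintype.sum_bool, b4, Prod.ext_iff, ite_and, sum_ite_eq, mem_univ,
      if_true] at this
    split_ifs at this ⊢ <;> omega
  have c2 : ∀ j, s j = t := by
    simp only [c1, a5, ht, zero_mul, sum_const_zero, Fintype.sum_prod_type, Fintype.sum_bool] at a1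
    cases t
    · intro j
      have := all_one (fun j => if true = s j then 0 else 1) (fun _ => 1)
        (fun j => by split_ifs <;> omega) (fun _ => one_pos) (by simpa using a1) j
      cases c : s j <;> simp [c] at this ⊢
    · intro j
      simp at a1
      exact a1 j
  refine ⟨t, funext fun b => Multiset.ext.2 fun τ => ?_⟩
  rw [count_ccont]
  have c3 := c0 τ
  obtain rfl : s = fun _ => t := funext c2
  rcases τ with ⟨i, u⟩ | ⟨i, u⟩ | u <;>
    simp only [s1, s2, s3, c1, a5, b4, ht, Fintype.sum_bool, Prod.ext_iff, ite_and,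
      sum_ite_eq, mem_univ, if_true, sum_const_zero] at c3 <;>
    rcases b with j | _ | _ <;> simp only [s1, s2, s3, c1, a5, b4, ht, cbox] <;>
    by_cases c : u = t <;> simp [c] at c3 ⊢ <;> exact c3

end Pool.Agent.Work.MP_84e666_co.NP
end

-- merged part: Pool.Agent.Work.MP_84e666_co.N.ChainMu
section
/-! The Möbius value of an instance with chain items. -/

namespace Pool.Agent.Work.MP_84e666_co.NP

open Finset Sum Pack

variable {N : ℕ}

/-- A packing of `Y` into the pure bins `R` and the named bins `g`. -/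
def NPk {ι : Type} [Fintype ι] (Y R : Multiset ℕ) (g : ι → ℕ) (Q : Multiset (Multiset ℕ))
    (V : ι → Multiset ℕ) : Prop :=
  Q.sum + ∑ j, V j = Y ∧ Q.map Multiset.sum = R ∧ ∀ j, (V j).sum = g j

/-- The hypotheses on the items other than the chain items. -/
structure ChH (Y R : Multiset ℕ) (h : Bool → Fin N → ℕ) (p : Bool → ℕ) (B : ℕ) : Prop where
  hN : 0 < N
  hB : (4 * N + 2) * (2 * N) < B
  hL : 3 * Y.sum < B
  hs : ∀ t, R.sum + ∑ j, h t j = Y.sum
  pos : ∀ x ∈ Y, 0 < x
  zero : ∀ j, h true j = 0 ∨ h false j = 0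
  pair : ∀ Q V Q' V', NPk Y R (h true) Q V → NPk Y R (h false) Q' V' →
    ∀ F ∈ Q + univ.val.map V, ∀ F' ∈ Q' + univ.val.map V', ∀ A, A ≤ F → A ≤ F' → A.card ≤ 1
  part : ∀ Q V Q' V', NPk Y R (h true) Q V → NPk Y R (h false) Q' V' → ∀ F ∈ Q, ∀ F' ∈ Q',
    F.sum = F'.sum → ∀ A ≤ F, ∀ A' ≤ F', A.sum = A'.sum → A.sum = 0 ∨ A.sum = F.sum
  apex : ∀ t Q V, NPk Y R (h t) Q V →
    (∀ F ∈ Q, p t ∈ F → F = Multiset.replicate 3 (p t)) ∧ ∀ j, p t ∉ V j
  cnt : ∀ t, Y.count (p t) = 3
  small : ∀ t, ∀ A ≤ Y, A.sum = p t → A = {p t}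
  top : ∀ t, R.count (3 * p t) ≤ 1

/-- Packings in mode `t`. -/
def CTy (Y R : Multiset ℕ) (h : Bool → Fin N → ℕ) (B : ℕ) (t : Bool)
    (P : Multiset (Multiset ℕ)) : Prop :=
  ∃ Q V, NPk Y R (h t) Q V ∧
    P = Q + univ.val.map fun b => Sum.elim V 0 b + (ccont t b).map (csz B h)

variable {Y R : Multiset ℕ} {h : Bool → Fin N → ℕ} {p : Bool → ℕ} {B : ℕ}

theorem filter_sum' (q : ℕ → Prop) [DecidablePred q] (P : Multiset (Multiset ℕ)) :
    P.sum.filter q = (P.map (Multiset.filter q)).sum := by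
  induction P using Multiset.induction_on with
  | empty => rfl
  | cons a P ih => simp [ih]

theorem NPk.le {ι : Type} [Fintype ι] {g : ι → ℕ} {Q : Multiset (Multiset ℕ)}
    {V : ι → Multiset ℕ} (a : NPk Y R g Q V) : (∀ F ∈ Q, F ≤ Y) ∧ ∀ j, V j ≤ Y :=
  ⟨fun _ hF => a.1 ▸ (le_sum_of_mem' hF).trans (Multiset.le_add_right _ _), fun j => a.1 ▸
    (single_le_sum (fun _ _ => Multiset.zero_le _) (mem_univ j)).trans (Multiset.le_add_left _ _)⟩

theorem ChH.hs' (H : ChH Y R h p B) : ∑ j, h true j = ∑ j, h false j := by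
  have := H.hs true
  have := H.hs false
  omega

theorem ChH.big (H : ChH Y R h p B) {S : Multiset (Ch N)} : ∀ x ∈ S.map (csz B h), B ≤ x := by
  intro x hx
  obtain ⟨τ, -, rfl⟩ := Multiset.mem_map.1 hx
  exact le_csz τ ((Nat.zero_le _).trans_lt H.hL)

theorem ChH.lt (H : ChH Y R h p B) {A : Multiset ℕ} (hA : A ≤ Y) : ∀ x ∈ A, x < B := by
  intro x hx
  have := Multiset.le_sum_of_mem (Multiset.mem_of_le hA hx)
  have := H.hL
  omega

theorem ChH.le_tg (H : ChH Y R h p B) (b : Fin N ⊕ Bool) : B ≤ ctg B h b := by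
  have h0 : 0 < B := (Nat.zero_le _).trans_lt H.hL
  rw [ctg_eq H.hs' true, sum_ccont]
  rcases b with j | _ | _
  exacts [le_add_left (le_add_left (le_csz _ h0)), le_add_left (le_add_left (le_csz _ h0)),
    le_add_left (le_add_left (le_csz _ h0))]

theorem ChH.elim (H : ChH Y R h p B) {t : Bool} {Q : Multiset (Multiset ℕ)}
    {V : Fin N → Multiset ℕ} (a : NPk Y R (h t) Q V) (b : Fin N ⊕ Bool) :
    Sum.elim V 0 b ≤ Y ∧ (Sum.elim V 0 b).sum = Sum.elim (h t) 0 b ∧
      (Sum.elim V 0 b + (ccont t b).map (csz B h)).sum = ctg B h b := by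
  rw [ctg_eq H.hs' t, Multiset.sum_add]
  rcases b with j | s
  · exact ⟨a.le.2 j, a.2.2 j, congrArg (· + _) (a.2.2 j)⟩
  · exact ⟨Multiset.zero_le _, rfl, rfl⟩

theorem ChH.pk (H : ChH Y R h p B) {t : Bool} {P : Multiset (Multiset ℕ)} (a : CTy Y R h B t P) :
    Pk (Y + univ.val.map (csz B h)) (R + univ.val.map (ctg B h)) P := by
  obtain ⟨Q, V, a, rfl⟩ := a
  refine ⟨?_, ?_⟩
  · rw [Multiset.sum_add, ← Finset.sum_eq_multiset_sum, sum_add_distrib, ← map_sum', sum_all,
      ← a.1, add_assoc]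
    simp [Fintype.sum_sum_type]
  · rw [Multiset.map_add, a.2.1, Multiset.map_map]
    exact congrArg _ (Multiset.map_congr rfl fun b _ => (H.elim a b).2.2)

theorem ChH.cover (H : ChH Y R h p B) {P : Multiset (Multiset ℕ)}
    (a : Pk (Y + univ.val.map (csz B h)) (R + univ.val.map (ctg B h)) P) :
    ∃ t, CTy Y R h B t P := by
  obtain ⟨Q, P₂, rfl, a1, a2⟩ := split_map _ a.2
  obtain ⟨W, rfl, hW⟩ := exists_fun _ _ univ a2
  have a3 := a.1
  have hL := H.hL
  rw [Multiset.sum_add, ← Finset.sum_eq_multiset_sum] at a3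
  have q1 : ∀ x ∈ Q.sum, x < B := fun x hx => by
    obtain ⟨F, hF, hx⟩ := Multiset.mem_join.1 hx
    have := Multiset.le_sum_of_mem hx
    have := Multiset.le_sum_of_mem (a1 ▸ Multiset.mem_map_of_mem Multiset.sum hF)
    have := H.hs true
    omega
  have q2 := congrArg (Multiset.filter (· < B)) a3
  have q3 := congrArg (Multiset.filter fun x => ¬ x < B) a3
  rw [Multiset.filter_add, Multiset.filter_add, Multiset.filter_eq_self.2 q1,
    Multiset.filter_eq_self.2 (H.lt le_rfl),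
    Multiset.filter_eq_nil.2 fun x hx => (H.big x hx).not_gt, add_zero,
    Finset.sum_eq_multiset_sum, filter_sum', Multiset.map_map, ← Finset.sum_eq_multiset_sum] at q2
  rw [Multiset.filter_add, Multiset.filter_add,
    Multiset.filter_eq_nil.2 fun x hx => not_not.2 (q1 x hx),
    Multiset.filter_eq_nil.2 fun x hx => not_not.2 (H.lt le_rfl x hx),
    Multiset.filter_eq_self.2 fun x hx => (H.big x hx).not_gt, zero_add, zero_add,
    Finset.sum_eq_multiset_sum, filter_sum', Multiset.map_map, ← Finset.sum_eq_multiset_sum] at q3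
  obtain ⟨S, s1, s2⟩ := lift_fun _ q3
  simp only [Function.comp] at q2 s2
  have e1 : ∀ b, W b = (W b).filter (· < B) + (S b).map (csz B h) := fun b => by
    rw [s2, Multiset.filter_add_not]
  have e2 : ∀ b, ((W b).filter (· < B)).sum + ((S b).map (csz B h)).sum = ctg B h b := fun b => by
    rw [← Multiset.sum_add, ← e1, hW b (mem_univ b)]
  have e3 : ∀ b, (W b).filter (· < B) ≤ Y := fun b => q2 ▸ (single_le_sum
    (f := fun b => (W b).filter (· < B)) (fun _ _ => Multiset.zero_le _) (mem_univ b)).trans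
      (Multiset.le_add_left _ _)
  obtain ⟨t, rfl⟩ := forced S s1 fun b => by
    have := H.hs true
    have := H.hs false
    refine cdig H.hN H.hB (L := Y.sum) (by omega) (s1 ▸ single_le_sum
      (fun _ _ => Multiset.zero_le _) (mem_univ b)) (ccont_le _ _) (sum_le_of_le (e3 b)) ?_
      ((e2 b).trans (ctg_eq H.hs' true b))
    rcases b with j | s
    · exact (single_le_sum (fun _ _ => Nat.zero_le _) (mem_univ j)).trans (by omega)
    · exact Nat.zero_le _
  have e4 : ∀ b, ((W b).filter (· < B)).sum = Sum.elim (h t) 0 b := fun b =>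
    Nat.add_right_cancel ((e2 b).trans (ctg_eq H.hs' t b))
  have e5 : ∀ s, (W (inr s)).filter (· < B) = 0 := fun s =>
    zero_of_sum (fun x hx => H.pos x (Multiset.mem_of_le (e3 _) hx)) (e4 _)
  refine ⟨t, Q, fun j => (W (inl j)).filter (· < B), ⟨?_, a1, fun j => e4 _⟩,
    congrArg _ (Multiset.map_congr rfl fun b _ => (e1 b).trans ?_)⟩
  · rw [← q2]
    simp [Fintype.sum_sum_type, e5]
  · rcases b with j | s
    · rfl
    · rw [e5]
      rfl

theorem ChH.block {t : Bool} {Q : Multiset (Multiset ℕ)} {V : Fin N → Multiset ℕ} {F : Multiset ℕ}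
    (hF : F ∈ Q + univ.val.map fun b => Sum.elim V 0 b + (ccont t b).map (csz B h)) :
    F ∈ Q ∨ ∃ b, F = Sum.elim V 0 b + (ccont t b).map (csz B h) :=
  (Multiset.mem_add.1 hF).imp_right fun c => by
    obtain ⟨b, -, e⟩ := Multiset.mem_map.1 c
    exact ⟨b, e.symm⟩

theorem ChH.low (H : ChH Y R h p B) {t : Bool} {Q : Multiset (Multiset ℕ)}
    {V : Fin N → Multiset ℕ} {F A : Multiset ℕ}
    (hF : F ∈ Q + univ.val.map fun b => Sum.elim V 0 b + (ccont t b).map (csz B h)) (hA : A ≤ F)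
    (hs : ∀ x ∈ A, x < B) : A = 0 ∨ ∃ F₀ ∈ Q + univ.val.map V, A ≤ F₀ := by
  rcases ChH.block hF with c | ⟨b, rfl⟩
  · exact Or.inr ⟨F, Multiset.mem_add.2 (Or.inl c), hA⟩
  · have := le_of_small hA H.big hs
    rcases b with j | s
    · exact Or.inr ⟨_, Multiset.mem_add.2 (Or.inr (Multiset.mem_map_of_mem _ (mem_univ j))), this⟩
    · exact Or.inl (Multiset.le_zero.1 this)

theorem ChH.high (H : ChH Y R h p B) {t : Bool} {Q : Multiset (Multiset ℕ)}
    {V : Fin N → Multiset ℕ} (a : NPk Y R (h t) Q V) {F : Multiset ℕ}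
    (hF : F ∈ Q + univ.val.map fun b => Sum.elim V 0 b + (ccont t b).map (csz B h)) {x : ℕ}
    (hx : x ∈ F) (hB : B ≤ x) : ∃ b, F = Sum.elim V 0 b + (ccont t b).map (csz B h) ∧
      ∀ y ∈ F, B ≤ y → ∃ τ, cbox t τ = b ∧ csz B h τ = y := by
  rcases ChH.block hF with c | ⟨b, rfl⟩
  · exact absurd (H.lt (a.le.1 F c) x hx) hB.not_gt
  · refine ⟨b, rfl, fun y hy hB => ?_⟩
    obtain ⟨τ, c, e⟩ := Multiset.mem_map.1 ((Multiset.mem_add.1 hy).resolve_left fun c =>
      hB.not_gt (H.lt (H.elim a b).1 y c))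
    exact ⟨τ, (mem_filter.1 c).2, e⟩

theorem ChH.two (H : ChH Y R h p B) :
    TwoT (Y + univ.val.map (csz B h)) (R + univ.val.map (ctg B h)) (CTy Y R h B) p := by
  have hL := H.hL
  have s1 := H.hs true
  have s2 := H.hs false
  have inj : Function.Injective (csz B h) := csz_inj H.hN H.hB (by omega)
  have hp : ∀ t, 3 * p t ≤ Y.sum := fun t => by
    have := sum_le_of_le (Multiset.le_count_iff_replicate_le.1 (H.cnt t).ge)
    rwa [Multiset.sum_replicate] at this
  refine ⟨fun P a => ?_, ?_, ?_, ?_, fun t => ?_, fun t A hA e => ?_, fun t => ?_⟩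
  · obtain ⟨t, c⟩ := H.cover a
    cases t
    exacts [Or.inr c, Or.inl c]
  · rintro _ _ - - ⟨Q, V, a, rfl⟩ ⟨Q', V', a', rfl⟩ F hF F' hF' A hA hA'
    by_cases c : ∀ x ∈ A, x < B
    · rcases H.low hF hA c with rfl | ⟨F₀, c1, c2⟩
      · simp
      rcases H.low hF' hA' c with rfl | ⟨F₁, c3, c4⟩
      · simp
      exact H.pair Q V Q' V' a a' F₀ c1 F₁ c3 A c2 c4
    push Not at c
    obtain ⟨x, hx, hB⟩ := c
    obtain ⟨b, e, c1⟩ := H.high a hF (Multiset.mem_of_le hA hx) hB
    obtain ⟨b', e', c2⟩ := H.high a' hF' (Multiset.mem_of_le hA' hx) hB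
    have k : ∀ y ∈ A, B ≤ y → ∃ τ, cbox true τ = b ∧ cbox false τ = b' ∧ csz B h τ = y :=
      fun y hy hB => by
        obtain ⟨τ, d1, d2⟩ := c1 y (Multiset.mem_of_le hA hy) hB
        obtain ⟨τ', d3, d4⟩ := c2 y (Multiset.mem_of_le hA' hy) hB
        obtain rfl := inj (d2.trans d4.symm)
        exact ⟨τ, d1, d3, d2⟩
    obtain ⟨τ, d1, d2, d3⟩ := k x hx hB
    obtain ⟨S, hS, hA⟩ : ∃ S : Multiset (Ch N), S.Nodup ∧ A ≤ S.map (csz B h) := by
      rcases cbox_hub τ with ⟨s, c⟩ | ⟨s, c⟩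
      · refine ⟨ccont true b, Finset.nodup _, ?_⟩
        rw [e, ← d1, c] at hA
        rwa [← d1, c, ← zero_add (Multiset.map _ _)]
      · refine ⟨ccont false b', Finset.nodup _, ?_⟩
        rw [e', ← d2, c] at hA'
        rwa [← d2, c, ← zero_add (Multiset.map _ _)]
    rw [← (Multiset.count_eq_card (a := x)).2 fun y hy => ?_]
    · exact Multiset.nodup_iff_count_le_one.1 (Multiset.nodup_of_le hA (hS.map inj)) x
    · obtain ⟨τ', d4, d5, d6⟩ := k y hy (H.big y (Multiset.mem_of_le hA hy))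
      rw [← d3, ← d6, cbox_inj (d1.trans d4.symm) (d2.trans d5.symm)]
  · rintro _ _ - - ⟨Q, V, a, rfl⟩ ⟨Q', V', a', rfl⟩ F hF F' hF' e A hA A' hA' e'
    rcases ChH.block hF with c | ⟨b, rfl⟩ <;> rcases ChH.block hF' with c' | ⟨b', rfl⟩
    · exact H.part Q V Q' V' a a' F c F' c' e A hA A' hA' e'
    · have := sum_le_of_le (a.le.1 F c)
      have := H.le_tg b'
      have := (H.elim a' b').2.2
      omega
    · have := sum_le_of_le (a'.le.1 F' c')
      have := H.le_tg b
      have := (H.elim a b).2.2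
      omega
    obtain ⟨f1, f2, f3⟩ := H.elim a b
    obtain ⟨g1, g2, g3⟩ := H.elim a' b'
    obtain rfl := ctg_inj H.hN H.hB H.hs' (by omega) (f3.symm.trans (e.trans g3))
    obtain ⟨A₁, c1, A₂, c2, rfl⟩ := le_split hA
    obtain ⟨A₃, c3, A₄, c4, rfl⟩ := le_split hA'
    obtain ⟨S, c5, rfl⟩ := lift_le _ c2
    obtain ⟨S', c6, rfl⟩ := lift_le _ c4
    have d1 := sum_le_of_le c1
    have d2 := sum_le_of_le c3
    have d3 : (Sum.elim V 0 b).sum = 0 ∨ (Sum.elim V' 0 b).sum = 0 := by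
      rw [f2, g2]
      rcases b with j | s
      exacts [H.zero j, Or.inl rfl]
    simp only [Multiset.sum_add] at e e' ⊢
    rcases part_aux H.hN b c5 c6 (cdig H.hN H.hB (L := Y.sum) (by omega)
      (c5.trans (ccont_le _ _)) (c6.trans (ccont_le _ _)) (sum_le_of_le (c1.trans f1))
      (sum_le_of_le (c3.trans g1)) e') with ⟨rfl, rfl⟩ | ⟨rfl, rfl⟩
    · simp only [Multiset.map_zero, Multiset.sum_zero] at e' ⊢
      omega
    · omega
  · rintro t _ - ⟨Q, V, a, rfl⟩ F hF hp'
    rcases ChH.block hF with c | ⟨b, rfl⟩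
    · exact (H.apex t Q V a).1 F c hp'
    · have := hp t
      rcases Multiset.mem_add.1 hp' with c | c
      · rcases b with j | s
        exacts [absurd c ((H.apex t Q V a).2 j), absurd c (Multiset.notMem_zero _)]
      · have := H.big _ c
        omega
  · rw [Multiset.count_add, H.cnt, Multiset.count_eq_zero.2 fun c => by
      have := H.big _ c
      have := hp t
      omega]
  · refine H.small t A (le_of_small hA H.big fun x hx => ?_) e
    have := Multiset.le_sum_of_mem hx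
    have := hp t
    omega
  · rw [Multiset.count_add, (Multiset.count_eq_zero (s := Multiset.map _ _)).2 fun c => by
      obtain ⟨b, -, e⟩ := Multiset.mem_map.1 c
      have := H.le_tg b
      have := hp t
      omega]
    exact H.top t

theorem refines_iff {ι : Type} [Fintype ι] {g : ι → ℕ} :
    Refines Y (R + univ.val.map g) ↔ ∃ Q V, NPk Y R g Q V := by
  constructor
  · rintro ⟨P, a, b⟩
    obtain ⟨Q, P₂, rfl, a1, a2⟩ := split_map _ b
    obtain ⟨W, rfl, hW⟩ := exists_fun _ _ univ a2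
    exact ⟨Q, W, by rw [← a, Multiset.sum_add]; rfl, a1, fun j => hW j (mem_univ j)⟩
  · rintro ⟨Q, V, a, b, c⟩
    refine ⟨Q + univ.val.map V, by rw [← a, Multiset.sum_add]; rfl, ?_⟩
    rw [Multiset.map_add, b, Multiset.map_map]
    exact congrArg _ (Multiset.map_congr rfl fun j _ => c j)

theorem ChH.refines (H : ChH Y R h p B) {t : Bool} (a : Refines Y (R + univ.val.map (h t))) :
    Refines (Y + univ.val.map (csz B h)) (R + univ.val.map (ctg B h)) := by
  obtain ⟨Q, V, a⟩ := refines_iff.1 a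
  exact ⟨_, H.pk ⟨Q, V, a, rfl⟩⟩

open Classical in
theorem chain_mu (H : ChH Y R h p B) {n : ℕ} {μ : n.Partition → n.Partition → ℤ}
    (hμ : IsMobius μ) {y r : n.Partition} (hy : y.parts = Y + univ.val.map (csz B h))
    (hr : r.parts = R + univ.val.map (ctg B h)) (hyr : Refines y.parts r.parts) :
    μ y r = if ∀ t, Refines Y (R + univ.val.map (h t)) then 1 else 0 := by
  rw [two_type hμ (hy ▸ hr ▸ H.two) hyr, hy, hr]
  refine if_congr (forall_congr' fun t => ?_) rfl rfl
  rw [refines_iff]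
  exact ⟨fun ⟨_, _, Q, V, a, _⟩ => ⟨Q, V, a⟩,
    fun ⟨Q, V, a⟩ => ⟨_, H.pk ⟨Q, V, a, rfl⟩, Q, V, a, rfl⟩⟩

end Pool.Agent.Work.MP_84e666_co.NP
end
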