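import Pool.Agent.Work.MP_84e666_co.H45Sharp

namespace Pool.Agent.Work.MP_84e666_co

/-- `f` lies in the counting class sharp-NP: `f x` is the number of strings `w` of length `p |x|`
for which some string `v` of length `q |x|` makes a polynomial-time verifier accept `(x, w, v)`. -/
def IsSharpNP (f : List Bool → ℕ) : Prop :=
  ∃ (p q : Polynomial ℕ) (R : List Bool × List Bool × List Bool → Bool), N68a2faeb.IsPolyTime R ∧
    ∀ x, f x = (Finset.univ.filter fun w : Fin (p.eval x.length) → Bool =>
      ∃ v : Fin (q.eval x.length) → Bool, R (x, List.ofFn w, List.ofFn v) = true).card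

end Pool.Agent.Work.MP_84e666_co
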