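import Pool.Agent.Work.MP_84e666_co.N.Tok
import Pool.Agent.Work.MP_84e666_co.N.Apex
import Pool.Agent.Work.MP_84e666_co.H45Gap
import Pool.Agent.Lib.Poly.Arith
import Pool.Agent.Work.MP_84e666_co.H45Sharp
import Pool.Agent.Work.MP_32aa60_lc.H39Bridge
import Pool.Agent.Lib.Cx.CookLevinPure
import Pool.Agent.Work.MP_84e666_co.N.Sharp

-- merged part: Pool.Agent.Work.MP_84e666_co.N.Box
section
/-! The possible contents of each bin. -/

namespace Pool.Agent.Work.MP_84e666_co.NP

open Finset Sum Pack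

variable {n m : ℕ} {a : ℕ → ℕ → Bool → ℕ} {b : ℕ → ℕ} {M B K : ℕ}

theorem dig (hB : Fintype.card (Tk n m) * (10 * (2 * n + m + 1) ^ 2) < B)
    (c c' : Tk n m → ℕ) (h1 : ∀ τ, c τ ≤ 1) (h2 : ∀ τ, c' τ ≤ 1) (k : ℕ)
    (h : ∑ τ, c τ * sz a M B τ = ∑ τ, c' τ * sz a M B τ + 131 * (B ^ 10 * k)) :
    (∀ f ∈ dgs, ∑ τ, c τ * f τ = ∑ τ, c' τ * f τ) ∧
      ∑ τ, c τ * tp a M τ = ∑ τ, c' τ * tp a M τ + k := by
  have e : ∀ c : Tk n m → ℕ, (∀ τ, c τ ≤ 1) → ∀ f ∈ dgs, ∑ τ, c τ * f τ < B :=
    fun c hc f hf => lt_of_le_of_lt (sum_le_card_nsmul _ _ _ fun τ _ =>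
      (Nat.mul_le_mul (hc τ) (dgs_le f hf τ)).trans_eq (one_mul _)) hB
  refine digits B _ _ _ k dgs (fun f hf => ⟨e c h1 f hf, e c' h2 f hf⟩) ?_
  simp only [sz, mul_left_comm _ 131, ← mul_sum, ← mul_add] at h
  exact Nat.eq_of_mul_eq_mul_left (by norm_num) h

theorem link_part (hM : ∀ l : Fin n × Bool, ∑ e : Fin m, (a e l.1 l.2 + 1) = M)
    (l : Fin n × Bool) (c : Fin m × (Fin n × Bool) × Bool → ℕ) (h1 : ∀ x, c x ≤ 1)
    (d1 : ∑ x, c x = m) (d4 : ∑ x, c x * code x.2.1 = m * code l)
    (d5 : ∑ x, c x * code x.2.1 ^ 2 = m * code l ^ 2) (σ : Bool)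
    (ht : ∑ x, c x * (if x.2.2 = true then a x.1 x.2.1.1 x.2.1.2 + 1 else 0) +
      σ.toNat * M = M) (x) : c x = if x.2 = (l, !σ) then 1 else 0 := by
  have hc : ∀ (e : Fin m) l' s, l' ≠ l → c (e, l', s) = 0 := fun e l' s hne =>
    cauchy c (fun x => code x.2.1) m (code l) d1 d4 d5 (e, l', s) fun h => hne (code_inj h)
  have hs : ∀ g : Fin m × (Fin n × Bool) × Bool → ℕ, ∑ x, c x * g x =
      ∑ e, c (e, l, true) * g (e, l, true) + ∑ e, c (e, l, false) * g (e, l, false) := fun g => by
    rw [Fintype.sum_prod_type, ← sum_add_distrib]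
    refine sum_congr rfl fun e _ => ?_
    rw [Fintype.sum_prod_type, sum_eq_single l (fun l' _ hne => by simp [hc e l' _ hne]) (by simp),
      Fintype.sum_bool]
  have d1' := hs fun _ => 1
  rw [hs] at ht
  simp only [mul_one, d1, if_true, Bool.false_eq_true, if_false, mul_zero, sum_const_zero,
    add_zero] at d1' ht
  have key : ∀ e, c (e, l, σ) = 0 ∧ c (e, l, !σ) = 1 := by
    cases σ
    · have k1 := all_one _ (fun e : Fin m => a e l.1 l.2 + 1) (fun e => h1 (e, l, true))
        (fun _ => Nat.succ_pos _) (by simpa [hM] using ht)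
      simp only [k1, sum_const, card_univ, Fintype.card_fin, smul_eq_mul, mul_one, left_eq_add,
        sum_eq_zero_iff, mem_univ, true_imp_iff] at d1'
      exact fun e => ⟨d1' e, k1 e⟩
    · have k1 : ∀ e, c (e, l, true) = 0 := by simpa using ht
      simp only [k1, sum_const_zero, zero_add] at d1'
      exact fun e => ⟨k1 e, all_one _ (fun _ : Fin m => 1) (fun e => h1 (e, l, false))
        (fun _ => one_pos) (by simpa using d1'.symm) e⟩
  obtain ⟨e, l', s⟩ := x
  by_cases hl : l' = l
  · subst hl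
    have := key e
    revert this
    cases s <;> cases σ <;> simp +contextual
  · simp [hc e l' s hl, hl]

theorem gad_part (v : Fin n) (c : Fin n × Fin 7 → ℕ) (h1 : ∀ g, c g ≤ 1) (G : ℕ)
    (d1 : ∑ g, c g * gv g.2 = G) (d2 : ∑ g, c g * (gv g.2 * g.1.val) = G * v)
    (d3 : ∑ g, c g * (gv g.2 * g.1.val ^ 2) = G * v ^ 2) :
    ∃ s, c = gi v s ∧ ∑ k ∈ s, gv k = G := by
  have e : c = gi v (univ.filter fun k => c (v, k) = 1) := funext fun ⟨v', k⟩ => by
    have := h1 (v', k)
    by_cases hv : v' = v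
    · subst hv
      simp only [gi, if_true, mem_filter, mem_univ, true_and]
      split_ifs <;> omega
    · have := cauchy (fun g => c g * gv g.2) (fun g => g.1.val) G v d1
        (by simpa only [mul_assoc] using d2) (by simpa only [mul_assoc] using d3) (v', k)
        fun h => hv (Fin.ext h)
      simpa [gi, hv, (gv_pos k).1.ne'] using this
  refine ⟨_, e, ?_⟩
  rw [← d1, e, sum_gi]
  simp only [← e]

theorem gad_zero (c : Fin n × Fin 7 → ℕ) (d1 : ∑ g, c g * gv g.2 = 0) (g) : c g = 0 := by
  simpa [(gv_pos g.2).1.ne'] using sum_eq_zero_iff.1 d1 g (mem_univ g)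

theorem sw_part (v : Fin n) (c : Fin n × Bool → ℕ) (d1 : ∑ y, c y = 1)
    (d2 : ∑ y, c y * y.1.val = v) : ∃ σ, ∀ y, c y = if y = (v, σ) then 1 else 0 := by
  obtain ⟨⟨v', σ⟩, hy⟩ := single_of_sum _ d1
  simp only [hy, ite_mul, one_mul, zero_mul, sum_ite_eq', mem_univ, if_true] at d2
  exact ⟨σ, Fin.ext d2 ▸ hy⟩

theorem gv_row : ∀ s β, ∑ k ∈ row s β, gv k = rs β := by decide

theorem gv_col : ∀ s β, ∑ k ∈ col s β, gv k = cs β := by decide

theorem hv_row : ∀ s β, ∑ k ∈ row s β, (hv k).toNat = (s == β).toNat := by decide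

theorem hvs_row : ∀ s β, hvs (row s β) = (s == β) := by decide

theorem gi_le (v : Fin n) (s : Finset (Fin 7)) (g) : gi v s g ≤ 1 := by
  unfold gi
  split_ifs <;> omega

theorem gi_empty (v : Fin n) : gi v ∅ = 0 := funext fun g => by simp [gi]

theorem c1_le (z : Fin n → Bool) (l) (τ : Tk n m) : c1 K z (inl l) τ ≤ 1 := by
  rcases τ with x | y | g <;> simp only [c1, tr, ite_apply, Pi.zero_apply] <;> split_ifs <;>
    first | omega | exact gi_le _ _ _

theorem lit_box (hB : Fintype.card (Tk n m) * (10 * (2 * n + m + 1) ^ 2) < B)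
    (hM : ∀ l : Fin n × Bool, ∑ e : Fin m, (a e l.1 l.2 + 1) = M)
    (l : Fin n × Bool) (c : Tk n m → ℕ) (h1 : ∀ τ, c τ ≤ 1)
    (h : ∑ τ, c τ * sz a M B τ = t1 b M B K (inl l : Box n m)) :
    ∃ σ s, (∀ x, c (inl x) = if x.2 = (l, !σ) then 1 else 0) ∧
      (∀ y, c (inr (inl y)) = if l.1.val < K then 0 else if y = (l.1, σ) then 1 else 0) ∧
      (∀ g, c (inr (inr g)) = gi l.1 s g) ∧
      if l.1.val < K then ∑ k ∈ s, gv k = rs l.2 ∧ hvs s = σ else s = ∅ := by
  have e0 : tv (fun _ => l.2) l = true := by simp [tv]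
  have e1 : t1 b M B K (inl l : Box n m) =
      ∑ τ, c1 (m := m) K (fun _ => l.2) (inl l) τ * sz a M B τ + 131 * (B ^ 10 * 0) := by
    rw [sum_c1l, t1, e0]
    simp [sz_link, sz_sw, sum_row]
  obtain ⟨hd, ht⟩ := dig hB c _ h1 (c1_le _ _) 0 (h.trans e1)
  simp only [dgs, List.forall_mem_cons, sum_c1l, e0] at hd ht
  simp only [Fintype.sum_sum_type, tr, tp, ← sum_mul, gv_row, hv_row,
    Pi.zero_apply, Pi.one_apply, mul_zero, mul_one, sum_const_zero, add_zero, zero_add, ite_self,
    sum_const, card_univ, Fintype.card_fin, smul_eq_mul, Bool.not_true, Bool.false_eq_true,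
    if_false, if_true, beq_self_eq_true, Bool.toNat_true, one_mul] at hd ht
  obtain ⟨d0, d1, d2, d3, d4, -, -, d7, d8, d9, -⟩ := hd
  split_ifs at d1 d2 d7 d8 d9 ⊢ with hK
  · obtain ⟨s, hs, hs'⟩ := gad_part l.1 (fun g => c (inr (inr g))) (fun _ => h1 _) _ d7 d8 d9
    have k2 : ∀ y, c (inr (inl y)) = 0 := by simpa using d1
    have k3 : ∀ g, c (inr (inr g)) = gi l.1 s g := congrFun hs
    simp only [k2, k3, sum_gi, ← sum_mul, row_hv _ _ hs', zero_mul, sum_const_zero,
      zero_add] at ht
    exact ⟨_, s, link_part hM l _ (fun _ => h1 _) d0 d3 d4 _ ht, k2, k3, hs', rfl⟩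
  · obtain ⟨σ, hσ⟩ := sw_part l.1 (fun y => c (inr (inl y))) d1 d2
    have k3 := gad_zero (fun g => c (inr (inr g))) d7
    simp only [hσ, k3, zero_mul, sum_const_zero, add_zero, ite_mul, one_mul, sum_ite_eq',
      mem_univ, if_true] at ht
    refine ⟨σ, ∅, link_part hM l _ (fun _ => h1 _) d0 d3 d4 σ ?_, hσ, by simpa [gi] using k3, rfl⟩
    cases σ <;> simpa using ht

theorem eqn_box (hB : Fintype.card (Tk n m) * (10 * (2 * n + m + 1) ^ 2) < B)
    (e : Fin m) (c : Tk n m → ℕ) (h1 : ∀ τ, c τ ≤ 1)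
    (h : ∑ τ, c τ * sz a M B τ = t1 b M B K (inr e : Box n m)) :
    (∀ x, x.1 ≠ e → c (inl x) = 0) ∧ (∀ y, c (inr y) = 0) ∧
      ∑ x, c (inl x) * (if x.2.2 = true then a x.1 x.2.1.1 x.2.1.2 + 1 else 0) = b e + n := by
  let c' : Tk n m → ℕ := tr (fun x => if x.1 = e then (if x.2.2 = false then 1 else 0) else 0) 0 0
  have e0 : ∀ f : Tk n m → ℕ, ∑ τ, c' τ * f τ = ∑ l, f (inl (e, l, false)) := fun f => by
    simp only [c', Fintype.sum_sum_type, tr, ite_mul, one_mul, zero_mul, Pi.zero_apply,
      Fintype.sum_prod_type (α₁ := Fin m), Fintype.sum_prod_type (α₁ := Fin n × Bool), sum_ite_eq',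
      mem_univ, if_true, sum_ite_irrel, sum_const_zero, add_zero]
  have e1 : t1 b M B K (inr e : Box n m) = ∑ τ, c' τ * sz a M B τ + 131 * (B ^ 10 * (b e + n)) := by
    rw [e0, t1]
    simp [sz_link]
  obtain ⟨hd, ht⟩ := dig hB c c' h1 (by
    rintro (x | y | g) <;> simp only [c', tr, Pi.zero_apply, Nat.zero_le]
    split_ifs <;> omega) _ (h.trans e1)
  simp only [dgs, List.forall_mem_cons, e0] at hd ht
  simp only [Fintype.sum_sum_type, tr, tp, Pi.zero_apply, Pi.one_apply, mul_zero, mul_one,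
    sum_const_zero, add_zero, zero_add, sum_const, smul_eq_mul, Bool.false_eq_true,
    if_false] at hd ht
  obtain ⟨d0, d1, -, -, -, d5, d6, d7, -⟩ := hd
  have k2 : ∀ y, c (inr (inl y)) = 0 := by simpa using d1
  have k3 := gad_zero (fun g => c (inr (inr g))) d7
  refine ⟨fun x hx => cauchy (fun x => c (inl x)) (fun x => x.1.val) _ e d0 d5 d6 x
    fun h => hx (Fin.ext h), ?_, by simpa [k2, k3] using ht⟩
  rintro (y | k)
  exacts [k2 y, k3 k]

theorem c3_le (u : Fin n → Bool) (l) (τ : Tk n m) : c3 K u l τ ≤ 1 := by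
  unfold c3
  split_ifs
  · rcases τ with x | y | g <;> simp only [tr, Pi.zero_apply, Nat.zero_le, gi_le]
    split_ifs <;> omega
  · simp

theorem rem_box (hB : Fintype.card (Tk n m) * (10 * (2 * n + m + 1) ^ 2) < B) (hM : 0 < M)
    (l : Fin n × Bool) (c : Tk n m → ℕ) (h1 : ∀ τ, c τ ≤ 1)
    (h : ∑ τ, c τ * sz a M B τ = t3 M B K l) :
    ∃ σ s, (∀ x, c (inl x) = 0) ∧
      (∀ y, c (inr (inl y)) = if l.1.val < K then (if y = (l.1, σ) then 1 else 0) else 0) ∧
      (∀ g, c (inr (inr g)) = gi l.1 s g) ∧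
      if l.1.val < K then ∑ k ∈ s, gv k = rs l.2 ∧ hvs s = !σ else s = ∅ := by
  have e0 : tv (fun _ => l.2) l = true := by simp [tv]
  have e1 : t3 M B K l =
      ∑ τ, c3 (m := m) K (fun _ => l.2) l τ * sz a M B τ + 131 * (B ^ 10 * 0) := by
    rw [← sum_ms, (complete3 _).2]
    simp
  obtain ⟨hd, ht⟩ := dig hB c _ h1 (c3_le _ _) 0 (h.trans e1)
  simp only [dgs, List.forall_mem_cons, sum_c3, e0] at hd ht
  simp only [Fintype.sum_sum_type, tr, tp, ← sum_mul, gv_row, hv_row,
    Pi.zero_apply, Pi.one_apply, mul_zero, mul_one, sum_const_zero, add_zero, zero_add, ite_self,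
    if_true, Bool.not_beq_self, Bool.toNat_false, zero_mul] at hd ht
  obtain ⟨d0, d1, d2, -, -, -, -, d7, d8, d9, -⟩ := hd
  have k1 : ∀ x, c (inl x) = 0 := by simpa using d0
  split_ifs at d1 d2 d7 d8 d9 ht ⊢ with hK
  · obtain ⟨s, hs, hs'⟩ := gad_part l.1 (fun g => c (inr (inr g))) (fun _ => h1 _) _ d7 d8 d9
    obtain ⟨σ, hσ⟩ := sw_part l.1 (fun y => c (inr (inl y))) d1 d2
    have k3 : ∀ g, c (inr (inr g)) = gi l.1 s g := congrFun hs
    simp only [k1, hσ, k3, sum_gi, ← sum_mul, row_hv _ _ hs', zero_mul, sum_const_zero,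
      zero_add, ite_mul, one_mul, sum_ite_eq', mem_univ, if_true] at ht
    refine ⟨σ, s, k1, hσ, k3, hs', ?_⟩
    revert ht
    cases σ <;> cases hvs s <;> simp <;> omega
  · exact ⟨false, ∅, k1, by simpa using d1,
      by simpa [gi] using gad_zero (fun g => c (inr (inr g))) d7, rfl⟩

theorem c2_le (u : Fin n → Bool) (j) (τ : Tk n m) : c2 K u j τ ≤ 1 := by
  rcases j with x | l | x <;> rcases τ with x | y | g <;>
    simp only [c2, tr, ite_apply, Pi.zero_apply, Nat.zero_le] <;> split_ifs <;>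
    first | omega | exact gi_le _ _ _

theorem two_box (hB : Fintype.card (Tk n m) * (10 * (2 * n + m + 1) ^ 2) < B)
    (j : Box2 n m) (c : Tk n m → ℕ) (h1 : ∀ τ, c τ ≤ 1)
    (h : ∑ τ, c τ * sz a M B τ = t2 a M B K j) :
    (∑ x, c (inl x) = 1 ∧ ∀ y, c (inr y) = 0) ∨ ((∀ x, c (inl x) = 0) ∧
      ((∀ g, c (inr (inr g)) = 0) ∨ ((∀ y, c (inr (inl y)) = 0) ∧
        ∃ v γ s, (∀ g, c (inr (inr g)) = gi v s g) ∧ ∑ k ∈ s, gv k = cs γ))) := by
  have e1 : t2 a M B K j =
      ∑ τ, c2 (m := m) K (fun _ => true) j τ * sz a M B τ + 131 * (B ^ 10 * 0) := by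
    rw [← sum_ms, (complete2 _).2]
    simp
  obtain ⟨hd, -⟩ := dig hB c _ h1 (c2_le _ _) 0 (h.trans e1)
  simp only [dgs, List.forall_mem_cons, Fintype.sum_sum_type] at hd
  obtain ⟨d0, d1, -, -, -, -, -, d7, d8, d9, -⟩ := hd
  rcases j with x | l | x <;> simp only [c2, tr, Pi.zero_apply, Pi.one_apply, mul_zero, mul_one,
    sum_const_zero, add_zero, zero_add, zero_mul, sum_ite_eq', mem_univ, if_true,
    sum_eq_zero_iff, true_imp_iff] at d0 d1 d7 d8 d9
  · refine Or.inl ⟨d0, ?_⟩
    rintro (y | g)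
    · exact d1 y
    · simpa [(gv_pos g.2).1.ne'] using d7 g
  · refine Or.inr ⟨d0, ?_⟩
    split_ifs at d7 d8 d9
    · simp only [sum_gi, ← sum_mul, gv_col] at d7 d8 d9
      obtain ⟨s, hs, hs'⟩ := gad_part l.1 (fun g => c (inr (inr g))) (fun _ => h1 _) _ d7 d8 d9
      exact Or.inr ⟨d1, _, _, s, congrFun hs, hs'⟩
    · exact Or.inl (gad_zero _ (by simpa using d7))
  · exact Or.inr ⟨d0, Or.inl fun g => by simpa [(gv_pos g.2).1.ne'] using d7 g⟩

end Pool.Agent.Work.MP_84e666_co.NP
end

-- merged part: Pool.Agent.Work.MP_84e666_co.N.Sound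
section
/-! The packings of the items are the intended ones. -/

namespace Pool.Agent.Work.MP_84e666_co.NP

open Finset Sum Pack

variable {n m : ℕ} {a : ℕ → ℕ → Bool → ℕ} {b : ℕ → ℕ} {M B K : ℕ}

theorem cA_le (τ : Tk n m) : cA K τ ≤ 1 := by
  rcases τ with x | y | g <;> simp only [cA, tr, Pi.one_apply, le_refl]
  split_ifs <;> omega

theorem cR_le (u : Fin n → Bool) (τ : Tk n m) : cR K u τ ≤ 1 ∧ cD K u τ ≤ 1 := by
  have h := congrArg (Multiset.count τ) (all_eq (m := m) (K := K) u)
  have := cA_le (K := K) τ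
  simp only [Multiset.count_add, count_ms] at h
  omega

theorem sum_gi2 (s : Fin n × Bool → Finset (Fin 7)) (v : Fin n) (k : Fin 7) :
    ∑ l : Fin n × Bool, gi l.1 (s l) (v, k) =
      (if k ∈ s (v, true) then 1 else 0) + if k ∈ s (v, false) then 1 else 0 := by
  simp [gi, Fintype.sum_prod_type, sum_add_distrib]

theorem sound (hB : Fintype.card (Tk n m) * (10 * (2 * n + m + 1) ^ 2) < B)
    (hM : ∀ l : Fin n × Bool, ∑ e : Fin m, (a e l.1 l.2 + 1) = M) (hM0 : 0 < M)
    (W : Box n m → Multiset (Tk n m)) (D : Fin n × Bool → Multiset (Tk n m))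
    (hW : ∑ j, W j + ∑ l, D l = ms (cA K))
    (h : ∀ j, ((W j).map (sz a M B)).sum = t1 b M B K j)
    (h' : ∀ l, ((D l).map (sz a M B)).sum = t3 M B K l) :
    ∃ z, Sol a b n m z ∧ ∑ j, W j = ms (cR K z) := by
  have tot : ∀ τ, ∑ l, (W (inl l)).count τ + ∑ e, (W (inr e)).count τ + ∑ l, (D l).count τ =
      cA K τ := fun τ => by
    rw [← count_ms (cA K), ← hW, Multiset.count_add, Multiset.count_sum', Multiset.count_sum',
      Fintype.sum_sum_type]
  have le1 : ∀ j τ, (W j).count τ ≤ 1 := fun j τ => (Multiset.count_le_of_le τ (hW ▸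
    (single_le_sum (fun _ _ => Multiset.zero_le _) (mem_univ j)).trans
      (Multiset.le_add_right _ _))).trans ((count_ms _ _).trans_le (cA_le τ))
  have le2 : ∀ j τ, (D j).count τ ≤ 1 := fun j τ => (Multiset.count_le_of_le τ (hW ▸
    (single_le_sum (fun _ _ => Multiset.zero_le _) (mem_univ j)).trans
      (Multiset.le_add_left _ _))).trans ((count_ms _ _).trans_le (cA_le τ))
  simp only [sum_map_count] at h h'
  choose σ s s1 s2 s3 s4 using fun l => lit_box hB hM l _ (le1 (inl l)) (h _)
  choose σ' s' r1 r2 r3 r4 using fun l => rem_box hB hM0 l _ (le2 l) (h' _)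
  have q := fun e => eqn_box hB e _ (le1 (inr e)) (h _)
  let z : Fin n → Bool := fun v => σ (v, true)
  have sw := fun v => tot (inr (inl (v, true)))
  simp only [s2, r2, (q _).2.1, cA, tr, Fintype.sum_prod_type, Prod.mk.injEq, ite_and,
    Fintype.sum_bool, sum_const_zero, add_zero, Pi.one_apply] at sw
  have key : ∀ v : Fin n, σ (v, false) = !z v ∧ (v.val < K → ∀ β, s (v, β) = row (z v) β) := by
    intro v
    have k1 := sw v
    rw [sum_eq_single v (fun v' _ c => by simp [c.symm]) (by simp),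
      sum_eq_single v (fun v' _ c => by simp [c.symm]) (by simp)] at k1
    by_cases hv : v.val < K
    · have a1 := s4 (v, true)
      have a2 := s4 (v, false)
      have a3 := r4 (v, true)
      have a4 := r4 (v, false)
      simp only [hv, if_true] at a1 a2 a3 a4 k1
      have := four a1.1 a2.1 a3.1 a4.1 (by
        rw [a3.2, a4.2]
        revert k1
        cases σ' (v, true) <;> cases σ' (v, false) <;> simp) fun k => by
          simpa only [s3, r3, (q _).2.1, sum_gi2, cA, tr, hv, if_true, sum_const_zero, add_zero]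
            using tot (inr (inr (v, k)))
      rw [a1.2, a2.2] at this
      exact ⟨this.2.2, fun _ β => by cases β; exacts [this.2.1, this.1]⟩
    · refine ⟨?_, fun c => absurd c hv⟩
      revert k1
      cases h1 : σ (v, true) <;> cases h2 : σ (v, false) <;> simp [z, h1, hv]
  have hσ : ∀ l, σ l = tv z l := fun ⟨v, β⟩ => by
    cases β
    · simp [(key v).1, tv]
    · simp [tv, z]
  simp only [hσ] at s1 s2
  have q1 : ∀ e x, (W (inr e)).count (inl x) = c1 K z (inr e) (inl x) := fun e ⟨e', l, t⟩ => by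
    by_cases he : e' = e
    · subst he
      have := tot (inl (e', l, t))
      rw [sum_eq_single e' (fun e _ hne => (q e).1 _ hne.symm) (by simp)] at this
      simp only [s1, r1, cA, tr, Prod.mk.injEq, ite_and, sum_ite_eq, mem_univ, if_true] at this
      revert this
      cases t <;> cases h : tv z l <;> simp [c1, tr, h]
    · simp [c1, tr, he, (q e).1 (e', l, t) he]
  have hz : Sol a b n m z := fun e => by
    have := (q e).2.2
    simp only [q1, c1, tr, ite_mul, one_mul, zero_mul, Fintype.sum_prod_type (α₁ := Fin m),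
      Fintype.sum_prod_type (α₁ := Fin n × Bool), sum_ite_eq', mem_univ, if_true,
      sum_ite_irrel, sum_const_zero] at this
    rw [sum_true z fun l => a e l.1 l.2 + 1, sum_add_distrib] at this
    simpa using this
  refine ⟨z, hz, (sum_congr rfl fun j _ => Multiset.ext.2 fun τ => ?_).trans
    (complete1 (B := B) hM hz).1⟩
  rw [count_ms]
  rcases j with l | e <;> rcases τ with x | y | k
  · exact s1 l x
  · simp only [s2, c1, tr, ite_apply, Pi.zero_apply]
  · have := s4 l
    simp only [s3, c1, tr]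
    split_ifs at this ⊢ with c
    · rw [(key l.1).2 c]
    · rw [this, gi_empty]
  · exact q1 e x
  · exact (q e).2.1 _
  · exact (q e).2.1 _

theorem sub_ver {u : Fin n → Bool} {v : Fin n} {s : Finset (Fin 7)}
    (h : ∀ k, gi v s (v, k) ≤ if v.val < K then (if k ∈ ver (u v) then 1 else 0) else 0) :
    s ⊆ ver (u v) := fun k hk => by
  have := h k
  simp only [gi, hk, if_true] at this
  split_ifs at this with h1 h2
  · exact h2
  all_goals omega

theorem uniq3 (hB : Fintype.card (Tk n m) * (10 * (2 * n + m + 1) ^ 2) < B) (hM0 : 0 < M)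
    (u : Fin n → Bool) (D : Fin n × Bool → Multiset (Tk n m)) (hD : ∑ l, D l = ms (cD K u))
    (h : ∀ l, ((D l).map (sz a M B)).sum = t3 M B K l) (l) : D l = ms (c3 K u l) := by
  have le : ∀ τ, (D l).count τ ≤ cD K u τ := fun τ => (Multiset.count_le_of_le τ (hD ▸
    single_le_sum (fun _ _ => Multiset.zero_le _) (mem_univ l))).trans_eq (count_ms _ _)
  simp only [sum_map_count] at h
  obtain ⟨σ, s, r1, r2, r3, r4⟩ := rem_box hB hM0 l _ (fun τ => (le τ).trans (cR_le u τ).2) (h _)
  ext τ
  rw [count_ms, c3]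
  split_ifs at r2 r4 ⊢ with c
  · have e := row_ver _ _ s (sub_ver (u := fun v => !u v) fun k => by
      simpa only [r3, cD, tr] using le (inr (inr (l.1, k)))) r4.1
    have e' : σ = tv u l := by
      have := r4.2
      rw [e, hvs_row] at this
      revert this
      cases σ <;> cases h1 : u l.1 <;> cases h2 : l.2 <;> simp [tv, h1, h2]
    subst e e'
    rcases τ with x | y | g
    exacts [r1 x, r2 y, r3 g]
  · rcases τ with x | y | g
    exacts [r1 x, r2 y, by rw [r3, r4, gi_empty]; rfl]

theorem sz_inj (hB : Fintype.card (Tk n m) * (10 * (2 * n + m + 1) ^ 2) < B) (hM0 : 0 < M) :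
    Function.Injective (sz (n := n) (m := m) a M B) := by
  intro τ τ' h
  obtain ⟨hd, ht⟩ := dig (a := a) (M := M) hB (fun x => if x = τ then 1 else 0)
    (fun x => if x = τ' then 1 else 0) (fun _ => by split_ifs <;> omega)
    (fun _ => by split_ifs <;> omega) 0 (by simpa [-Fintype.sum_sum_type] using h)
  simp only [ite_mul, one_mul, zero_mul, sum_ite_eq', mem_univ, if_true, dgs,
    List.forall_mem_cons, add_zero] at hd ht
  obtain ⟨d0, d1, d2, d3, -, d5, -, d7, d8, -⟩ := hd
  rcases τ with ⟨e, l, s⟩ | ⟨v, s⟩ | ⟨v, k⟩ <;>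
    rcases τ' with ⟨e', l', s'⟩ | ⟨v', s'⟩ | ⟨v', k'⟩ <;>
    simp only [tr, tp, Pi.zero_apply, Pi.one_apply, one_ne_zero,
      zero_ne_one] at d0 d1 d2 d3 d5 d7 d8 ht
  · obtain rfl := code_inj d3
    obtain rfl := Fin.ext d5
    cases s <;> cases s' <;> simp at ht ⊢
  · obtain rfl := Fin.ext d2
    cases s <;> cases s' <;> simp at ht ⊢ <;> omega
  · obtain rfl : k = k' := (by decide : ∀ k k', gv k = gv k' → k = k') _ _ d7
    rw [Fin.ext (Nat.eq_of_mul_eq_mul_left (gv_pos k).1 d8)]

theorem sz_pos (hB : 0 < B) (τ : Tk n m) : 0 < sz a M B τ := by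
  rcases τ with x | y | g
  · rw [sz_link, zL]
    positivity
  · rw [sz_sw, zS]
    positivity
  · have := (gv_pos g.2).1
    rw [sz_gad, zG]
    positivity

theorem nodup_ms {c : Tk n m → ℕ} (h : ∀ τ, c τ ≤ 1) : (ms c).Nodup :=
  Multiset.nodup_iff_count_le_one.2 fun τ => (count_ms c τ).trans_le (h τ)

/-- The number of removed items in a bin. -/
def k3 (K : ℕ) (u : Fin n → Bool) (l : Fin n × Bool) : ℕ :=
  if l.1.val < K then 1 + (row (!u l.1) l.2).card else 0

theorem card_c3 (u : Fin n → Bool) (l) : (ms (c3 (m := m) K u l)).card = k3 K u l := by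
  have : (ms (c3 (m := m) K u l)).card = ((ms (c3 (m := m) K u l)).map fun _ => 1).sum := by simp
  rw [this, sum_ms, sum_c3, k3, card_eq_sum_ones]

theorem words3 [Nonempty (Tk n m)] (hB : Fintype.card (Tk n m) * (10 * (2 * n + m + 1) ^ 2) < B)
    (hM0 : 0 < M) (u : Fin n → Bool) :
    (-1 : ℤ) ^ (ms (cD (m := m) K u)).card *
      words ((ms (cD (m := m) K u)).map (sz a M B)) (t3 (n := n) M B K) =
      ∏ v : Fin n, if v.val < K then (if u v = true then 36 else -12) else 1 := by
  rw [words_eq_mul _ (sz_inj hB hM0) _ _ (k3 K u) (univ : Finset Unit)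
    (fun _ l => ms (c3 K u l)) (fun _ _ _ => rfl) (fun _ l => ⟨nodup_ms (c3_le u l), card_c3 u l⟩)
    (fun _ _ => complete3 u) fun W h1 h2 => ⟨(), mem_univ _, funext (uniq3 hB hM0 u W h1 h2)⟩,
    ← (complete3 (a := a) (M := M) (B := B) u).1, Multiset.card_sum]
  simp only [card_c3, card_univ, Fintype.card_unit, mul_one, Nat.cast_prod, ← prod_pow_eq_pow_sum,
    ← prod_mul_distrib, Fintype.prod_prod_type, Fintype.prod_bool, k3]
  refine prod_congr rfl fun v _ => ?_
  by_cases c : v.val < K
  · simp only [c, if_true]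
    cases u v <;> decide
  · simp [c]

theorem pair (hB : Fintype.card (Tk n m) * (10 * (2 * n + m + 1) ^ 2) < B)
    (hM : ∀ l : Fin n × Bool, ∑ e : Fin m, (a e l.1 l.2 + 1) = M) (u : Fin n → Bool)
    {F F' : Multiset (Tk n m)} (hF : F ≤ ms (cR K u)) (hF' : F' ≤ ms (cR K u))
    {j : Box n m} {j' : Box2 n m} (h : (F.map (sz a M B)).sum = t1 b M B K j)
    (h' : (F'.map (sz a M B)).sum = t2 a M B K j') {τ τ'} (a1 : τ ∈ F) (a2 : τ ∈ F') (a3 : τ' ∈ F) (a4 : τ' ∈ F') : τ = τ' := by
  have le : ∀ τ, F.count τ ≤ cR K u τ := fun τ =>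
    (Multiset.count_le_of_le τ hF).trans_eq (count_ms _ _)
  have le' : ∀ τ, F'.count τ ≤ cR K u τ := fun τ =>
    (Multiset.count_le_of_le τ hF').trans_eq (count_ms _ _)
  rw [← Multiset.count_ne_zero] at a1 a2 a3 a4
  rw [sum_map_count] at h h'
  rcases two_box hB j' _ (fun τ => (le' τ).trans (cR_le u τ).1) h' with ⟨c1, c2⟩ | ⟨c1, c2⟩
  · obtain ⟨x, hx⟩ := single_of_sum _ c1
    rcases τ with y | y <;> rcases τ' with y' | y' <;>
      simp only [hx, c2, ne_eq, not_true, ite_eq_right_iff, one_ne_zero, imp_false,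
        not_not] at a2 a4
    rw [a2, a4]
  · rcases j with l | e
    · obtain ⟨σ, s, -, s2, s3, s4⟩ := lit_box hB hM l _ (fun τ => (le τ).trans (cR_le u τ).1) h
      rcases c2 with c2 | ⟨c2, v, γ, s', c3, c4⟩
      · rcases τ with y | y | y <;> rcases τ' with y' | y' | y' <;>
          simp only [c1, c2, s2, ne_eq, not_true, ite_eq_right_iff, one_ne_zero, imp_false,
            Classical.not_imp, not_not, ite_eq_left_iff] at a1 a2 a3 a4
        rw [a1.2, a3.2]
      · rcases τ with y | y | ⟨w, k⟩ <;> rcases τ' with y' | y' | ⟨w', k'⟩ <;>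
          simp only [c1, c2, c3, s3, ne_eq, not_true, gi, ite_eq_right_iff, one_ne_zero, imp_false,
            Classical.not_imp, not_not] at a1 a2 a3 a4
        obtain ⟨rfl, a2⟩ := a2
        obtain ⟨rfl, a4⟩ := a4
        obtain ⟨rfl, a1⟩ := a1
        split_ifs at s4
        · have e := row_ver _ _ s (sub_ver fun k => by
            simpa only [s3, cR, tr] using le (inr (inr (l.1, k)))) s4.1
          rw [row_col _ l.2 _ s' (sub_ver fun k => by
            simpa only [c3, cR, tr] using le' (inr (inr (l.1, k)))) c4 k a2 k' a4 (e ▸ a1) (e ▸ a3.2)]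
        · simp [s4] at a1
    · obtain ⟨-, q, -⟩ := eqn_box hB e _ (fun τ => (le τ).trans (cR_le u τ).1) h
      rcases τ with y | y
      exacts [absurd (c1 y) a2, absurd (q y) a1]

end Pool.Agent.Work.MP_84e666_co.NP
end

-- merged part: Pool.Agent.Work.MP_84e666_co.N.Gap
section
/-! The Möbius value attached to a system with outer and inner variables. -/

namespace Pool.Agent.Work.MP_84e666_co.NP

open Finset Sum Pack

variable (n m K : ℕ) (a : ℕ → ℕ → Bool → ℕ) (b : ℕ → ℕ) (M : ℕ)

/-- The base of the numeral system. -/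
def bN : ℕ := (m * (n * 2 * 2) + (n * 2 + n * 7)) * (10 * (2 * n + m + 1) ^ 2) + 1

/-- The sizes of the links. -/
def linkL : List ℕ := (List.range m).flatMap fun e => (List.range n).flatMap fun v =>
  [zL (bN n m) e (2 * v + 1) (a e v true + 1), zL (bN n m) e (2 * v + 1) 0,
    zL (bN n m) e (2 * v) (a e v false + 1), zL (bN n m) e (2 * v) 0]

/-- The sizes of all items. -/
def allL : List ℕ := linkL n m a ++
  (((List.range n).flatMap fun v => [zS (bN n m) v M, zS (bN n m) v 0]) ++
    (List.range n).flatMap fun v => if v < K then [zG (bN n m) v 9 M, zG (bN n m) v 3 0,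
      zG (bN n m) v 10 0, zG (bN n m) v 7 0, zG (bN n m) v 2 0, zG (bN n m) v 5 M,
      zG (bN n m) v 8 0] else [])

/-- The target of a literal bin. -/
def uL (v δ g : ℕ) : ℕ := ((List.range m).map fun e => zL (bN n m) e (2 * v + δ) 0).sum +
  if v < K then zG (bN n m) v g M else zS (bN n m) v M

/-- The target of an equation bin. -/
def uE (e : ℕ) : ℕ := ((List.range n).map fun v =>
  zL (bN n m) e (2 * v + 1) 0 + zL (bN n m) e (2 * v) 0).sum + 131 * (bN n m ^ 10 * (b e + n))

/-- The targets of the first kind. -/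
def r1L : List ℕ := ((List.range n).flatMap fun v => [uL n m K M v 1 9, uL n m K M v 0 13]) ++
  (List.range m).map (uE n m b)

/-- The targets of the second kind. -/
def r2L : List ℕ := linkL n m a ++ (((List.range n).flatMap fun v =>
  [if v < K then zG (bN n m) v 12 M else 0, if v < K then zG (bN n m) v 10 0 else 0]) ++
  [((List.range n).map fun v => if v < K then 0 else zS (bN n m) v M + zS (bN n m) v 0).sum])

/-- The unmarked parts. -/
def lam1 : List ℕ := fixL (allL n m K a M).sum (r1L n m K b M) (r2L n m K a M) ++ allL n m K a M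

/-- The marked parts. -/
def mk (j : ℕ) : ℕ := ((lam1 n m K a b M).sum + 1) * (j + 1)

/-- The lower partition. -/
def lamN : List ℕ := lam1 n m K a b M ++
  (List.range n).flatMap fun v => [mk n m K a b M (2 * v + 1), mk n m K a b M (2 * v)]

/-- The upper partition. -/
def rhoN : List ℕ := topL (allL n m K a M).sum (r1L n m K b M) (r2L n m K a M) ++
  (List.range n).flatMap fun v =>
    [mk n m K a b M (2 * v + 1) + if v < K then zS (bN n m) v M + zG (bN n m) v 9 0 else 0,
      mk n m K a b M (2 * v) + if v < K then zS (bN n m) v M + zG (bN n m) v 13 0 else 0]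

theorem map_ms {n m : ℕ} (c f : Tk n m → ℕ) :
    (ms c).map f = ∑ τ, Multiset.replicate (c τ) (f τ) := by
  simp only [ms, map_sum', Multiset.map_replicate]

theorem linkL_eq : (linkL n m a : Multiset ℕ) =
    ∑ x : Fin m × (Fin n × Bool) × Bool, {sz a M (bN n m) (inl x)} := by
  simp only [linkL, coe_flatMap, sz_link, Fintype.sum_prod_type, Fintype.sum_bool, quad_coe]
  simp [code]

theorem allL_eq : (allL n m K a M : Multiset ℕ) = (ms (cA (n := n) (m := m) K)).map
    (sz a M (bN n m)) := by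
  simp only [allL, ← Multiset.coe_add, linkL_eq n m a M, map_ms, Fintype.sum_sum_type, cA, tr,
    Pi.one_apply, Multiset.replicate_one, coe_flatMap, Fintype.sum_prod_type (α₁ := Fin n),
    Fintype.sum_bool, sz_sw, sz_gad, pair_coe]
  congr 2
  refine sum_congr rfl fun v _ => ?_
  split_ifs
  · simp only [Fin.sum_univ_seven, Multiset.replicate_one]
    simp [gv, hv]
    rfl
  · simp

theorem r1L_eq : (r1L n m K b M : Multiset ℕ) =
    univ.val.map (t1 (n := n) (m := m) b M (bN n m) K) := by
  refine box_eq n m _ _ _ _ ?_ ?_ ?_ <;> intro v <;>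
    simp [t1, uL, uE, code, rs, sum_range_map, Fintype.sum_prod_type, sum_add_distrib]

theorem r2L_eq : (r2L n m K a M : Multiset ℕ) =
    univ.val.map (t2 (n := n) (m := m) a M (bN n m) K) := by
  simp only [r2L, ← Multiset.coe_add, linkL_eq n m a M, map_univ, Fintype.sum_sum_type, t2,
    coe_flatMap, Fintype.sum_prod_type (α₁ := Fin n), Fintype.sum_bool, pair_coe, sum_range_map]
  simp [cs]

theorem lit_eq (f : Fin n × Bool → ℕ) (g g' : ℕ → ℕ) (h1 : ∀ v, f (v, true) = g v)
    (h2 : ∀ v, f (v, false) = g' v) :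
    (((List.range n).flatMap fun v => [g v, g' v] : List ℕ) : Multiset ℕ) = univ.val.map f := by
  simp only [coe_flatMap, map_univ, Fintype.sum_prod_type, Fintype.sum_bool, pair_coe, h1, h2]

/-- The outer part of an assignment. -/
def cut {n : ℕ} (z : Fin n → Bool) (v : Fin n) : Bool := decide (v.val < K) && z v

variable {n m K a b M}

theorem cR_cut (z : Fin n → Bool) : cR (m := m) K (cut K z) = cR K z := by
  funext τ
  rcases τ with x | y | g <;> simp only [cR, tr, cut]
  split_ifs <;> simp_all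

theorem hB_bN : Fintype.card (Tk n m) * (10 * (2 * n + m + 1) ^ 2) < bN n m := by
  simp [bN]

theorem ref_of {ι : Type} [Fintype ι] {f : Tk n m → ℕ} {W : ι → Multiset (Tk n m)} {t : ι → ℕ}
    (h : ∀ j, ((W j).map f).sum = t j) : Refines ((∑ j, W j).map f) (univ.val.map t) :=
  ⟨univ.val.map fun j => (W j).map f, (map_sum' _ _ _).symm, by
    rw [Multiset.map_map]
    exact Multiset.map_congr rfl fun j _ => h j⟩

theorem pairN (hM : ∀ l : Fin n × Bool, ∑ e : Fin m, (a e l.1 l.2 + 1) = M) (hM0 : 0 < M)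
    (u : Fin n → Bool) : ∀ F ≤ (ms (cR (m := m) K u)).map (sz a M (bN n m)),
      ∀ F' ≤ (ms (cR (m := m) K u)).map (sz a M (bN n m)), F.sum ∈ r1L n m K b M →
        F'.sum ∈ r2L n m K a M → ∀ A, A ≤ F → A ≤ F' → A.card ≤ 1 := by
  intro F f1 F' f2 h h' A f3 hA'
  obtain ⟨F, hF, rfl⟩ := lift_le _ f1
  obtain ⟨F', hF', rfl⟩ := lift_le _ f2
  obtain ⟨A, hA, rfl⟩ := lift_le _ f3
  rw [Multiset.map_le_map_iff (sz_inj hB_bN hM0)] at hA'
  rw [← Multiset.mem_coe, r1L_eq, Multiset.mem_map] at h
  rw [← Multiset.mem_coe, r2L_eq, Multiset.mem_map] at h'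
  obtain ⟨j, -, h⟩ := h
  obtain ⟨j', -, h'⟩ := h'
  rw [Multiset.card_map]
  exact card_le_one (s := ⟨A, Multiset.nodup_of_le (hA.trans hF)
    (nodup_ms fun τ => (cR_le u τ).1)⟩) |>.2 fun τ h1 τ' h2 => pair hB_bN hM u hF hF' h.symm h'.symm
      (Multiset.mem_of_le hA h1) (Multiset.mem_of_le hA' h1) (Multiset.mem_of_le hA h2)
      (Multiset.mem_of_le hA' h2)

theorem sz_ok (P : Multiset (Tk n m)) : ∀ x ∈ P.map (sz a M (bN n m)), 0 < x ∧ 131 ∣ x := by
  intro x hx
  obtain ⟨τ, -, rfl⟩ := Multiset.mem_map.1 hx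
  exact ⟨sz_pos (Nat.succ_pos _) τ, dvd_mul_right _ _⟩

theorem r_dvd : ∀ x ∈ r1L n m K b M ++ r2L n m K a M, 131 ∣ x := by
  intro x hx
  rw [← Multiset.mem_coe, ← Multiset.coe_add, r1L_eq, r2L_eq, Multiset.mem_add, Multiset.mem_map,
    Multiset.mem_map] at hx
  rcases hx with ⟨l | e, -, rfl⟩ | ⟨j, -, rfl⟩
  · refine dvd_add (dvd_sum fun _ _ => dvd_mul_right _ _) ?_
    split_ifs <;> exact dvd_mul_right _ _
  · exact dvd_add (dvd_sum fun _ _ => dvd_mul_right _ _) (dvd_mul_right _ _)
  · rw [← (complete2 fun _ => true).2 j]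
    exact Multiset.dvd_sum fun x hx => (sz_ok _ x hx).2

open Classical in
theorem gap_np [NeZero n] (hM : ∀ l : Fin n × Bool, ∑ e : Fin m, (a e l.1 l.2 + 1) = M)
    (hM0 : 0 < M) {z₀ : Fin n → Bool} (hz : Sol a b n m z₀) :
    ∃ (N : ℕ) (l r : N.Partition), l.parts = lamN n m K a b M ∧ r.parts = rhoN n m K a b M ∧
      Refines l.parts r.parts ∧ ∀ μ, IsMobius μ → μ l r =
        ∑ u ∈ (univ.filter (Sol a b n m)).image (cut K),
          ∏ v : Fin n, if v.val < K then (if u v = true then 36 else -12) else 1 := by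
  have : Nonempty (Tk n m) := ⟨inr (inl (0, true))⟩
  let f : Tk n m → ℕ := sz a M (bN n m)
  let X : (Fin n → Bool) → Multiset ℕ := fun u => (ms (cR K u)).map f
  let u : Fin n × Bool → ℕ := fun j => mk n m K a b M (code j)
  let t : Fin n × Bool → ℕ := t3 M (bN n m) K
  set S := (allL n m K a M).sum with hS
  set R₁ := r1L n m K b M with hR₁
  set R₂ := r2L n m K a M with hR₂
  have x1 : ∀ z, Sol a b n m z → Refines (X z) R₁ := fun z hz => by
    simp only [X, hR₁, r1L_eq, ← (complete1 (B := bN n m) hM hz).1]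
    exact ref_of (complete1 hM hz).2
  have x2 : ∀ z, Refines (X z) R₂ := fun z => by
    simp only [X, hR₂, r2L_eq, ← (complete2 (a := a) (M := M) (B := bN n m) z).1]
    exact ref_of (complete2 z).2
  have x3 : ∀ z, Refines ((ms (cD K z)).map f) (univ.val.map t) := fun z => by
    rw [← (complete3 (a := a) (M := M) (B := bN n m) z).1]
    exact ref_of (complete3 z).2
  have s : R₁.sum = R₂.sum := (x1 z₀ hz).sum_eq.symm.trans (x2 z₀).sum_eq
  have e0 : (lam1 n m K a b M : Multiset ℕ) = fixL S R₁ R₂ + (ms (cA K)).map f := by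
    rw [lam1, ← Multiset.coe_add, allL_eq]
  have e1 : ∀ z, (lam1 n m K a b M : Multiset ℕ) = fixL S R₁ R₂ + X z + (ms (cD K z)).map f :=
    fun z => by rw [e0, all_eq z, Multiset.map_add, add_assoc]
  have hS' : ((ms (cA K)).map f).sum = S := by rw [← allL_eq, Multiset.sum_coe]
  have hX : ∀ z, (X z).sum ≤ S := fun z => by
    rw [← hS', all_eq z, Multiset.map_add, Multiset.sum_add]
    exact Nat.le_add_right _ _
  have x4 : ∀ z, Refines (fixL S R₁ R₂ + X z) (topL S R₁ R₂) := fun z =>
    apex_ref (sz_ok _) r_dvd s (hX z) (pairN hM hM0 z) (x2 z)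
  let r₀ : (topL S R₁ R₂).sum.Partition := ⟨topL S R₁ R₂, fun {x} hx => top_pos x hx, rfl⟩
  let y : (Fin n → Bool) → (topL S R₁ R₂).sum.Partition := fun z => ⟨fixL S R₁ R₂ + X z,
    fun {x} hx => (Multiset.mem_add.1 hx).elim (fix_pos x) fun h => (sz_ok _ x h).1,
    (x4 z).sum_eq⟩
  have hl : (lamN n m K a b M : Multiset ℕ) = lam1 n m K a b M + univ.val.map u := by
    rw [lamN, ← Multiset.coe_add, lit_eq n u] <;> intro v <;> simp [u, code]
  have hr : (rhoN n m K a b M : Multiset ℕ) = r₀.parts + univ.val.map fun j => u j + t j := by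
    rw [rhoN, ← Multiset.coe_add, lit_eq n fun j => u j + t j] <;> intro v <;>
      simp only [u, t, t3, code, rs, Bool.toNat_true, Bool.toNat_false, add_zero, if_true,
        Bool.false_eq_true, if_false]
  have hlr : Refines (lam1 n m K a b M) (r₀.parts + univ.val.map t) := by
    rw [e1 z₀]
    exact (x4 z₀).add (x3 z₀)
  have hlr' := refines_mark u _ hlr
  have hu : ∀ j, (lam1 n m K a b M).sum < u j := fun j =>
    Nat.le_mul_of_pos_right _ (Nat.succ_pos _)
  have hs : ∀ x, SubSum (lam1 n m K a b M) x → x ≤ (lam1 n m K a b M).sum := by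
    rintro _ ⟨A, hA, rfl⟩
    exact (sum_le_of_le hA).trans_eq (Multiset.sum_coe _)
  let l : (lamN n m K a b M).sum.Partition := ⟨lamN n m K a b M, fun {x} hx => by
    rcases Multiset.mem_add.1 (hl ▸ hx) with h | h
    · exact (Multiset.mem_add.1 (e0 ▸ h)).elim (fix_pos x) fun h => (sz_ok _ x h).1
    · obtain ⟨j, -, rfl⟩ := Multiset.mem_map.1 h
      exact (Nat.zero_le _).trans_lt (hu j), rfl⟩
  let r : (lamN n m K a b M).sum.Partition := ⟨rhoN n m K a b M, fun {x} hx => by
    rcases Multiset.mem_add.1 (hr ▸ hx) with h | h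
    · exact r₀.parts_pos h
    · obtain ⟨j, -, rfl⟩ := Multiset.mem_map.1 h
      have := hu j
      omega, by rw [hr, ← hlr'.sum_eq, ← hl, Multiset.sum_coe]⟩
  refine ⟨_, l, r, rfl, rfl, by simpa only [l, r, hl, hr] using hlr', fun μ hμ => ?_⟩
  obtain ⟨μ₀, hμ₀⟩ := exists_mobius (topL S R₁ R₂).sum
  rw [marked_aux μ₀ r₀ hμ₀ hμ r _ l _ u t rfl hl hr (fun i x y _ hy => by
    have := hs y hy
    have := hu i
    omega) (fun i j x y hx hy e => code_inj (by
      have e' := congrArg (· / ((lam1 n m K a b M).sum + 1)) e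
      simp only [u, mk] at e'
      rw [Nat.mul_add_div (Nat.succ_pos _), Nat.mul_add_div (Nat.succ_pos _),
        Nat.div_eq_of_lt (Nat.lt_succ_of_le (hs x hx)),
        Nat.div_eq_of_lt (Nat.lt_succ_of_le (hs y hy))] at e'
      omega)) hlr, GG, ← sum_subset (s₁ := ((univ.filter (Sol a b n m)).image (cut K)).image y),
    sum_image]
  · refine sum_congr rfl fun w hw => ?_
    obtain ⟨z, hz, rfl⟩ := mem_image.1 hw
    have c : X (cut K z) = X z := by simp only [X, cR_cut]
    rw [apex_mu (sz_ok _) r_dvd s (hX _) (fun _ => pairN hM hM0 _) hμ₀ (y := y (cut K z)) rfl rfl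
      (x4 _), if_pos ⟨(c ▸ x1 z (mem_filter.1 hz).2 : Refines (X (cut K z)) R₁), x2 _⟩,
      e1 (cut K z), mul_one,
      add_tsub_cancel_left, Multiset.card_add, add_tsub_cancel_left, Multiset.card_map]
    exact words3 hB_bN hM0 _
  · intro w hw w' hw' e
    have e' := Multiset.map_injective (sz_inj hB_bN hM0)
      (add_left_cancel (congrArg Nat.Partition.parts e))
    obtain ⟨z, -, rfl⟩ := mem_image.1 hw
    obtain ⟨z', -, rfl⟩ := mem_image.1 hw'
    funext v
    have := congrArg (Multiset.count (inr (inr (v, 0)))) e'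
    simp only [count_ms, cR_cut] at this
    revert this
    by_cases c : v.val < K <;> cases h1 : z v <;> cases h2 : z' v <;>
      simp [cR, tr, cut, ver, c, h1, h2]
  · intro w hw
    obtain ⟨z, -, rfl⟩ := mem_image.1 hw
    exact mem_filter.2 ⟨mem_univ _, e1 z ▸ Multiset.le_add_right _ _, x4 z⟩
  · intro w hw hn
    obtain ⟨-, h1, h2⟩ := mem_filter.1 hw
    by_contra c
    obtain ⟨V, v1, v2⟩ := Set.nonempty_of_ncard_ne_zero (Nat.cast_ne_zero.1
      (right_ne_zero_of_mul (left_ne_zero_of_mul c)))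
    have v3 : (∑ j, (V j : Multiset ℕ)).sum = ((ms (cD K z₀)).map f).sum := by
      rw [(x3 z₀).sum_eq, Multiset.sum_sum]
      exact sum_congr rfl fun j _ => v2 j
    obtain ⟨Y, hY⟩ := Multiset.le_iff_exists_add.1 (apex_abs (S := S) (R₁ := R₁) (R₂ := R₂)
      (W := ∑ j, (V j : Multiset ℕ)) (fun x hx => (sz_ok (ms (cA K)) x hx).2)
      (by rw [← e0, v1]; exact tsub_le_self)
      (by rw [v3]; exact Multiset.dvd_sum fun x hx => (sz_ok _ x hx).2) (by
        rw [v3, ← hS', all_eq z₀, Multiset.map_add, Multiset.sum_add]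
        exact Nat.le_add_left _ _))
    obtain ⟨P₂, P₁, p1, p2, rfl⟩ := split_map _ hY
    obtain ⟨D, rfl, d1⟩ := lift_fun _ p2.symm
    have hw' : w.parts = fixL S R₁ R₂ + P₁.map f := by
      have := tsub_add_cancel_of_le h1
      rw [← v1, e0, hY, add_left_comm] at this
      exact add_left_cancel this
    have key : Refines (P₁.map f) R₁ → ∃ z, Sol a b n m z ∧ P₁ = ms (cR K z) := by
      rintro ⟨G, g1, g2⟩
      obtain ⟨V', rfl, g3⟩ := exists_fun _ _ univ (g2.trans (r1L_eq n m K b M))
      obtain ⟨W, rfl, g4⟩ := lift_fun _ g1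
      exact sound hB_bN hM hM0 W D ((add_comm _ _).trans p1.symm)
        (fun j => (congrArg _ (g4 j)).trans (g3 j (mem_univ j)))
        fun j => (congrArg _ (d1 j)).trans (v2 j)
    rw [apex_mu (sz_ok _) r_dvd s (by
      rw [← hS', hY, Multiset.sum_add]
      exact Nat.le_add_left _ _) (fun h => by
        obtain ⟨z, -, rfl⟩ := key h
        exact pairN hM hM0 z) hμ₀ hw' rfl h2] at c
    obtain ⟨z, hz, rfl⟩ := key (by_contra fun h => c (by rw [if_neg fun h' => h h'.1, mul_zero]))
    refine hn (mem_image.2 ⟨cut K z, mem_image_of_mem _ (mem_filter.2 ⟨mem_univ _, hz⟩),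
      parts_inj ?_⟩)
    simp only [y, X, cR_cut, hw']

end Pool.Agent.Work.MP_84e666_co.NP
end

-- merged part: Pool.Agent.Work.MP_84e666_co.H45Sys
section
/-! Systems given by lists of literals, and polynomial-time computability of the instance. -/

namespace Pool.Agent.Work.MP_84e666_co

namespace Pack

open Finset Pool.Agent.Lib.Poly

variable {V : Type} [DecidableEq V] [Inhabited V] (bs : List V) (eqs : List (List (V × Bool) × ℕ))

/-- An assignment solves the system: each equation prescribes its number of true literals. -/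
def Solves (A : V → Bool) : Prop :=
  ∀ q ∈ eqs, q.1.countP (fun l => decide (A l.1 = l.2)) = q.2

/-- Coefficients. -/
def a0 (e v : ℕ) (β : Bool) : ℕ :=
  (eqs.getD e ([], 0)).1.countP fun l => decide (l = (bs.getD v default, β))

/-- Total length. -/
def tot : ℕ := (eqs.map fun q => q.1.length).sum

/-- Coefficients, with one more equation that balances the columns. -/
def aS (e v : ℕ) (β : Bool) : ℕ :=
  if e < eqs.length then a0 bs eqs e v β
  else tot eqs - ((List.range eqs.length).map fun e => a0 bs eqs e v β).sum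

/-- Right-hand sides. -/
def bS (e : ℕ) : ℕ :=
  if e < eqs.length then (eqs.getD e ([], 0)).2
  else bs.length * tot eqs - ((List.range eqs.length).map fun e => (eqs.getD e ([], 0)).2).sum

theorem sum_a0_le (v : ℕ) (β : Bool) : ∑ e : Fin eqs.length, a0 bs eqs e v β ≤ tot eqs := by
  rw [tot, ← Fin.sum_univ_fun_getElem]
  exact sum_le_sum fun e _ => by simpa [a0] using List.countP_le_length

theorem col_sum (v : ℕ) (β : Bool) :
    ∑ e : Fin (eqs.length + 1), (aS bs eqs e v β + 1) = tot eqs + eqs.length + 1 := by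
  have := sum_a0_le bs eqs v β
  rw [Fin.sum_univ_castSucc]
  simp [aS, sum_range_map, sum_add_distrib]
  omega

variable {bs eqs}

theorem sum_count (hn : bs.Nodup) (A : V → Bool) (q : List (V × Bool)) (hq : ∀ l ∈ q, l.1 ∈ bs) :
    ∑ i : Fin bs.length, q.countP (fun l => decide (l = (bs.getD i default, A bs[i]))) =
      q.countP fun l => decide (A l.1 = l.2) := by
  induction q with
  | nil => simp
  | cons l q ih =>
    simp only [List.countP_cons, sum_add_distrib, ih fun l h => hq l (List.mem_cons_of_mem _ h),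
      add_right_inj, decide_eq_true_eq]
    obtain ⟨i, hi, e⟩ := List.getElem_of_mem (hq l List.mem_cons_self)
    rw [sum_eq_single ⟨i, hi⟩ (fun j _ hj => if_neg fun h => hj (Fin.ext ?_)) (by simp)]
    · simp [Prod.ext_iff, e, hi, eq_comm]
    · have := congrArg Prod.fst h
      simp only [← e, List.getD_eq_getElem _ _ j.2] at this
      exact ((List.Nodup.getElem_inj_iff hn).1 this).symm

theorem mem_sols [NeZero bs.length] (hn : bs.Nodup) (hv : ∀ q ∈ eqs, ∀ l ∈ q.1, l.1 ∈ bs)
    (A : V → Bool) (s : Bool) :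
    (fun i : Fin bs.length => A bs[i]) ∈ sols (aS bs eqs) (bS bs eqs) bs.length (eqs.length + 1) s ↔
      A (bs.getD 0 default) = s ∧ Solves eqs A := by
  have e1 : ∀ e : Fin eqs.length, ∑ v : Fin bs.length, a0 bs eqs e v (A bs[v]) =
      eqs[e].1.countP fun l => decide (A l.1 = l.2) := fun e => by
    simp only [a0, List.getD_eq_getElem _ _ e.2]
    exact sum_count hn A _ (hv _ (List.getElem_mem _))
  have e2 : Solves eqs A ↔ ∀ e : Fin eqs.length,
      ∑ v : Fin bs.length, a0 bs eqs e v (A bs[v]) = (eqs.getD e ([], 0)).2 := by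
    simp only [e1, Solves, List.forall_mem_iff_getElem, List.getD_eq_getElem _ _ (Fin.is_lt _)]
    exact ⟨fun h e => h e e.2, fun h e he => h ⟨e, he⟩⟩
  rw [sols, mem_filter, List.getD_eq_getElem _ _ (Nat.pos_of_neZero _), e2, Fin.forall_fin_succ']
  simp only [mem_univ, true_and, aS, bS, Fin.val_castSucc, Fin.is_lt, if_true, Fin.val_last,
    lt_irrefl, if_false, sum_range_map]
  refine and_congr Iff.rfl (and_iff_left_of_imp fun h => ?_)
  refine (sum_tsub_distrib _ fun (v : Fin bs.length) _ => sum_a0_le bs eqs v (A bs[v])).trans ?_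
  rw [sum_comm, sum_congr rfl fun i _ => h i]
  simp

/-- The lower partition of a system. -/
def lamS (bs : List V) (eqs : List (List (V × Bool) × ℕ)) : List ℕ :=
  lamL bs.length (eqs.length + 1) (aS bs eqs) (tot eqs + eqs.length + 1)

/-- The upper partition of a system. -/
def rhoS (bs : List V) (eqs : List (List (V × Bool) × ℕ)) : List ℕ :=
  rhoL bs.length (eqs.length + 1) (aS bs eqs) (bS bs eqs) (tot eqs + eqs.length + 1)

theorem gap_sys {W : Type} (hn : bs.Nodup) (h0 : bs ≠ []) (hv : ∀ q ∈ eqs, ∀ l ∈ q.1, l.1 ∈ bs)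
    (S : Bool → Finset W) (F : W → V → Bool)
    (sat : ∀ s, ∀ w ∈ S s, F w (bs.getD 0 default) = s ∧ Solves eqs (F w))
    (inj : ∀ w w', (∀ v ∈ bs, F w v = F w' v) → w = w')
    (surj : ∀ A, Solves eqs A → ∃ w ∈ S (A (bs.getD 0 default)), ∀ v ∈ bs, A v = F w v)
    (hne : (S true).Nonempty) :
    ∃ (N : ℕ) (l r : N.Partition), l.parts = lamS bs eqs ∧ r.parts = rhoS bs eqs ∧
      Refines l.parts r.parts ∧ ∀ μ, IsMobius μ → μ l r =
        ((numL bs.length (eqs.length + 1)).map Nat.factorial).prod *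
          ((S true).card - (S false).card) := by
  have : NeZero bs.length := ⟨fun h => h0 (List.length_eq_zero_iff.1 h)⟩
  have hc : ∀ s, (S s).card =
      (sols (aS bs eqs) (bS bs eqs) bs.length (eqs.length + 1) s).card := fun s => by
    refine card_bij (fun w _ => fun i : Fin bs.length => F w bs[i])
      (fun w hw => (mem_sols hn hv _ s).2 (sat s w hw)) (fun w _ w' _ h => inj w w' fun v hv => ?_)
      fun z hz => ?_
    · obtain ⟨i, hi, rfl⟩ := List.getElem_of_mem hv
      exact congrFun h ⟨i, hi⟩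
    · let A : V → Bool := fun v => if h : bs.idxOf v < bs.length then z ⟨_, h⟩ else false
      have e : (fun i : Fin bs.length => A bs[i]) = z := funext fun i => by
        simp [A, hn.idxOf_getElem]
      obtain ⟨h1, h2⟩ := (mem_sols hn hv A s).1 (e ▸ hz)
      obtain ⟨w, hw, h3⟩ := surj A h2
      exact ⟨w, h1 ▸ hw, e ▸ funext fun i => (h3 _ (List.getElem_mem _)).symm⟩
  obtain ⟨w, hw⟩ := hne
  rw [hc, hc]
  exact gap_ab (fun l => col_sum bs eqs l.1 l.2) (Nat.succ_pos _)
    ((mem_sols hn hv _ true).2 (sat true w hw))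

section pt

variable {α : Type} [Enc α]

@[fun_prop] theorem pt_szL {f g h k : α → ℕ} (hf : PT f) (hg : PT g) (hh : PT h) (hk : PT k) :
    PT fun x => szL (f x) (g x) (h x) (k x) := by
  unfold szL
  fun_prop

@[fun_prop] theorem pt_szS {f g h k : α → ℕ} (hf : PT f) (hg : PT g) (hh : PT h) (hk : PT k) :
    PT fun x => szS (f x) (g x) (h x) (k x) := by
  unfold szS
  fun_prop

@[fun_prop] theorem pt_bb {f g : α → ℕ} (hf : PT f) (hg : PT g) :
    PT fun x => bb (f x) (g x) := by
  unfold bb
  fun_prop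

variable [Enc V] {B : α → List V} {E : α → List (List (V × Bool) × ℕ)}

@[fun_prop] theorem pt_a0 {f g : α → ℕ} {h : α → Bool} (hB : PT B) (hE : PT E) (hf : PT f)
    (hg : PT g) (hh : PT h) : PT fun x => a0 (B x) (E x) (f x) (g x) (h x) := by
  unfold a0
  fun_prop

omit [DecidableEq V] [Inhabited V] in
@[fun_prop] theorem pt_tot (hE : PT E) : PT fun x => tot (E x) := by
  unfold tot
  fun_prop

@[fun_prop] theorem pt_aS {f g : α → ℕ} {h : α → Bool} (hB : PT B) (hE : PT E) (hf : PT f)
    (hg : PT g) (hh : PT h) : PT fun x => aS (B x) (E x) (f x) (g x) (h x) := by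
  unfold aS
  fun_prop

omit [DecidableEq V] [Inhabited V] in
@[fun_prop] theorem pt_bS {f : α → ℕ} (hB : PT B) (hE : PT E) (hf : PT f) :
    PT fun x => bS (B x) (E x) (f x) := by
  unfold bS
  fun_prop

@[fun_prop] theorem pt_lam0 {n m M : α → ℕ} (hn : PT n) (hm : PT m) (hM : PT M) (hB : PT B)
    (hE : PT E) : PT fun x => lam0 (n x) (m x) (aS (B x) (E x)) (M x) := by
  unfold lam0 sizes
  fun_prop

@[fun_prop] theorem pt_mark {n m M j : α → ℕ} (hn : PT n) (hm : PT m) (hM : PT M) (hj : PT j)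
    (hB : PT B) (hE : PT E) : PT fun x => mark (n x) (m x) (aS (B x) (E x)) (M x) (j x) := by
  have := pt_lam0 hn hm hM hB hE
  unfold mark
  fun_prop

theorem pt_lamS (hB : PT B) (hE : PT E) : PT fun x => lamS (B x) (E x) := by
  unfold lamS lamL
  refine PT.append (pt_lam0 ?_ ?_ ?_ hB hE) (PT.append (PT.flatMap (PT.cons (pt_mark ?_ ?_ ?_ ?_ ?_ ?_)
    (PT.cons (pt_mark ?_ ?_ ?_ ?_ ?_ ?_) ?_)) ?_) (PT.map (pt_mark ?_ ?_ ?_ ?_ ?_ ?_) ?_)) <;>
    fun_prop

theorem pt_rhoS (hB : PT B) (hE : PT E) : PT fun x => rhoS (B x) (E x) := by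
  unfold rhoS rhoL tL tE
  refine PT.append ?_ (PT.append (PT.flatMap (PT.cons (PT.add (pt_mark ?_ ?_ ?_ ?_ ?_ ?_) ?_)
    (PT.cons (PT.add (pt_mark ?_ ?_ ?_ ?_ ?_ ?_) ?_) ?_)) ?_)
    (PT.map (PT.add (pt_mark ?_ ?_ ?_ ?_ ?_ ?_) ?_) ?_)) <;> fun_prop

theorem pt_numL {n m : α → ℕ} (hn : PT n) (hm : PT m) : PT fun x => numL (n x) (m x) := by
  unfold numL
  fun_prop

theorem pt_prod {L : α → List ℕ} (hL : PT L) : PT fun x => Bin.mk (L x).prod := by
  refine (PT.foldl (f := fun _ (acc : Bin) (k : ℕ) => acc.mul ⟨k⟩) (init := fun _ => ⟨1⟩)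
    (by fun_prop) (by fun_prop) hL (fun n => n) (by fun_prop) fun a c k => ?_).of_eq fun x => ?_
  · refine (Bin.sz_le (k := sz c + k) ?_).trans (by simp)
    rw [pow_add]
    exact Nat.mul_lt_mul'' c.lt_two_pow k.lt_two_pow_self
  · have : ∀ (l : List ℕ) (c : ℕ), l.foldl (fun (acc : Bin) k => acc.mul ⟨k⟩) ⟨c⟩ =
        ⟨c * l.prod⟩ := fun l => by
      induction l with
      | nil => simp
      | cons k l ih => intro c; rw [List.foldl_cons, Bin.mul, ih, List.prod_cons, mul_assoc]
    rw [this, one_mul]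

theorem pt_facs {L : α → List ℕ} (hL : PT L) :
    PT fun x => Bin.mk ((L x).map Nat.factorial).prod := by
  refine (pt_prod (L := fun x => (L x).flatMap fun k => (List.range k).map fun i => i + 1)
    (by fun_prop)).of_eq fun x => congrArg _ ?_
  induction L x with
  | nil => rfl
  | cons k l ih =>
    rw [List.flatMap_cons, List.prod_append, ih, List.map_cons, List.prod_cons,
      Nat.factorial_eq_prod_range_add_one]
    rfl

end pt

end Pack

end Pool.Agent.Work.MP_84e666_co
end

-- merged part: Pool.Agent.Work.MP_84e666_co.H45Circ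
section
/-! A cellular computation as a system of linear equations with one solution per witness. -/

namespace Pool.Agent.Work.MP_84e666_co

namespace Pack

open Finset Pool.Agent.Lib.Poly

variable {Z : Type} [Fintype Z] [DecidableEq Z] [Inhabited Z]

/-- Variables: time, position and the values of the four cells read. -/
abbrev Var (Z : Type) := ℕ × ℕ × (Fin 4 → Z)

/-- The cells read. -/
def pos (i j : ℕ) : ℕ := if j = 0 then 0 else if j = 1 then i - 1 else if j = 2 then i else i + 1

/-- Evaluation. -/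
def ev (τ : Fin 4 → Z) (j : Fin 4) : Z := τ j

variable (F : Bool → (Fin 4 → Z) → Z) (acc : Z → Bool) (ini : ℕ → Bool → Z) (idx : ℕ → ℕ)

/-- The computation. -/
def val (w : ℕ → Bool) : ℕ → ℕ → Z
  | 0, i => ini i (w (idx i))
  | t + 1, i => F (decide (i = 0)) fun j => val w t (pos i j)

/-- The positive literals at a node that pass a test. -/
noncomputable def sel (t i : ℕ) (p : (Fin 4 → Z) → Bool) : List (Var Z × Bool) :=
  (univ.toList.filter p).map fun τ => ((t, i, τ), true)

/-- Literals whose sum tells whether a cell has a given value. -/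
noncomputable def lits (t i : ℕ) (s : Z) : List (Var Z × Bool) :=
  if t = 0 then ([true, false].filter fun β => decide (ini i β = s)).map fun β =>
    ((0, idx i, default), β)
  else sel t i fun τ => decide (F (decide (i = 0)) τ = s)

/-- One equation. -/
noncomputable def eqn (t i : ℕ) (j : Fin 4) (s : Z) : List (Var Z × Bool) × ℕ :=
  (sel (t + 1) i (fun τ => decide (ev τ j = s)) ++
    (lits F ini idx t (pos i j) s).map (fun l => (l.1, !l.2)), (lits F ini idx t (pos i j) s).length)

/-- All equations. -/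
noncomputable def eqsC (T : ℕ) : List (List (Var Z × Bool) × ℕ) :=
  ((univ.toList.filter acc).flatMap (lits F ini idx T 0), 1) ::
    (List.range T).flatMap fun t => (List.range (T - t)).flatMap fun i =>
      (univ.toList : List (Fin 4 × Z)).map fun js => eqn F ini idx t i js.1 js.2

/-- All variables. -/
noncomputable def bsC (Z : Type) [Fintype Z] [DecidableEq Z] [Inhabited Z] (P T : ℕ) :
    List (Var Z) :=
  ((List.range P).map fun u => (0, u, default)) ++
    (List.range T).flatMap fun t => (List.range (T - t)).flatMap fun i =>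
      univ.toList.map fun τ => (t + 1, i, τ)

theorem mem_bsC {P T : ℕ} {v : Var Z} : v ∈ bsC Z P T ↔
    (v.1 = 0 ∧ v.2.1 < P ∧ v.2.2 = default) ∨ (v.1 ≠ 0 ∧ v.2.1 + v.1 ≤ T) := by
  obtain ⟨t, i, τ⟩ := v
  simp only [bsC, List.mem_append, List.mem_map, List.mem_range, List.mem_flatMap, Prod.mk.injEq,
    mem_toList, mem_univ, true_and]
  refine or_congr ⟨?_, ?_⟩ ⟨?_, fun h => ⟨t - 1, by omega, i, by omega, τ, by omega, rfl, rfl⟩⟩
  · rintro ⟨u, h, rfl, rfl, rfl⟩
    exact ⟨rfl, h, rfl⟩
  · rintro ⟨rfl, h, rfl⟩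
    exact ⟨i, h, rfl, rfl, rfl⟩
  · rintro ⟨t, h1, i, h2, τ, rfl, rfl, rfl⟩
    omega

theorem nodup_bsC (P T : ℕ) : (bsC Z P T).Nodup := by
  refine List.nodup_append.2 ⟨List.nodup_range.map fun u u' h => by simpa using h,
    List.nodup_flatMap.2 ⟨fun t _ => List.nodup_flatMap.2 ⟨fun i _ =>
      (nodup_toList _).map fun τ τ' h => by simpa using h, ?_⟩, ?_⟩, ?_⟩
  · refine List.nodup_range.pairwise_of_forall_ne fun i _ i' _ hne => ?_
    simp only [Function.onFun, List.disjoint_left, List.mem_map]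
    rintro _ ⟨τ, -, rfl⟩ ⟨τ', -, h⟩
    exact hne (by simpa using (congrArg (·.2.1) h).symm)
  · refine List.nodup_range.pairwise_of_forall_ne fun t _ t' _ hne => ?_
    simp only [Function.onFun, List.disjoint_left, List.mem_flatMap, List.mem_map]
    rintro _ ⟨i, -, τ, -, rfl⟩ ⟨i', -, τ', -, h⟩
    exact hne (by simpa using (congrArg (·.1) h).symm)
  · simp only [List.mem_flatMap, List.mem_map]
    rintro _ ⟨u, -, rfl⟩ _ ⟨t, -, i, -, τ, -, rfl⟩ h
    simpa using congrArg (·.1) h

theorem pos_le (i j : ℕ) : pos i j ≤ i + 1 := by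
  unfold pos
  split_ifs <;> omega

theorem vars_eqsC {P T : ℕ} (hi : ∀ i, idx i < P) :
    ∀ q ∈ eqsC F acc ini idx T, ∀ l ∈ q.1, l.1 ∈ bsC Z P T := by
  have h1 : ∀ t i p, t ≠ 0 → i + t ≤ T → ∀ l ∈ sel t i p, l.1 ∈ bsC Z P T := by
    intro t i p ht h l hl
    obtain ⟨τ, -, rfl⟩ := List.mem_map.1 hl
    exact mem_bsC.2 (Or.inr ⟨ht, h⟩)
  have h2 : ∀ t i s, i + t ≤ T → ∀ l ∈ lits F ini idx t i s, l.1 ∈ bsC Z P T := by
    intro t i s h l hl
    unfold lits at hl
    split_ifs at hl with ht
    · obtain ⟨β, -, rfl⟩ := List.mem_map.1 hl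
      exact mem_bsC.2 (Or.inl ⟨rfl, hi i, rfl⟩)
    · exact h1 t i _ ht h l hl
  simp only [eqsC, List.forall_mem_cons, List.forall_mem_flatMap, List.forall_mem_map, eqn,
    List.forall_mem_append, List.mem_range]
  refine ⟨fun s _ => h2 T 0 s (by omega), fun t ht i hi js _ =>
    ⟨h1 _ _ _ (by omega) (by omega), h2 _ _ _ ?_⟩⟩
  have := pos_le i js.1
  omega

/-- The number of true literals. -/
def cnt (A : Var Z → Bool) (q : List (Var Z × Bool)) : ℕ :=
  q.countP fun l => decide (A l.1 = l.2)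

omit [DecidableEq Z] [Inhabited Z] in
theorem cnt_sel (A : Var Z → Bool) (t i : ℕ) (p : (Fin 4 → Z) → Bool) :
    cnt A (sel t i p) = (univ.filter fun τ => A (t, i, τ) = true ∧ p τ = true).card := by
  rw [cnt, sel, List.countP_map, List.countP_filter, card_def, filter_val,
    ← Multiset.countP_eq_card_filter, ← coe_toList, Multiset.coe_countP]
  simp

omit [Fintype Z] [DecidableEq Z] [Inhabited Z] in
theorem cnt_neg (A : Var Z → Bool) (q : List (Var Z × Bool)) :
    cnt A (q.map fun l => (l.1, !l.2)) + cnt A q = q.length := by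
  induction q with
  | nil => rfl
  | cons l q ih =>
    simp only [cnt, List.map_cons, List.countP_cons, List.length_cons, decide_eq_true_eq] at ih ⊢
    have : ((if A l.1 = !l.2 then 1 else 0) + if A l.1 = l.2 then 1 else 0) = 1 := by
      cases A l.1 <;> cases l.2 <;> rfl
    omega

theorem card_one {X : Type} [Fintype X] [DecidableEq X] (x : X) (p : X → Prop) [DecidablePred p] :
    (univ.filter fun y => y = x ∧ p y).card = if p x then 1 else 0 := by
  rw [card_filter]
  simp [ite_and]

omit [Inhabited Z] in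
theorem one_hot (y : (Fin 4 → Z) → Bool) (τ₀ : Fin 4 → Z) :
    (∀ j s, (univ.filter fun τ => y τ = true ∧ decide (ev τ j = s) = true).card =
      if τ₀ j = s then 1 else 0) ↔ ∀ τ, y τ = decide (τ = τ₀) := by
  constructor
  · intro h
    have h1 : ∀ τ, y τ = true → τ = τ₀ := fun τ hτ => funext fun j => by
      by_contra hne
      have := h j (τ j)
      rw [if_neg (Ne.symm hne), card_eq_zero, filter_eq_empty_iff] at this
      exact this (mem_univ τ) ⟨hτ, by simp [ev]⟩
    have := h 0 (τ₀ 0)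
    rw [if_pos rfl] at this
    obtain ⟨τ, hτ⟩ := card_pos.1 (this ▸ one_pos)
    have h2 := (mem_filter.1 hτ).2.1
    intro τ'
    rw [Bool.eq_iff_iff, decide_eq_true_eq]
    exact ⟨h1 τ', fun e => by rw [e, ← h1 τ h2, h2]⟩
  · intro h j s
    simp only [h, decide_eq_true_eq, card_one]
    rfl

/-- The assignment agrees with the computation before time `t`. -/
def Good (A : Var Z → Bool) (T t : ℕ) : Prop :=
  ∀ t' < t, ∀ i < T - t', ∀ τ, A (t' + 1, i, τ) =
    decide (τ = fun j : Fin 4 => val F ini idx (fun u => A (0, u, default)) t' (pos i j))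

theorem cnt_lits {A : Var Z → Bool} {T t : ℕ} (h : Good F ini idx A T t) {i : ℕ} (hi : i + t ≤ T)
    (s : Z) : cnt A (lits F ini idx t i s) =
      if val F ini idx (fun u => A (0, u, default)) t i = s then 1 else 0 := by
  cases t with
  | zero =>
    simp only [lits, if_true, val, cnt, List.countP_map, List.countP_filter]
    rcases Bool.eq_false_or_eq_true (A (0, idx i, default)) with hA | hA <;>
      simp only [List.countP_cons, Function.comp, hA] <;> simp
  | succ t =>
    rw [lits, if_neg t.succ_ne_zero, cnt_sel, val]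
    simp only [h t t.lt_succ_self i (by omega), decide_eq_true_eq, card_one]

theorem solves_iff (A : Var Z → Bool) (T : ℕ) : Solves (eqsC F acc ini idx T) A ↔
    Good F ini idx A T T ∧ acc (val F ini idx (fun u => A (0, u, default)) T 0) = true := by
  have step : ∀ t i, Good F ini idx A T t → i < T - t →
      ((∀ js : Fin 4 × Z, cnt A (eqn F ini idx t i js.1 js.2).1 = (eqn F ini idx t i js.1 js.2).2) ↔
      ∀ τ, A (t + 1, i, τ) = decide (τ = fun j : Fin 4 =>
        val F ini idx (fun u => A (0, u, default)) t (pos i j))) := by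
    intro t i h hi
    rw [← one_hot (fun τ => A (t + 1, i, τ)), Prod.forall]
    refine forall₂_congr fun j s => ?_
    have := cnt_neg A (lits F ini idx t (pos i j) s)
    have := pos_le i j
    rw [← cnt_lits F ini idx h (by omega), ← cnt_sel]
    simp only [eqn, cnt, List.countP_append] at *
    omega
  have out : Good F ini idx A T T →
      (cnt A ((univ.toList.filter acc).flatMap (lits F ini idx T 0)) = 1 ↔
        acc (val F ini idx (fun u => A (0, u, default)) T 0) = true) := by
    intro h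
    have e := fun s => cnt_lits F ini idx h (i := 0) (by omega) s
    rw [cnt, List.countP_flatMap]
    simp only [cnt] at e
    simp only [Function.comp_def, e]
    rw [← List.sum_toFinset _ ((nodup_toList _).filter _), sum_ite_eq]
    simp
  simp only [Solves, eqsC, List.forall_mem_cons, List.forall_mem_flatMap, List.forall_mem_map,
    List.mem_range, mem_toList, mem_univ, true_imp_iff]
  constructor
  · rintro ⟨h1, h2⟩
    have : ∀ t ≤ T, Good F ini idx A T t := fun t => by
      induction t with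
      | zero => intro _ t' h; omega
      | succ t ih =>
        intro ht t' h i hi
        rcases Nat.lt_succ_iff_lt_or_eq.1 h with h | rfl
        · exact ih (by omega) t' h i hi
        · exact (step t' i (ih (by omega)) hi).1 (h2 t' ht i hi)
    exact ⟨this T le_rfl, (out (this T le_rfl)).1 h1⟩
  · rintro ⟨h1, h2⟩
    exact ⟨(out h1).2 h2, fun t ht i hi =>
      (step t i (fun t' h => h1 t' (h.trans ht)) hi).2 (h1 t ht i hi)⟩

omit [Fintype Z] [DecidableEq Z] [Inhabited Z] in
theorem val_congr {w w' : ℕ → Bool} (h : ∀ i, w (idx i) = w' (idx i)) (t : ℕ) :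
    val F ini idx w t = val F ini idx w' t := by
  induction t with
  | zero => exact funext fun i => by rw [val, val, h]
  | succ t ih => exact funext fun i => by rw [val, val, ih]

theorem gap_circ {P : ℕ} [NeZero P] (T : ℕ) (hi : ∀ i, idx i < P) (S : Bool → Finset (Fin P → Bool))
    (hS : ∀ s w, w ∈ S s ↔ w 0 = s ∧
      acc (val F ini idx (fun u => (List.ofFn w).getD u false) T 0) = true)
    (hne : (S true).Nonempty) :
    ∃ (N : ℕ) (l r : N.Partition), l.parts = lamS (bsC Z P T) (eqsC F acc ini idx T) ∧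
      r.parts = rhoS (bsC Z P T) (eqsC F acc ini idx T) ∧
      Refines l.parts r.parts ∧ ∀ μ, IsMobius μ → μ l r =
        ((numL (bsC Z P T).length ((eqsC F acc ini idx T).length + 1)).map Nat.factorial).prod *
          ((S true).card - (S false).card) := by
  have hP := Nat.pos_of_neZero P
  have h0 : (bsC Z P T).getD 0 default = (0, 0, default) := by
    simp [bsC, List.getD_eq_getElem?_getD, hP]
  have hw : ∀ (w : Fin P → Bool) (u : Fin P), (List.ofFn w).getD u false = w u := fun w u => by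
    simp [List.getD_eq_getElem?_getD]
  refine gap_sys (nodup_bsC P T)
    (List.ne_nil_of_mem ((mem_bsC (v := (0, 0, default))).2 (Or.inl ⟨rfl, hP, rfl⟩)))
    (vars_eqsC F acc ini idx hi) S (fun w v => if v.1 = 0 then (List.ofFn w).getD v.2.1 false
      else decide (v.2.2 = fun j : Fin 4 =>
        val F ini idx (fun u => (List.ofFn w).getD u false) (v.1 - 1) (pos v.2.1 j)))
    (fun s w h => ?_) (fun w w' h => funext fun u => ?_) (fun A h => ?_) hne
  · rw [hS] at h
    rw [h0, solves_iff]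
    exact ⟨(hw w 0).trans h.1, fun t _ i _ τ => rfl, h.2⟩
  · have := h (0, u, default) (mem_bsC.2 (Or.inl ⟨rfl, u.2, rfl⟩))
    rwa [if_pos rfl, if_pos rfl, hw, hw] at this
  · rw [solves_iff] at h
    have e := val_congr F ini idx (w' := fun u => A (0, u, default))
      (w := fun u => (List.ofFn fun u : Fin P => A (0, u, default)).getD u false)
      fun i => hw _ ⟨_, hi i⟩
    refine ⟨fun u => A (0, u, default), (hS _ _).2 ⟨by rw [h0]; rfl, by rw [e]; exact h.2⟩,
      fun ⟨t, i, τ⟩ hv => ?_⟩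
    rcases mem_bsC.1 hv with ⟨rfl, h2, rfl⟩ | ⟨h1, h2⟩
    · exact (hw (fun u => A (0, u, default)) ⟨i, h2⟩).symm
    · obtain ⟨t, rfl⟩ := Nat.exists_eq_succ_of_ne_zero h1
      rw [if_neg h1, e]
      exact h.1 t (by simp at h2; omega) i (by simp at h2; omega) τ

section pt

variable {α : Type} [Enc α] [Enc Z] [Enc (Fin 4 → Z)] [Enc (Fin 4)]

omit [Enc Z] [Enc (Fin 4)] in
theorem pt_bsC {P T : α → ℕ} (hP : PT P) (hT : PT T) : PT fun x => bsC Z (P x) (T x) := by
  unfold bsC
  fun_prop

@[fun_prop] theorem pt_pos {i : α → ℕ} {j : α → Fin 4} (hi : PT i) (hj : PT j) :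
    PT fun x => pos (i x) (j x) := by
  have : PT fun x => (j x).val := (PT.of_finite Fin.val).comp hj
  unfold pos
  fun_prop

omit [DecidableEq Z] [Inhabited Z] in
@[fun_prop] theorem pt_ev {τ : α → Fin 4 → Z} {j : α → Fin 4} (hτ : PT τ) (hj : PT j) :
    PT fun x => ev (τ x) (j x) :=
  (PT.of_finite fun p : (Fin 4 → Z) × Fin 4 => ev p.1 p.2).comp (hτ.mk hj)

omit [Enc (Fin 4)] in
theorem pt_lits {ini : α → ℕ → Bool → Z} {idx : α → ℕ → ℕ}
    (h1 : PT fun p : α × ℕ × Bool => ini p.1 p.2.1 p.2.2) (h2 : PT fun p : α × ℕ => idx p.1 p.2) :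
    PT fun p : α × ℕ × ℕ × Z => lits F (ini p.1) (idx p.1) p.2.1 p.2.2.1 p.2.2.2 := by
  have hF : PT fun p : Bool × (Fin 4 → Z) => F p.1 p.2 := PT.of_finite _
  unfold lits sel
  fun_prop

theorem pt_eqsC {ini : α → ℕ → Bool → Z} {idx : α → ℕ → ℕ} {T : α → ℕ}
    (h1 : PT fun p : α × ℕ × Bool => ini p.1 p.2.1 p.2.2) (h2 : PT fun p : α × ℕ => idx p.1 p.2)
    (hT : PT T) : PT fun x => eqsC F acc (ini x) (idx x) (T x) := by
  have h := pt_lits F h1 h2
  have h3 : PT fun p : ((α × ℕ) × ℕ) × Fin 4 × Z =>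
      lits F (ini p.1.1.1) (idx p.1.1.1) p.1.1.2 (pos p.1.2 p.2.1) p.2.2 :=
    h.comp (g := fun p : ((α × ℕ) × ℕ) × Fin 4 × Z => (p.1.1.1, p.1.1.2, pos p.1.2 p.2.1, p.2.2))
      (by fun_prop)
  unfold eqsC eqn sel
  refine PT.cons (PT.mk (PT.flatMap (h.comp (g := fun p : α × Z => (p.1, T p.1, 0, p.2))
    (by fun_prop)) (by fun_prop)) (by fun_prop)) (PT.flatMap (PT.flatMap (PT.map
      (PT.mk (PT.append (by fun_prop) (PT.map (by fun_prop) h3)) h3.length)
      (by fun_prop)) (by fun_prop)) (by fun_prop))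

end pt

end Pack

end Pool.Agent.Work.MP_84e666_co
end

-- merged part: Pool.Agent.Work.MP_84e666_co.N.Sys
section
/-! Systems given by lists of literals and cellular computations, with outer variables. -/

namespace Pool.Agent.Work.MP_84e666_co.NP

open Finset Pack Pool.Agent.Lib.Poly

open Classical in
/-- The weighted number of strings of length `k` with a property. -/
noncomputable def wsL (k : ℕ) (q : List Bool → Prop) : ℤ :=
  ∑ w ∈ univ.filter fun w : Fin k → Bool => q (List.ofFn w),
    ∏ i, if w i = true then 36 else -12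

section sys

variable {V : Type} [DecidableEq V] [Inhabited V]

/-- The lower partition of a system. -/
def lamT (K : ℕ) (bs : List V) (eqs : List (List (V × Bool) × ℕ)) : List ℕ :=
  lamN bs.length (eqs.length + 1) K (aS bs eqs) (bS bs eqs) (tot eqs + eqs.length + 1)

/-- The upper partition of a system. -/
def rhoT (K : ℕ) (bs : List V) (eqs : List (List (V × Bool) × ℕ)) : List ℕ :=
  rhoN bs.length (eqs.length + 1) K (aS bs eqs) (bS bs eqs) (tot eqs + eqs.length + 1)

theorem gap_sys {bs : List V} {eqs : List (List (V × Bool) × ℕ)} {K : ℕ} (hn : bs.Nodup)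
    (h0 : bs ≠ []) (hv : ∀ q ∈ eqs, ∀ l ∈ q.1, l.1 ∈ bs) (hK : K ≤ bs.length) {A₀ : V → Bool}
    (hA : Solves eqs A₀) :
    ∃ (N : ℕ) (l r : N.Partition), l.parts = lamT K bs eqs ∧ r.parts = rhoT K bs eqs ∧
      Refines l.parts r.parts ∧ ∀ μ, IsMobius μ → μ l r =
        wsL K fun w => ∃ A, Solves eqs A ∧ w = (bs.take K).map A := by
  classical
  have : NeZero bs.length := ⟨fun h => h0 (List.length_eq_zero_iff.1 h)⟩
  have e : ∀ A : V → Bool, Sol (aS bs eqs) (bS bs eqs) bs.length (eqs.length + 1)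
      (fun i => A bs[i]) ↔ Solves eqs A := fun A => by
    have := mem_sols hn hv A (A (bs.getD 0 default))
    rw [sols, mem_filter, List.getD_eq_getElem _ _ (Nat.pos_of_neZero _)] at this
    simpa [Sol] using this
  have e' : ∀ A : V → Bool, (List.ofFn fun i : Fin K =>
      cut K (fun i : Fin bs.length => A bs[i]) (i.castLE hK)) = (bs.take K).map A := fun A =>
    List.ext_getElem (by simp [hK]) fun i h1 h2 => by
      simp only [List.length_ofFn] at h1
      simp [cut]
  obtain ⟨N, l, r, h1, h2, h3, h4⟩ := gap_np (K := K) (fun l => col_sum bs eqs l.1 l.2)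
    (Nat.succ_pos _) ((e A₀).2 hA)
  refine ⟨N, l, r, h1, h2, h3, fun μ hμ => (h4 μ hμ).trans (sum_bij
    (fun u _ => fun i : Fin K => u (i.castLE hK)) (fun u hu => ?_) (fun u hu u' hu' h => ?_)
    (fun w hw => ?_) fun u _ => ?_)⟩
  · obtain ⟨z, hz, rfl⟩ := mem_image.1 hu
    let A : V → Bool := fun v => if h : bs.idxOf v < bs.length then z ⟨_, h⟩ else false
    have c : (fun i : Fin bs.length => A bs[i]) = z := funext fun i => by
      simp [A, hn.idxOf_getElem]
    exact mem_filter.2 ⟨mem_univ _, A, (e A).1 (c ▸ (mem_filter.1 hz).2), c ▸ e' A⟩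
  · obtain ⟨z, -, rfl⟩ := mem_image.1 hu
    obtain ⟨z', -, rfl⟩ := mem_image.1 hu'
    funext v
    by_cases c : v.val < K
    · exact congrFun h ⟨v, c⟩
    · simp [cut, c]
  · obtain ⟨-, A, a1, a2⟩ := mem_filter.1 hw
    exact ⟨_, mem_image_of_mem _ (mem_filter.2 ⟨mem_univ _, (e A).2 a1⟩),
      List.ofFn_injective ((e' A).trans a2.symm)⟩
  · rw [← prod_subset (subset_univ (univ.map (Fin.castLEEmb hK))) fun v _ hv => if_neg fun c =>
      hv (mem_map.2 ⟨⟨v, c⟩, mem_univ _, rfl⟩), prod_map]
    simp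

end sys

theorem gap_circ {Z : Type} [Fintype Z] [DecidableEq Z] [Inhabited Z]
    (F : Bool → (Fin 4 → Z) → Z) (acc : Z → Bool) (ini : ℕ → Bool → Z) (idx : ℕ → ℕ)
    {P K : ℕ} (hP : 0 < P) (hK : K ≤ P) (T : ℕ) (hi : ∀ i, idx i < P) (q : List Bool → Prop)
    (hq : ∀ l : List Bool, l.length = P →
      (q l ↔ acc (val F ini idx (fun u => l.getD u false) T 0) = true))
    (hne : ∃ l, l.length = P ∧ q l) :
    ∃ (N : ℕ) (l r : N.Partition), l.parts = lamT K (bsC Z P T) (eqsC F acc ini idx T) ∧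
      r.parts = rhoT K (bsC Z P T) (eqsC F acc ini idx T) ∧
      Refines l.parts r.parts ∧ ∀ μ, IsMobius μ → μ l r =
        wsL K fun w => ∃ l, l.length = P ∧ q l ∧ w = l.take K := by
  have s : ∀ l : List Bool, l.length = P → q l → Solves (eqsC F acc ini idx T) fun v =>
      if v.1 = 0 then l.getD v.2.1 false else decide (v.2.2 = fun j : Fin 4 =>
        val F ini idx (fun u => l.getD u false) (v.1 - 1) (pos v.2.1 j)) := fun l h1 h2 =>
    (solves_iff _ _ _ _ _ _).2 ⟨fun t _ i _ τ => rfl, (hq l h1).1 h2⟩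
  have e : ∀ A : Var Z → Bool, ((bsC Z P T).take K).map A =
      ((List.range P).map fun u => A (0, u, default)).take K := fun A => by
    rw [bsC, List.take_append_of_le_length (by simpa using hK), List.map_take, List.map_map]
    rfl
  obtain ⟨l₀, h1, h2⟩ := hne
  obtain ⟨N, l, r, a1, a2, a3, a4⟩ := gap_sys (K := K) (nodup_bsC P T)
    (List.ne_nil_of_mem ((mem_bsC (v := (0, 0, default))).2 (Or.inl ⟨rfl, hP, rfl⟩)))
    (vars_eqsC F acc ini idx hi) (by simp [bsC]; omega) (s l₀ h1 h2)
  refine ⟨N, l, r, a1, a2, a3, fun μ hμ => (a4 μ hμ).trans (congrArg _ (funext fun w =>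
    propext ⟨?_, ?_⟩))⟩
  · rintro ⟨A, b1, rfl⟩
    refine ⟨_, by simp, (hq _ (by simp)).2 ?_, e A⟩
    rw [val_congr F ini idx (w' := fun u => A (0, u, default)) fun i => by simp [hi i]]
    exact ((solves_iff _ _ _ _ _ _).1 b1).2
  · rintro ⟨l, b1, b2, rfl⟩
    refine ⟨_, s l b1 b2, (e _).trans (congrArg _ ?_) |>.symm⟩
    exact List.ext_getElem (by simp [b1]) fun i h1 h2 => by simp [h2]

section pt

variable {α : Type} [Enc α]

@[fun_prop] theorem pt_zL {f g h k : α → ℕ} (hf : PT f) (hg : PT g) (hh : PT h) (hk : PT k) :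
    PT fun x => zL (f x) (g x) (h x) (k x) := by
  unfold zL
  fun_prop

@[fun_prop] theorem pt_zS {f g h : α → ℕ} (hf : PT f) (hg : PT g) (hh : PT h) :
    PT fun x => zS (f x) (g x) (h x) := by
  unfold zS
  fun_prop

@[fun_prop] theorem pt_zG {f g h k : α → ℕ} (hf : PT f) (hg : PT g) (hh : PT h) (hk : PT k) :
    PT fun x => zG (f x) (g x) (h x) (k x) := by
  unfold zG
  fun_prop

@[fun_prop] theorem pt_bN {f g : α → ℕ} (hf : PT f) (hg : PT g) :
    PT fun x => bN (f x) (g x) := by
  unfold bN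
  fun_prop

@[fun_prop] theorem pt_hi {f g h k i j l : α → ℕ} (hf : PT f) (hg : PT g) (hh : PT h) (hk : PT k)
    (h1 : PT i) (h2 : PT j) (h3 : PT l) :
    PT fun x => hi (f x) (g x) (h x) (k x) (i x) (j x) (l x) := by
  unfold hi
  fun_prop

theorem pt_chainL {f : α → ℕ} {H : α → List (ℕ × ℕ)} (hf : PT f) (hH : PT H) :
    PT fun x => chainL (f x) (H x) := by
  unfold chainL
  fun_prop

theorem pt_homeL {f : α → ℕ} {H : α → List (ℕ × ℕ)} (hf : PT f) (hH : PT H) :
    PT fun x => homeL (f x) (H x) := by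
  unfold homeL
  fun_prop

@[fun_prop] theorem pt_HL {f g : α → List ℕ} (hf : PT f) (hg : PT g) :
    PT fun x => HL (f x) (g x) := by
  unfold HL
  fun_prop

theorem pt_fixL {S : α → ℕ} {f g : α → List ℕ} (hS : PT S) (hf : PT f) (hg : PT g) :
    PT fun x => fixL (S x) (f x) (g x) := by
  unfold fixL
  refine PT.append (by fun_prop) (pt_chainL ?_ (by fun_prop))
  unfold bB
  fun_prop

theorem pt_topL {S : α → ℕ} {f g : α → List ℕ} (hS : PT S) (hf : PT f) (hg : PT g) :
    PT fun x => topL (S x) (f x) (g x) := by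
  unfold topL
  refine PT.append (by fun_prop) (pt_homeL ?_ (by fun_prop))
  unfold bB
  fun_prop

variable {V : Type} [DecidableEq V] [Inhabited V] [Enc V] {B : α → List V}
  {E : α → List (List (V × Bool) × ℕ)} {n m K M : α → ℕ}

theorem pt_linkL (hn : PT n) (hm : PT m) (hB : PT B) (hE : PT E) :
    PT fun x => linkL (n x) (m x) (aS (B x) (E x)) := by
  unfold linkL
  fun_prop

theorem pt_allL (hn : PT n) (hm : PT m) (hK : PT K) (hM : PT M) (hB : PT B) (hE : PT E) :
    PT fun x => allL (n x) (m x) (K x) (aS (B x) (E x)) (M x) := by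
  unfold allL
  exact PT.append (pt_linkL hn hm hB hE) (by fun_prop)

omit [DecidableEq V] [Inhabited V] in
theorem pt_r1L (hn : PT n) (hm : PT m) (hK : PT K) (hM : PT M) (hB : PT B) (hE : PT E) :
    PT fun x => r1L (n x) (m x) (K x) (bS (B x) (E x)) (M x) := by
  unfold r1L uL uE
  fun_prop

theorem pt_r2L (hn : PT n) (hm : PT m) (hK : PT K) (hM : PT M) (hB : PT B) (hE : PT E) :
    PT fun x => r2L (n x) (m x) (K x) (aS (B x) (E x)) (M x) := by
  unfold r2L
  exact PT.append (pt_linkL hn hm hB hE) (by fun_prop)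

theorem pt_lam1 (hn : PT n) (hm : PT m) (hK : PT K) (hM : PT M) (hB : PT B) (hE : PT E) :
    PT fun x => lam1 (n x) (m x) (K x) (aS (B x) (E x)) (bS (B x) (E x)) (M x) := by
  have h := pt_allL hn hm hK hM hB hE
  exact PT.append (pt_fixL (by fun_prop) (pt_r1L hn hm hK hM hB hE) (pt_r2L hn hm hK hM hB hE)) h

theorem pt_lamT (hK : PT K) (hB : PT B) (hE : PT E) : PT fun x => lamT (K x) (B x) (E x) := by
  have h := pt_lam1 hB.length hE.length.succ hK (M := fun x => tot (E x) + (E x).length + 1)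
    (by fun_prop) hB hE
  have g : ∀ S : α → ℕ, PT S → PT fun x => (List.range (B x).length).flatMap fun v =>
      [(S x + 1) * (2 * v + 1 + 1), (S x + 1) * (2 * v + 1)] := fun S hS => by fun_prop
  unfold lamT lamN mk
  exact PT.append h (g _ (by fun_prop))

theorem pt_rhoT (hK : PT K) (hB : PT B) (hE : PT E) : PT fun x => rhoT (K x) (B x) (E x) := by
  have hM : PT fun x => tot (E x) + (E x).length + 1 := by fun_prop
  have h := pt_lam1 hB.length hE.length.succ hK hM hB hE
  have h' := pt_allL hB.length hE.length.succ hK hM hB hE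
  have g : ∀ S b M : α → ℕ, PT S → PT b → PT M → PT fun x =>
      (List.range (B x).length).flatMap fun v =>
        [(S x + 1) * (2 * v + 1 + 1) + if v < K x then zS (b x) v (M x) + zG (b x) v 9 0 else 0,
          (S x + 1) * (2 * v + 1) + if v < K x then zS (b x) v (M x) + zG (b x) v 13 0 else 0] :=
    fun S b M hS hb hM => by fun_prop
  unfold rhoT rhoN mk
  exact PT.append (pt_topL (by fun_prop) (pt_r1L hB.length hE.length.succ hK hM hB hE)
    (pt_r2L hB.length hE.length.succ hK hM hB hE)) (g _ _ _ (by fun_prop) (by fun_prop) hM)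

end pt

end Pool.Agent.Work.MP_84e666_co.NP
end

-- merged part: Pool.Agent.Work.MP_84e666_co.H45Hard
section
/-! Differences of counting functions as values of the Möbius function. -/

namespace Pool.Agent.Work.MP_84e666_co

namespace Pack

open Finset Pool.Agent.Lib.Poly Pool.Agent.Lib.Cx Pool.Agent.Lib.Cx.Tab
open Pool.Agent.Work.MP_32aa60_lc (pt_of_tm2 sz_list_le)

/-- An encoding of a finite type. -/
@[instance_reducible] noncomputable def encF (X : Type) [Fintype X] : Enc X :=
  ⟨fun x => enc (Fintype.equivFin X x).val, fun _ _ h =>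
    (Fintype.equivFin X).injective (Fin.ext (Enc.inj h))⟩

section machine

variable {a b d : ℕ} (M : NM (Fin a) (Fin b) (Fin d))

/-- A cell: the state and one row of the stacks. -/
abbrev Cell (a b d : ℕ) := Fin a × (Fin b → Option (Fin d))

/-- The local rule. -/
def rule (z : Bool) (τ : Fin 4 → Cell a b d) : Cell a b d :=
  (M.nxt (τ 0).1 ((τ 0).2 (M.stk (τ 0).1)), fun k =>
    if mode (opOn M (τ 0).1 ((τ 0).2 (M.stk (τ 0).1)) k) = 2 ∧ z = true then
      pushed (opOn M (τ 0).1 ((τ 0).2 (M.stk (τ 0).1)) k)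
    else if mode (opOn M (τ 0).1 ((τ 0).2 (M.stk (τ 0).1)) k) = 0 then (τ 2).2 k
    else if mode (opOn M (τ 0).1 ((τ 0).2 (M.stk (τ 0).1)) k) = 1 then (τ 3).2 k else (τ 1).2 k)

variable (q0 : Fin a) (k0 : Fin b) (ι : Bool → Fin d)

/-- The cell with a given input symbol. -/
def cell0 (s : Bool × Bool) : Cell a b d :=
  (q0, fun k => if k = k0 ∧ s.1 = true then some (ι s.2) else none)

/-- The input symbol at a position. -/
def sym (pre : List Bool) (P i : ℕ) (β : Bool) : Bool × Bool :=
  if i < pre.length then (true, pre.getD i false)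
  else if (i - pre.length) / 3 < P then
    (true, if (i - pre.length) % 3 = 0 then true else if (i - pre.length) % 3 = 1 then β else false)
  else (false, false)

/-- The witness bit read at a position. -/
def widx (pre : List Bool) (P i : ℕ) : ℕ :=
  if (i - pre.length) / 3 < P then (i - pre.length) / 3 else 0

theorem val_run (pre w : List Bool) (t i : ℕ) :
    val (rule M) (fun i β => cell0 q0 k0 ι (sym pre w.length i β)) (widx pre w.length)
      (fun u => w.getD u false) t i = ((M.step^[t] (start q0 k0 ι pre w)).1,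
        fun k => ((M.step^[t] (start q0 k0 ι pre w)).2 k)[i]?) := by
  induction t generalizing i with
  | zero =>
    refine Prod.ext rfl (funext fun k => ?_)
    simp only [val, cell0, Function.iterate_zero, id]
    by_cases hk : k = k0
    · subst hk
      rw [start_get, sym, widx]
      split_ifs with h1 h2 <;> simp_all
    · simp [start, hk]
  | succ t ih =>
    rw [Function.iterate_succ_apply', val]
    simp only [ih, rule, step_fst, step_snd, apply_get, decide_eq_true_eq]
    refine Prod.ext rfl (funext fun k => ?_)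
    have p0 : pos i ((0 : Fin 4) : ℕ) = 0 := rfl
    have p1 : pos i ((1 : Fin 4) : ℕ) = i - 1 := rfl
    have p2 : pos i ((2 : Fin 4) : ℕ) = i := rfl
    have p3 : pos i ((3 : Fin 4) : ℕ) = i + 1 := rfl
    simp only [p0, p1, p2, p3]
    clear ih p0 p1 p2 p3
    generalize M.step^[t] (start q0 k0 ι pre w) = c
    generalize opOn M c.1 (c.2 (M.stk c.1))[0]? k = o
    split_ifs <;> rfl

end machine

/-- The number of strings of length `k` that pass a test. -/
def cardL (k : ℕ) (q : List Bool → Bool) : ℕ :=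
  (univ.filter fun w : Fin k → Bool => q (List.ofFn w) = true).card

theorem gap_verifier {α : Type} [Enc α] (R : α × List Bool → Bool) (hR : PT R) (P : α → ℕ)
    (hP : PT P) (hne : ∀ x, 0 < cardL (P x + 1) fun l => l.headD false && R (x, l)) :
    ∃ (lam rho : α → List ℕ) (c : α → ℕ), PT lam ∧ PT rho ∧ PT (fun x => Bin.mk (c x)) ∧
      ∀ x, 0 < c x ∧ ∃ (N : ℕ) (l r : N.Partition), l.parts = lam x ∧ r.parts = rho x ∧
        Refines l.parts r.parts ∧ ∀ μ, IsMobius μ → μ l r = c x *
          ((cardL (P x + 1) fun l => l.headD false && R (x, l) : ℕ) -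
            (cardL (P x + 1) fun l => !l.headD false && R (x, l) : ℕ)) := by
  obtain ⟨tmc⟩ := hR.tm2 enc enc R (fun a => a) (fun _ => rfl) fun _ => rfl
  obtain ⟨a, b, d, M, q0, qacc, qrej, k0, ι, c, hne', -, -, htime, -⟩ :=
    exists_NM tmc.tm tmc.outputAlphabet
  let ι' : Bool → Fin d := fun β => ι (tmc.inputAlphabet.symm β)
  let pre : α → List Bool := fun x => enc (x, ())
  let T : α → ℕ := fun x => c * (tmc.time.eval (2 * sz x + 1 + 3 * (P x + 1)) + 1)
  have e : ∀ x (w : List Bool), enc (x, w) = pre x ++ w.flatMap tri := by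
    intro x w
    have : enc w = w.flatMap tri := encode_list w
    simp only [pre, enc_pair, this]
    simp [enc]
  have hrun : ∀ x (w : List Bool), w.length ≤ P x + 1 →
      decide ((M.step^[T x] (start q0 k0 ι' (pre x) w)).1 = qacc) = R (x, w) := by
    intro x w hw
    obtain ⟨⟨n, hn⟩, hle⟩ := tmc.outputsFun (x, w)
    dsimp only at hle
    have hl : (enc (x, w)).length ≤ 2 * sz x + 1 + 3 * (P x + 1) := by
      have h1 : (enc (x, w)).length = sz (x, w) := rfl
      have h2 := sz_list_le w 1 (fun _ _ => le_rfl)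
      rw [h1, sz_pair]
      omega
    have h1 := htime _ (tmc.outputAlphabet.symm (R (x, w))) n hn (T x)
      (Nat.mul_le_mul_left _ (Nat.add_le_add_right (hle.trans (eval_mono _ hl)) _))
    have e2 : start q0 k0 ι' (pre x) w =
        (q0, Function.update (fun _ => []) k0
          ((List.map tmc.inputAlphabet.invFun (enc (x, w))).map ι)) := by
      simp only [start, List.map_map, e]
      rfl
    rw [e2, h1]
    cases R (x, w) <;> simp [hne'.symm]
  let _ : Inhabited (Cell a b d) := ⟨(q0, fun _ => none)⟩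
  let _ : DecidableEq (Cell a b d) := Classical.decEq _
  let _ := encF (Cell a b d)
  let _ := encF (Fin 4 → Cell a b d)
  let _ := encF (Fin 4)
  let ini : α → ℕ → Bool → Cell a b d := fun x i β => cell0 q0 k0 ι' (sym (pre x) (P x + 1) i β)
  let idx : α → ℕ → ℕ := fun x => widx (pre x) (P x + 1)
  let acc : Cell a b d → Bool := fun z => decide (z.1 = qacc)
  have hpre : PT pre := by fun_prop
  have hT : PT T := by fun_prop
  have hB : PT fun x => bsC (Cell a b d) (P x + 1) (T x) := pt_bsC (by fun_prop) hT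
  have hE : PT fun x => eqsC (rule M) acc (ini x) (idx x) (T x) :=
    pt_eqsC _ _ ((PT.of_finite (cell0 q0 k0 ι')).comp (by unfold sym; fun_prop))
      (by simp only [idx, widx]; fun_prop) hT
  refine ⟨_, _, _, pt_lamS hB hE, pt_rhoS hB hE, pt_facs (pt_numL hB.length hE.length.succ),
    fun x => ⟨List.prod_pos fun k hk => ?_, ?_⟩⟩
  · obtain ⟨k, -, rfl⟩ := List.mem_map.1 hk
    exact k.factorial_pos
  · refine gap_circ (rule M) acc (ini x) (idx x) (T x) (fun i => ?_) (fun s => univ.filter fun w =>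
      ((bif s then (List.ofFn w).headD false else !(List.ofFn w).headD false) &&
        R (x, List.ofFn w)) = true) (fun s w => ?_) (card_pos.1 (hne x))
    · simp only [idx, widx]
      split_ifs <;> omega
    · have := val_run M q0 k0 ι' (pre x) (List.ofFn w) (T x) 0
      rw [List.length_ofFn] at this
      simp only [ini, idx, acc, this, hrun x (List.ofFn w) (by simp)]
      cases s <;> simp

theorem cardL_succ (k : ℕ) (q : List Bool → Bool) : cardL (k + 1) q =
    cardL k (fun l => q (true :: l)) + cardL k fun l => q (false :: l) := by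
  simp only [cardL, card_filter]
  rw [← (Fin.consEquiv fun _ : Fin (k + 1) => Bool).sum_comp, Fintype.sum_prod_type,
    Fintype.sum_bool]
  simp [Fin.consEquiv]

theorem cardL_false (k : ℕ) : (cardL k fun _ => false) = 0 := by simp [cardL]

theorem cardL_zeros (k : ℕ) : (cardL k fun l => l.all fun β => !β) = 1 := by
  induction k with
  | zero => simp [cardL]
  | succ k ih => simpa [cardL_succ, cardL_false] using ih

theorem cardL_pad (r p : ℕ) (q : List Bool → Bool) :
    (cardL (r + p) fun l => q (l.take p) && (l.drop p).all fun β => !β) = cardL p q := by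
  induction p generalizing q with
  | zero =>
    cases h : q []
    · simp [cardL, h]
    · simpa [h, cardL] using cardL_zeros r
  | succ p ih =>
    rw [← add_assoc, cardL_succ, cardL_succ, ← ih, ← ih]
    rfl

theorem gap_hard {f g : List Bool → ℕ} (hf : IsSharpP f) (hg : IsSharpP g) :
    ∃ (lam rho : List Bool → List ℕ) (c : List Bool → ℕ),
      N68a2faeb.IsPolyTime (fun x => unary (lam x)) ∧
      N68a2faeb.IsPolyTime (fun x => unary (rho x)) ∧ N68a2faeb.IsPolyTime c ∧
      ∀ x, 0 < c x ∧ ∃ (n : ℕ) (l r : n.Partition), l.parts = lam x ∧ r.parts = rho x ∧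
        Refines l.parts r.parts ∧ ∀ μ, IsMobius μ → μ l r = c x * ((f x : ℤ) - g x) := by
  obtain ⟨p, R, hR, hf⟩ := hf
  obtain ⟨q, S, hS, hg⟩ := hg
  have hR' : PT R := pt_of_tm2 hR R (fun a => a) (fun _ => rfl) fun _ => rfl
  have hS' : PT S := pt_of_tm2 hS S (fun a => a) (fun _ => rfl) fun _ => rfl
  let Q : List Bool × List Bool → Bool := fun z =>
    bif z.2.tail.headD false then z.2.tail.tail.all fun β => !β
    else bif z.2.headD false then R (z.1, z.2.tail.tail.take (p.eval z.1.length)) &&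
      (z.2.tail.tail.drop (p.eval z.1.length)).all fun β => !β
    else S (z.1, z.2.tail.tail.take (q.eval z.1.length)) &&
      (z.2.tail.tail.drop (q.eval z.1.length)).all fun β => !β
  have h1 : ∀ x, (cardL (q.eval x.length + p.eval x.length + 1 + 1) fun l =>
      l.headD false && Q (x, l)) = 1 + f x := fun x => by
    rw [cardL_succ, cardL_succ, hf]
    simp only [Q, List.headD_cons, List.tail_cons, Bool.true_and, Bool.false_and, cond_true,
      cond_false, cardL_false, cardL_zeros, cardL_pad _ _ fun l => R (x, l)]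
    rfl
  have h2 : ∀ x, (cardL (q.eval x.length + p.eval x.length + 1 + 1) fun l =>
      !l.headD false && Q (x, l)) = 1 + g x := fun x => by
    rw [cardL_succ, cardL_succ _ fun l => _ && Q (x, false :: l), hg, add_comm (q.eval _)]
    simp only [Q, List.headD_cons, List.tail_cons, Bool.true_and, Bool.false_and, cond_true,
      cond_false, cardL_false, cardL_zeros, cardL_pad _ _ fun l => S (x, l), Bool.not_true,
      Bool.not_false, zero_add]
    rfl
  obtain ⟨lam, rho, c, a1, a2, a3, a4⟩ := gap_verifier Q (by fun_prop)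
    (fun x => q.eval x.length + p.eval x.length + 1) (by fun_prop) fun x => by rw [h1]; omega
  refine ⟨lam, rho, c, PT.isPolyTime_list (by unfold unary; fun_prop),
    PT.isPolyTime_list (by unfold unary; fun_prop),
    a3.tm2 _ _ c (fun a => a) (fun _ => rfl) fun _ => rfl, fun x => ⟨(a4 x).1, ?_⟩⟩
  obtain ⟨n, l, r, b1, b2, b3, b4⟩ := (a4 x).2
  refine ⟨n, l, r, b1, b2, b3, fun μ hμ => ?_⟩
  rw [b4 μ hμ, h1, h2]
  push_cast
  ring

end Pack

end Pool.Agent.Work.MP_84e666_co
end

-- merged part: Pool.Agent.Work.MP_84e666_co.N.Hard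
section
/-! Differences of projected counting functions as values of the Möbius function. -/

namespace Pool.Agent.Work.MP_84e666_co.NP

open Finset Pack Pool.Agent.Lib.Poly Pool.Agent.Lib.Cx Pool.Agent.Lib.Cx.Tab
open Pool.Agent.Work.MP_32aa60_lc (pt_of_tm2 sz_list_le)

theorem gap_verifier {α : Type} [Enc α] (R : α × List Bool → Bool) (hR : PT R) (P K : α → ℕ)
    (hP : PT P) (hK : PT K) (h0 : ∀ x, 0 < P x) (h1 : ∀ x, K x ≤ P x)
    (hne : ∀ x, ∃ l, l.length = P x ∧ R (x, l) = true) :
    ∃ lam rho : α → List ℕ, PT lam ∧ PT rho ∧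
      ∀ x, ∃ (N : ℕ) (l r : N.Partition), l.parts = lam x ∧ r.parts = rho x ∧
        Refines l.parts r.parts ∧ ∀ μ, IsMobius μ → μ l r =
          wsL (K x) fun w => ∃ l, l.length = P x ∧ R (x, l) = true ∧ w = l.take (K x) := by
  obtain ⟨tmc⟩ := hR.tm2 enc enc R (fun a => a) (fun _ => rfl) fun _ => rfl
  obtain ⟨a, b, d, M, q0, qacc, qrej, k0, ι, c, hne', -, -, htime, -⟩ :=
    exists_NM tmc.tm tmc.outputAlphabet
  let ι' : Bool → Fin d := fun β => ι (tmc.inputAlphabet.symm β)
  let pre : α → List Bool := fun x => enc (x, ())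
  let T : α → ℕ := fun x => c * (tmc.time.eval (2 * Lib.Poly.sz x + 1 + 3 * P x) + 1)
  have e : ∀ x (w : List Bool), enc (x, w) = pre x ++ w.flatMap Tab.tri := by
    intro x w
    have : enc w = w.flatMap Tab.tri := encode_list w
    simp only [pre, enc_pair, this]
    simp [enc]
  have hrun : ∀ x (w : List Bool), w.length ≤ P x →
      decide ((M.step^[T x] (start q0 k0 ι' (pre x) w)).1 = qacc) = R (x, w) := by
    intro x w hw
    obtain ⟨⟨n, hn⟩, hle⟩ := tmc.outputsFun (x, w)
    dsimp only at hle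
    have hl : (enc (x, w)).length ≤ 2 * Lib.Poly.sz x + 1 + 3 * P x := by
      have h1 : (enc (x, w)).length = Lib.Poly.sz (x, w) := rfl
      have h2 := sz_list_le w 1 (fun _ _ => le_rfl)
      rw [h1, sz_pair]
      omega
    have h1 := htime _ (tmc.outputAlphabet.symm (R (x, w))) n hn (T x)
      (Nat.mul_le_mul_left _ (Nat.add_le_add_right (hle.trans (eval_mono _ hl)) _))
    have e2 : start q0 k0 ι' (pre x) w =
        (q0, Function.update (fun _ => []) k0
          ((List.map tmc.inputAlphabet.invFun (enc (x, w))).map ι)) := by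
      simp only [start, List.map_map, e]
      rfl
    rw [e2, h1]
    cases R (x, w) <;> simp [hne'.symm]
  let _ : Inhabited (Cell a b d) := ⟨(q0, fun _ => none)⟩
  let _ : DecidableEq (Cell a b d) := Classical.decEq _
  let _ := encF (Cell a b d)
  let _ := encF (Fin 4 → Cell a b d)
  let _ := encF (Fin 4)
  let ini : α → ℕ → Bool → Cell a b d := fun x i β => cell0 q0 k0 ι' (sym (pre x) (P x) i β)
  let idx : α → ℕ → ℕ := fun x => widx (pre x) (P x)
  let acc : Cell a b d → Bool := fun z => decide (z.1 = qacc)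
  have hpre : PT pre := by fun_prop
  have hT : PT T := by fun_prop
  have hB : PT fun x => bsC (Cell a b d) (P x) (T x) := pt_bsC hP hT
  have hE : PT fun x => eqsC (rule M) acc (ini x) (idx x) (T x) :=
    pt_eqsC _ _ ((PT.of_finite (cell0 q0 k0 ι')).comp (by unfold sym; fun_prop))
      (by simp only [idx, widx]; fun_prop) hT
  refine ⟨_, _, pt_lamT hK hB hE, pt_rhoT hK hB hE, fun x => gap_circ (rule M) acc (ini x) (idx x)
    (h0 x) (h1 x) (T x) (fun i => ?_) _ (fun l hl => ?_) (hne x)⟩
  · have := h0 x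
    simp only [idx, widx]
    split_ifs <;> omega
  · have := val_run M q0 k0 ι' (pre x) l (T x) 0
    rw [hl] at this
    simp only [ini, idx, acc, this, hrun x l hl.le]

theorem wsL_succ (k : ℕ) (q : List Bool → Prop) : wsL (k + 1) q =
    36 * wsL k (fun l => q (true :: l)) - 12 * wsL k fun l => q (false :: l) := by
  simp only [wsL, sum_filter]
  rw [← (Fin.consEquiv fun _ : Fin (k + 1) => Bool).sum_comp, Fintype.sum_prod_type,
    Fintype.sum_bool]
  have e : ∀ β (x : Fin k → Bool),
      List.ofFn (Fin.consEquiv (fun _ : Fin (k + 1) => Bool) (β, x)) = β :: List.ofFn x := by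
    simp [Fin.consEquiv]
  rw [mul_sum, mul_sum, sub_eq_add_neg, ← sum_neg_distrib]
  congr 1 <;> refine sum_congr rfl fun x _ => ?_ <;> rw [e] <;> split_ifs <;>
    simp [Fin.consEquiv, Fin.prod_univ_succ]

theorem wsL_false (k : ℕ) : (wsL k fun _ => False) = 0 := by simp [wsL]

theorem wsL_congr {k : ℕ} {q q' : List Bool → Prop} (h : ∀ l, l.length = k → (q l ↔ q' l)) :
    wsL k q = wsL k q' := by
  unfold wsL
  congr 1
  ext w
  simp only [mem_filter, h _ List.length_ofFn]

/-- Every second bit. -/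
def und (l : List Bool) : List Bool :=
  (List.range (l.length / 2)).map fun i => l.getD (2 * i) false

/-- The string consists of pairs of opposite bits. -/
def alt (l : List Bool) : Bool := decide (l = (und l).flatMap fun β => [β, !β])

theorem und_cons (a b : Bool) (l : List Bool) : und (a :: b :: l) = a :: und l := by
  have : (l.length + 1 + 1) / 2 = l.length / 2 + 1 := by omega
  simp [und, this, List.range_succ_eq_map, mul_add]

theorem alt_cons (a b : Bool) (l : List Bool) : alt (a :: b :: l) = (b == !a && alt l) := by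
  simp only [alt, und_cons]
  cases a <;> cases b <;> simp

theorem wsL_alt (k : ℕ) (q : List Bool → Bool) :
    (wsL (2 * k) fun l => alt l = true ∧ q (und l) = true) = (-432) ^ k * cardL k q := by
  induction k generalizing q with
  | zero => cases h : q [] <;> simp [wsL, cardL, alt, und, h]
  | succ k ih =>
    rw [mul_add, mul_one, wsL_succ, wsL_succ, wsL_succ, cardL_succ]
    simp only [alt_cons, und_cons, Bool.not_true, Bool.not_false, beq_self_eq_true, Bool.true_and,
      ih fun l => q (true :: l), ih fun l => q (false :: l)]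
    simp [wsL_false]
    ring

/-- A test with one more accepted string, padded. -/
def pad (R : List Bool × List Bool × List Bool → Bool) (p q : ℕ) (x w v : List Bool) : Bool :=
  bif w.headD false then w.tail.all fun β => !β
  else R (x, w.tail.take p, v.take q) && (w.tail.drop p).all fun β => !β

theorem cardL_padNP (R : List Bool × List Bool × List Bool → Bool) (p q r s : ℕ) (x : List Bool) :
    (cardL (r + p + 1) fun w => @decide (∃ v : List Bool, v.length = q + s ∧
      pad R p q x w v = true) (Classical.dec _)) = 1 + (univ.filter fun w : Fin p → Bool =>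
        ∃ v : Fin q → Bool, R (x, List.ofFn w, List.ofFn v) = true).card := by
  rw [cardL_succ, ← cardL_zeros (r + p)]
  congr 1
  · refine congrArg _ (funext fun l => ?_)
    rw [Bool.eq_iff_iff, @decide_eq_true_eq _ (Classical.dec _)]
    exact ⟨fun ⟨_, _, h⟩ => h, fun h => ⟨List.replicate _ false, List.length_replicate, h⟩⟩
  · have := cardL_pad r p fun w => decide (∃ v : Fin q → Bool, R (x, w, List.ofFn v) = true)
    simp only [cardL, decide_eq_true_eq] at this ⊢
    rw [← this]
    refine congrArg _ (filter_congr fun w _ => ?_)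
    simp only [pad, List.headD_cons, List.tail_cons, cond_false, Bool.and_eq_true,
      decide_eq_true_eq, ← and_assoc, exists_and_right]
    refine and_congr_left' ⟨?_, ?_⟩
    · rintro ⟨v, h1, h2⟩
      refine ⟨fun i => v.getD i false, ?_⟩
      rwa [show (List.ofFn fun i : Fin q => v.getD i false) = v.take q from
        List.ext_getElem (by simp [h1]) fun i a1 a2 => by
          simp only [List.length_ofFn] at a1
          simp [show i < v.length by omega]]
    · rintro ⟨v, h⟩
      exact ⟨List.ofFn v ++ List.replicate s false, by simp, by simpa using h⟩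

theorem gap_hard {f g : List Bool → ℕ} (hf : IsSharpNP f) (hg : IsSharpNP g) :
    ∃ (lam rho : List Bool → List ℕ) (c : List Bool → ℕ),
      N68a2faeb.IsPolyTime (fun x => unary (lam x)) ∧
      N68a2faeb.IsPolyTime (fun x => unary (rho x)) ∧ N68a2faeb.IsPolyTime c ∧
      ∀ x, 0 < c x ∧ ∃ (n : ℕ) (l r : n.Partition), l.parts = lam x ∧ r.parts = rho x ∧
        Refines l.parts r.parts ∧ ∀ μ, IsMobius μ → μ l r = c x * ((f x : ℤ) - g x) := by
  obtain ⟨p, p', R, hR, hf⟩ := hf
  obtain ⟨q, q', S, hS, hg⟩ := hg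
  have hR' : PT R := pt_of_tm2 hR R (fun a => a) (fun _ => rfl) fun _ => rfl
  have hS' : PT S := pt_of_tm2 hS S (fun a => a) (fun _ => rfl) fun _ => rfl
  let k : List Bool → ℕ := fun x => 2 * (p.eval x.length + q.eval x.length + 1)
  let s : List Bool → ℕ := fun x => p'.eval x.length + q'.eval x.length
  let Q : List Bool × List Bool × List Bool → Bool := fun z => alt (z.2.1.drop 3) &&
    if (z.2.1.take 3).countP (fun β => β) = 1 then
      pad R (p.eval z.1.length) (p'.eval z.1.length) z.1 (und (z.2.1.drop 3)) z.2.2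
    else decide (z.2.1.take 3 = [true, true, false]) &&
      pad S (q.eval z.1.length) (q'.eval z.1.length) z.1 (und (z.2.1.drop 3)) z.2.2
  have hQ : PT Q := by
    simp only [Q, pad, alt, und]
    fun_prop
  have hk : PT k := by fun_prop
  have c1 : ∀ x, (wsL (2 * k x) fun l => alt l = true ∧ ∃ v : List Bool, v.length = s x ∧
      pad R (p.eval x.length) (p'.eval x.length) x (und l) v = true) = 432 ^ k x * (1 + f x) :=
    fun x => by
      have a := wsL_alt (k x) fun w => @decide (∃ v : List Bool, v.length = s x ∧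
        pad R (p.eval x.length) (p'.eval x.length) x w v = true) (Classical.dec _)
      have b := cardL_padNP R (p.eval x.length) (p'.eval x.length)
        (p.eval x.length + 2 * q.eval x.length + 1) (q'.eval x.length) x
      rw [← hf, show _ + 1 = k x by simp only [k]; ring] at b
      rw [b, Even.neg_pow ⟨_, two_mul _⟩] at a
      simpa using a
  have c2 : ∀ x, (wsL (2 * k x) fun l => alt l = true ∧ ∃ v : List Bool, v.length = s x ∧
      pad S (q.eval x.length) (q'.eval x.length) x (und l) v = true) = 432 ^ k x * (1 + g x) :=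
    fun x => by
      have a := wsL_alt (k x) fun w => @decide (∃ v : List Bool, v.length = s x ∧
        pad S (q.eval x.length) (q'.eval x.length) x w v = true) (Classical.dec _)
      have b := cardL_padNP S (q.eval x.length) (q'.eval x.length)
        (2 * p.eval x.length + q.eval x.length + 1) (p'.eval x.length) x
      rw [← hg, show _ + 1 = k x by simp only [k]; ring, add_comm (q'.eval _)] at b
      rw [b, Even.neg_pow ⟨_, two_mul _⟩] at a
      simpa using a
  have key : ∀ x, (wsL (2 * k x + 3) fun w => ∃ l : List Bool, l.length = 2 * k x + 3 + s x ∧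
      Q (x, l.take (2 * k x + 3), l.drop (2 * k x + 3)) = true ∧ w = l.take (2 * k x + 3)) =
      (15552 * 432 ^ k x : ℕ) * ((f x : ℤ) - g x) := fun x => by
    rw [wsL_congr (q' := fun w => ∃ v, v.length = s x ∧ Q (x, w, v) = true) fun w hw => ⟨?_, ?_⟩]
    · simp only [wsL_succ, Q]
      simp [wsL_false, and_left_comm (b := alt _ = true), c1, c2]
      ring
    · rintro ⟨l, a1, a2, rfl⟩
      exact ⟨_, by simp [a1], a2⟩
    · rintro ⟨v, a1, a2⟩
      exact ⟨w ++ v, by simp [hw, a1], by simpa [hw] using a2, by simp [hw]⟩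
  obtain ⟨lam, rho, a1, a2, a3⟩ := gap_verifier
    (fun z => Q (z.1, z.2.take (2 * k z.1 + 3), z.2.drop (2 * k z.1 + 3))) (by fun_prop)
    (fun x => 2 * k x + 3 + s x) (fun x => 2 * k x + 3) (by fun_prop) (by fun_prop)
    (fun x => by omega) (fun x => by omega) fun x => by
      by_contra c
      have := c1 x
      rw [wsL_congr (q' := fun _ => False) fun l hl => iff_false_intro fun ⟨h1, v, h2, h3⟩ =>
        c ⟨true :: false :: false :: (l ++ v), by simp [hl, h2]; omega, by
          simp [Q, ← hl, h1, h3]⟩, wsL_false] at this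
      exact this.not_lt (by positivity)
  refine ⟨lam, rho, fun x => 15552 * 432 ^ k x, PT.isPolyTime_list (by unfold unary; fun_prop),
    PT.isPolyTime_list (by unfold unary; fun_prop),
    ((pt_prod (L := fun x => 15552 :: List.replicate (k x) 432) (by fun_prop)).of_eq fun x => by
      simp).tm2 _ _ _ (fun a => a) (fun _ => rfl) fun _ => rfl, fun x => ⟨by positivity, ?_⟩⟩
  obtain ⟨n, l, r, b1, b2, b3, b4⟩ := a3 x
  exact ⟨n, l, r, b1, b2, b3, fun μ hμ => (b4 μ hμ).trans (key x)⟩

end Pool.Agent.Work.MP_84e666_co.NP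
end
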