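import Pool.Agent.Work.MP_84e666_co.N.ChainMu

/-! Items and bins for a system of equations with outer and inner variables. -/

namespace Pool.Agent.Work.MP_84e666_co.NP

open Finset Sum Pack

/-- Weights of the selector items. -/
def gv (k : Fin 7) : ℕ := [9, 3, 10, 7, 2, 5, 8].getD k 0

/-- Heavy selector items. -/
def hv (k : Fin 7) : Bool := k = 0 || k = 5

/-- Rows of the two versions. -/
def row (s β : Bool) : Finset (Fin 7) :=
  if s = true then (if β = true then {0} else {1, 2}) else (if β = true then {3, 4} else {5, 6})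

/-- Columns of the two versions. -/
def col (s γ : Bool) : Finset (Fin 7) :=
  if s = true then (if γ = true then {0, 1} else {2}) else (if γ = true then {3, 5} else {4, 6})

/-- The two versions. -/
def ver (s : Bool) : Finset (Fin 7) := if s = true then {0, 1, 2} else {3, 4, 5, 6}

/-- Row weights. -/
def rs (β : Bool) : ℕ := if β = true then 9 else 13

/-- Column weights. -/
def cs (γ : Bool) : ℕ := if γ = true then 12 else 10

/-- The set contains a heavy item. -/
def hvs (s : Finset (Fin 7)) : Bool := decide (0 ∈ s) || decide (5 ∈ s)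

theorem gv_pos : ∀ k, 0 < gv k ∧ gv k ≤ 10 := by decide

theorem row_opt : ∀ s : Finset (Fin 7), (∑ k ∈ s, gv k = rs true → ∃ u, s = row u true) ∧
    (∑ k ∈ s, gv k = rs false → (∃ u, s = row u false) ∨ s = {1, 4, 6}) := by
  decide +kernel

theorem row_hv : ∀ (β : Bool) (s : Finset (Fin 7)), ∑ k ∈ s, gv k = rs β →
    ∑ k ∈ s, (hv k).toNat = (hvs s).toNat := by
  decide +kernel

theorem row_ver : ∀ (u β : Bool) (s : Finset (Fin 7)), s ⊆ ver u → ∑ k ∈ s, gv k = rs β →
    s = row u β := by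
  decide +kernel

theorem row_col : ∀ (u β γ : Bool) (s : Finset (Fin 7)), s ⊆ ver u → ∑ k ∈ s, gv k = cs γ →
    ∀ k ∈ s, ∀ k' ∈ s, k ∈ row u β → k' ∈ row u β → k = k' := by
  decide +kernel

theorem four {s₁ s₂ s₃ s₄ : Finset (Fin 7)} (h1 : ∑ k ∈ s₁, gv k = rs true)
    (h2 : ∑ k ∈ s₂, gv k = rs false) (h3 : ∑ k ∈ s₃, gv k = rs true)
    (h4 : ∑ k ∈ s₄, gv k = rs false) (h5 : hvs s₄ = !hvs s₃)
    (h : ∀ k, (if k ∈ s₁ then 1 else 0) + (if k ∈ s₂ then 1 else 0) +
      ((if k ∈ s₃ then 1 else 0) + if k ∈ s₄ then 1 else 0) = 1) :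
    s₁ = row (hvs s₁) true ∧ s₂ = row (hvs s₁) false ∧ hvs s₂ = !hvs s₁ := by
  obtain ⟨u₁, rfl⟩ := (row_opt _).1 h1
  obtain ⟨u₃, rfl⟩ := (row_opt _).1 h3
  rcases (row_opt _).2 h2 with ⟨u₂, rfl⟩ | rfl <;> rcases (row_opt _).2 h4 with ⟨u₄, rfl⟩ | rfl <;>
    revert h5 h <;> decide +revert

/-- Size of a link. -/
def zL (B e l x : ℕ) : ℕ :=
  131 * (1 + B * (B * (B * (l + B * (l ^ 2 + B * (e + B * (e ^ 2 + B * (B * (B * (B * x))))))))))

/-- Size of a switch. -/
def zS (B v x : ℕ) : ℕ := 131 * (B * (1 + B * (v + B ^ 8 * x)))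

/-- Size of a selector item. -/
def zG (B i g x : ℕ) : ℕ := 131 * (B ^ 7 * (g + B * (g * i + B * (g * i ^ 2 + B * x))))

/-- Links, switches and selector items. -/
abbrev Tk (n m : ℕ) := (Fin m × (Fin n × Bool) × Bool) ⊕ (Fin n × Bool) ⊕ (Fin n × Fin 7)

variable {n m : ℕ}

/-- A function on items, by kind. -/
def tr (f : Fin m × (Fin n × Bool) × Bool → ℕ) (g : Fin n × Bool → ℕ) (h : Fin n × Fin 7 → ℕ) :
    Tk n m → ℕ
  | inl x => f x
  | inr (inl y) => g y
  | inr (inr k) => h k

/-- The digits. -/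
def dgs : List (Tk n m → ℕ) :=
  [tr 1 0 0, tr 0 1 0, tr 0 (fun y => y.1.val) 0,
    tr (fun x => code x.2.1) 0 0, tr (fun x => code x.2.1 ^ 2) 0 0,
    tr (fun x => x.1.val) 0 0, tr (fun x => x.1.val ^ 2) 0 0, tr 0 0 fun g => gv g.2,
    tr 0 0 fun g => gv g.2 * g.1.val, tr 0 0 fun g => gv g.2 * g.1.val ^ 2]

variable (a : ℕ → ℕ → Bool → ℕ) (b : ℕ → ℕ) (M B K : ℕ)

/-- The top digit. -/
def tp : Tk n m → ℕ :=
  tr (fun x => if x.2.2 = true then a x.1 x.2.1.1 x.2.1.2 + 1 else 0)
    (fun y => if y.2 = true then M else 0) fun g => (hv g.2).toNat * M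

/-- The size of an item. -/
def sz (τ : Tk n m) : ℕ := 131 * hor B (tp a M) dgs τ

theorem sz_link (x : Fin m × (Fin n × Bool) × Bool) : sz a M B (inl x) =
    zL B x.1 (code x.2.1) (if x.2.2 = true then a x.1 x.2.1.1 x.2.1.2 + 1 else 0) := by
  simp [sz, dgs, hor, tr, tp, zL]

theorem sz_sw (y : Fin n × Bool) : sz (m := m) a M B (inr (inl y)) =
    zS B y.1 (if y.2 = true then M else 0) := by
  simp only [sz, dgs, hor, tr, tp, zS, Pi.zero_apply, Pi.one_apply]
  ring

theorem sz_gad (g : Fin n × Fin 7) : sz (m := m) a M B (inr (inr g)) =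
    zG B g.1 (gv g.2) ((hv g.2).toNat * M) := by
  simp only [sz, dgs, hor, tr, tp, zG, Pi.zero_apply]
  ring

theorem dgs_le : ∀ f ∈ dgs (n := n) (m := m), ∀ τ, f τ ≤ 10 * (2 * n + m + 1) ^ 2 := by
  have h2 : ∀ g x, g ≤ 10 → x ≤ 2 * n + m + 1 → g * x ^ 2 ≤ 10 * (2 * n + m + 1) ^ 2 :=
    fun g x hg hx => Nat.mul_le_mul hg (Nat.pow_le_pow_left hx _)
  have h : ∀ g x, g ≤ 10 → x ≤ 2 * n + m + 1 → g * x ≤ 10 * (2 * n + m + 1) ^ 2 :=
    fun g x hg hx => Nat.mul_le_mul hg (hx.trans (Nat.le_self_pow two_ne_zero _))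
  simp only [dgs, List.forall_mem_cons, List.not_mem_nil, false_imp_iff, implies_true, and_true]
  refine ⟨?_, ?_, ?_, ?_, ?_, ?_, ?_, ?_, ?_, ?_⟩ <;> rintro (x | y | k) <;>
    simp only [tr, Pi.zero_apply, Pi.one_apply, Nat.zero_le]
  · exact h 1 1 (by omega) (by omega)
  · exact h 1 1 (by omega) (by omega)
  · exact (one_mul _).ge.trans (h 1 _ (by omega) (by omega))
  · exact (one_mul _).ge.trans (h 1 _ (by omega) (by have := code_le x.2.1; omega))
  · exact (one_mul _).ge.trans (h2 1 _ (by omega) (by have := code_le x.2.1; omega))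
  · exact (one_mul _).ge.trans (h 1 _ (by omega) (by omega))
  · exact (one_mul _).ge.trans (h2 1 _ (by omega) (by omega))
  · exact (mul_one _).ge.trans (h _ 1 (gv_pos _).2 (by omega))
  · exact h _ _ (gv_pos _).2 (by omega)
  · exact h2 _ _ (gv_pos _).2 (by omega)

/-- The multiset with prescribed multiplicities. -/
def ms (c : Tk n m → ℕ) : Multiset (Tk n m) := ∑ τ, Multiset.replicate (c τ) τ

theorem count_ms (c : Tk n m → ℕ) (τ : Tk n m) : (ms c).count τ = c τ := by
  rw [ms, Multiset.count_sum']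
  simp [Multiset.count_replicate, -Fintype.sum_sum_type]

theorem sum_ms (c f : Tk n m → ℕ) : ((ms c).map f).sum = ∑ τ, c τ * f τ := by
  simp only [sum_map_count, count_ms]

/-- All items. -/
def cA : Tk n m → ℕ := tr 1 1 fun g => if g.1.val < K then 1 else 0

/-- The items left for the outer assignment `u`. -/
def cR (u : Fin n → Bool) : Tk n m → ℕ := tr 1 (fun y => if y.1.val < K then 0 else 1)
  fun g => if g.1.val < K then (if g.2 ∈ ver (u g.1) then 1 else 0) else 0

/-- The items removed for the outer assignment `u`. -/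
def cD (u : Fin n → Bool) : Tk n m → ℕ := tr 0 (fun y => if y.1.val < K then 1 else 0)
  fun g => if g.1.val < K then (if g.2 ∈ ver (!u g.1) then 1 else 0) else 0

/-- The indicator of a set of selector items of one variable. -/
def gi (v : Fin n) (s : Finset (Fin 7)) (g : Fin n × Fin 7) : ℕ :=
  if g.1 = v then (if g.2 ∈ s then 1 else 0) else 0

/-- The packing of the first kind. -/
def c1 (z : Fin n → Bool) : Box n m → Tk n m → ℕ
  | inl l => tr (fun x => if x.2 = (l, !tv z l) then 1 else 0)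
      (if l.1.val < K then 0 else fun y => if y = (l.1, tv z l) then 1 else 0)
      (if l.1.val < K then gi l.1 (row (z l.1) l.2) else 0)
  | inr e => tr (fun x => if x.1 = e then (if x.2.2 = tv z x.2.1 then 1 else 0) else 0) 0 0

/-- The bins of the second kind. -/
abbrev Box2 (n m : ℕ) := (Fin m × (Fin n × Bool) × Bool) ⊕ (Fin n × Bool) ⊕ Unit

/-- The packing of the second kind. -/
def c2 (u : Fin n → Bool) : Box2 n m → Tk n m → ℕ
  | inl x => tr (fun x' => if x' = x then 1 else 0) 0 0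
  | inr (inl l) => tr 0 0 (if l.1.val < K then gi l.1 (col (u l.1) l.2) else 0)
  | inr (inr _) => tr 0 (fun y => if y.1.val < K then 0 else 1) 0

/-- The packing of the removed items. -/
def c3 (u : Fin n → Bool) (l : Fin n × Bool) : Tk n m → ℕ :=
  if l.1.val < K then
    tr 0 (fun y => if y = (l.1, tv u l) then 1 else 0) (gi l.1 (row (!u l.1) l.2))
  else 0

/-- The targets of the first kind. -/
def t1 : Box n m → ℕ
  | inl l => ∑ e : Fin m, zL B e (code l) 0 +
      if l.1.val < K then zG B l.1 (rs l.2) M else zS B l.1 M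
  | inr e => ∑ l : Fin n × Bool, zL B e (code l) 0 + 131 * (B ^ 10 * (b e + n))

/-- The targets of the second kind. -/
def t2 : Box2 n m → ℕ
  | inl x => sz a M B (inl x)
  | inr (inl l) => if l.1.val < K then zG B l.1 (cs l.2) (l.2.toNat * M) else 0
  | inr (inr _) => ∑ v : Fin n, if v.val < K then 0 else zS B v M + zS B v 0

/-- The targets for the removed items. -/
def t3 (l : Fin n × Bool) : ℕ := if l.1.val < K then zS B l.1 M + zG B l.1 (rs l.2) 0 else 0

theorem sum_gi (v : Fin n) (s : Finset (Fin 7)) (f : Fin n × Fin 7 → ℕ) :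
    ∑ g, gi v s g * f g = ∑ k ∈ s, f (v, k) := by
  simp [gi, Fintype.sum_prod_type]

theorem sum_c1l (z : Fin n → Bool) (l : Fin n × Bool) (f : Tk n m → ℕ) :
    ∑ τ, c1 K z (inl l) τ * f τ = ∑ e, f (inl (e, l, !tv z l)) +
      if l.1.val < K then ∑ k ∈ row (z l.1) l.2, f (inr (inr (l.1, k)))
      else f (inr (inl (l.1, tv z l))) := by
  simp only [Fintype.sum_sum_type, c1, tr]
  split_ifs <;> simp [sum_gi, Fintype.sum_prod_type (α₁ := Fin m)]

theorem sum_c1r (z : Fin n → Bool) (e : Fin m) (f : Tk n m → ℕ) :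
    ∑ τ, c1 K z (inr e) τ * f τ = ∑ l : Fin n × Bool, f (inl (e, l, tv z l)) := by
  simp only [Fintype.sum_sum_type, c1, tr, ite_mul, one_mul, zero_mul, Pi.zero_apply,
    Fintype.sum_prod_type (α₁ := Fin m), Fintype.sum_prod_type (α₁ := Fin n × Bool), sum_ite_eq',
    mem_univ, if_true, sum_ite_irrel, sum_const_zero, add_zero]

theorem sum_c3 (u : Fin n → Bool) (l : Fin n × Bool) (f : Tk n m → ℕ) :
    ∑ τ, c3 K u l τ * f τ = if l.1.val < K then f (inr (inl (l.1, tv u l))) +
      ∑ k ∈ row (!u l.1) l.2, f (inr (inr (l.1, k))) else 0 := by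
  unfold c3
  split_ifs <;> simp [Fintype.sum_sum_type, tr, sum_gi]

theorem zL_eq (B e l x : ℕ) : zL B e l x = zL B e l 0 + 131 * (B ^ 10 * x) := by
  simp only [zL]; ring

theorem zS_eq (B v x : ℕ) : zS B v x = zS B v 0 + 131 * (B ^ 10 * x) := by
  simp only [zS]; ring

theorem zG_eq (B v g x : ℕ) : zG B v g x = zG B v g 0 + 131 * (B ^ 10 * x) := by
  simp only [zG]; ring

theorem sum_row (v : Fin n) (s β : Bool) : ∑ k ∈ row s β, sz (m := m) a M B (inr (inr (v, k))) =
    zG B v (rs β) (if s = β then M else 0) := by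
  cases s <;> cases β <;> simp [row, sz_gad, zG, gv, hv, rs] <;> ring

theorem sum_col (v : Fin n) (s γ : Bool) : ∑ k ∈ col s γ, sz (m := m) a M B (inr (inr (v, k))) =
    zG B v (cs γ) (γ.toNat * M) := by
  cases s <;> cases γ <;> simp [col, sz_gad, zG, gv, hv, cs] <;> ring

/-- The solutions. -/
def Sol (n m : ℕ) (z : Fin n → Bool) : Prop := ∀ e : Fin m, ∑ v : Fin n, a e v (z v) = b e

variable {a b M B K}

theorem all_eq (u : Fin n → Bool) : ms (cA (m := m) K) = ms (cR K u) + ms (cD K u) := by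
  ext τ
  simp only [Multiset.count_add, count_ms]
  rcases τ with x | y | ⟨v, k⟩ <;> simp only [cA, cR, cD, tr, Pi.one_apply, Pi.zero_apply]
  · rfl
  · split_ifs <;> rfl
  · split_ifs <;> first | rfl | (revert k; cases u v <;> decide)

theorem complete1 (hM : ∀ l : Fin n × Bool, ∑ e : Fin m, (a e l.1 l.2 + 1) = M)
    {z : Fin n → Bool} (hz : Sol a b n m z) : ∑ j, ms (c1 (m := m) K z j) = ms (cR K z) ∧
      ∀ j : Box n m, ((ms (c1 K z j)).map (sz a M B)).sum = t1 b M B K j := by
  refine ⟨Multiset.ext.2 fun τ => ?_, ?_⟩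
  · rw [Multiset.count_sum']
    simp only [count_ms]
    simp only [Fintype.sum_sum_type]
    rcases τ with ⟨e, l, σ⟩ | ⟨v, σ⟩ | ⟨v, k⟩
    · cases h : tv z l <;> cases σ <;> simp [c1, cR, tr, ite_and, h]
    · simp only [c1, cR, tr, Fintype.sum_prod_type, ite_apply, Pi.zero_apply, Prod.mk.injEq,
        sum_const_zero, add_zero]
      rw [sum_eq_single v (fun v' _ c => by simp [c.symm]) (by simp)]
      cases h : z v <;> cases σ <;> simp [tv, h]
    · simp only [c1, cR, tr, Fintype.sum_prod_type, ite_apply, Pi.zero_apply, gi,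
        sum_const_zero, add_zero]
      rw [sum_eq_single v (fun v' _ c => by simp [c.symm]) (by simp)]
      simp only [Fintype.sum_bool, if_true]
      split_ifs with c <;> first | rfl | (revert k; cases z v <;> decide)
  · rintro (⟨v, β⟩ | e)
    · rw [sum_ms, sum_c1l, t1]
      simp only [sz_link, sz_sw, sum_row]
      have := hM (v, β)
      cases h : tv z (v, β)
      · simp only [Bool.not_false, if_true, Bool.false_eq_true, if_false]
        rw [sum_congr rfl fun e _ => zL_eq _ _ _ _, zS_eq B v M, zG_eq B v _ M, sum_add_distrib,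
          ← mul_sum, ← mul_sum, this, if_neg (show ¬z v = β by simpa [tv] using h)]
        split_ifs <;> omega
      · simp only [Bool.not_true, if_true, Bool.false_eq_true, if_false]
        rw [if_pos (show z v = β by simpa [tv] using h)]
    · rw [sum_ms, sum_c1r, t1]
      simp only [sz_link]
      rw [sum_congr rfl fun e _ => zL_eq _ _ _ _, sum_add_distrib, ← mul_sum, ← mul_sum,
        sum_true z fun l => a e l.1 l.2 + 1, sum_add_distrib, hz e]
      simp

theorem complete2 (u : Fin n → Bool) : ∑ j, ms (c2 (m := m) K u j) = ms (cR K u) ∧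
      ∀ j : Box2 n m, ((ms (c2 K u j)).map (sz a M B)).sum = t2 a M B K j := by
  refine ⟨Multiset.ext.2 fun τ => ?_, ?_⟩
  · rw [Multiset.count_sum']
    simp only [count_ms]
    simp only [Fintype.sum_sum_type]
    rcases τ with x | y | ⟨v, k⟩
    · simp [c2, cR, tr]
    · simp [c2, cR, tr]
    · simp only [c2, cR, tr, Fintype.sum_prod_type (α₁ := Fin n), ite_apply, Pi.zero_apply, gi,
        sum_const_zero, add_zero, zero_add]
      rw [sum_eq_single v (fun v' _ c => by simp [c.symm]) (by simp)]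
      simp only [Fintype.sum_bool, if_true]
      split_ifs with c <;> first | rfl | (revert k; cases u v <;> decide)
  · rintro (x | l | x) <;> rw [sum_ms] <;> simp only [Fintype.sum_sum_type, c2, t2, tr]
    · simp
    · split_ifs <;> simp [sum_gi, sum_col]
    · simp only [Pi.zero_apply, zero_mul, sum_const_zero, zero_add, add_zero,
        Fintype.sum_prod_type, Fintype.sum_bool, sz_sw]
      refine sum_congr rfl fun v _ => ?_
      by_cases c : v.val < K <;> simp [c]

theorem complete3 (u : Fin n → Bool) : ∑ l, ms (c3 (m := m) K u l) = ms (cD K u) ∧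
      ∀ l, ((ms (c3 (m := m) K u l)).map (sz a M B)).sum = t3 M B K l := by
  refine ⟨Multiset.ext.2 fun τ => ?_, fun ⟨v, β⟩ => ?_⟩
  · rw [Multiset.count_sum']
    simp only [count_ms, c3, ite_apply, Pi.zero_apply]
    rcases τ with x | ⟨v, σ⟩ | ⟨v, k⟩
    · simp [cD, tr]
    · simp only [cD, tr, Fintype.sum_prod_type, Prod.mk.injEq]
      rw [sum_eq_single v (fun v' _ c => by simp [c.symm]) (by simp)]
      cases h : u v <;> cases σ <;> simp [tv, h]
    · simp only [cD, tr, Fintype.sum_prod_type, gi]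
      rw [sum_eq_single v (fun v' _ c => by simp [c.symm]) (by simp)]
      simp only [Fintype.sum_bool, if_true]
      split_ifs with c <;> first | rfl | (revert k; cases u v <;> decide)
  · rw [sum_ms, sum_c3, t3, sum_row, sz_sw, zS_eq B _ M, zS_eq, zG_eq]
    cases h : u v <;> cases β <;> simp [tv, h] <;> split_ifs <;> omega

end Pool.Agent.Work.MP_84e666_co.NP
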